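import Pool.Agent.Work.MP_16d7ed_al.GK.Defs

/-!
# MODULE BcDesc (S-M): annihilating polynomials after extension of scalars (pure linear algebra)

PROOF. Write `Φ = φ.baseChange Ω`; `Φ^j (1 ⊗ a) = 1 ⊗ φ^j a`, `aeval Φ (P.map _) (1 ⊗ a) = 1 ⊗ aeval φ P a`.
If the vectors `φ^j a`, `j ≤ n`, are `K`-independent, the `1 ⊗ φ^j a` are `Ω`-independent (`LinearIndependent.tmul..`/
`LinearIndependent.baseChange`-style lemma in Mathlib, or flatness). As `f ≠ 0` kills `1 ⊗ a` the `φ^j a`, `j ≤ natDegree f`, are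
dependent. Let `m` be least with `a, .., φ^m a` dependent: there is `P` of degree exactly `m`, `P ≠ 0`, `aeval φ P a = 0`, and
`φ^j a`, `j < m`, are independent. Divide: `f = P_Ω q + r`, `deg r < m`; `r` kills `1 ⊗ a`, so `r = 0`.
(Alternatively: `P` = generator of the annihilator ideal.)
-/

set_option autoImplicit false

open Polynomial Module

namespace Pool.Agent.Work.MP_16d7ed_al.GK

open scoped TensorProduct in
private theorem bcPow {K Ω M : Type*} [Field K] [Field Ω] [Algebra K Ω] [AddCommGroup M]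
    [Module K M] (φ : M →ₗ[K] M) (a : M) (j : ℕ) :
    ((φ.baseChange Ω : Module.End Ω (Ω ⊗[K] M)) ^ j) ((1 : Ω) ⊗ₜ[K] a) =
      (1 : Ω) ⊗ₜ[K] (((φ : Module.End K M) ^ j) a) := by
  induction j with
  | zero => simp
  | succ j ih =>
    rw [pow_succ', pow_succ', Module.End.mul_apply, Module.End.mul_apply, ih,
      LinearMap.baseChange_tmul]

open scoped TensorProduct in
private theorem bcEval {K Ω M : Type*} [Field K] [Field Ω] [Algebra K Ω] [AddCommGroup M]
    [Module K M] (φ : M →ₗ[K] M) (a : M) (P : K[X]) :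
    aeval (φ.baseChange Ω : Module.End Ω (Ω ⊗[K] M)) (P.map (algebraMap K Ω)) ((1 : Ω) ⊗ₜ[K] a) =
      (1 : Ω) ⊗ₜ[K] (aeval (φ : Module.End K M) P a) := by
  rw [Polynomial.aeval_eq_sum_range, Polynomial.aeval_eq_sum_range, Polynomial.natDegree_map,
    LinearMap.sum_apply, LinearMap.sum_apply, TensorProduct.tmul_sum]
  refine Finset.sum_congr rfl fun j _ => ?_
  rw [LinearMap.smul_apply, LinearMap.smul_apply, bcPow, Polynomial.coeff_map,
    TensorProduct.tmul_smul, algebraMap_smul]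

open scoped TensorProduct in
private theorem bcZero {K Ω M : Type*} [Field K] [Field Ω] [Algebra K Ω] [AddCommGroup M]
    [Module K M] (φ : M →ₗ[K] M) (a : M) (Q : Polynomial Ω)
    (h : aeval (φ.baseChange Ω : Module.End Ω (Ω ⊗[K] M)) Q ((1 : Ω) ⊗ₜ[K] a) = 0)
    (hP : ∀ P : K[X], P ≠ 0 → aeval (φ : Module.End K M) P a = 0 →
      Q.natDegree < P.natDegree) : Q = 0 := by
  have hli : LinearIndependent K (fun j : Fin (Q.natDegree + 1) =>
      ((φ : Module.End K M) ^ (j : ℕ)) a) := by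
    rw [Fintype.linearIndependent_iff]
    intro g hg
    obtain ⟨P, hPd⟩ : ∃ P : K[X], P = ∑ j : Fin (Q.natDegree + 1), monomial (j : ℕ) (g j) :=
      ⟨_, rfl⟩
    have hPe : aeval (φ : Module.End K M) P a = 0 := by
      rw [hPd, map_sum, LinearMap.sum_apply, ← hg]
      refine Finset.sum_congr rfl fun j _ => ?_
      rw [Polynomial.aeval_monomial, Module.End.mul_apply, Module.algebraMap_end_apply]
    have hc : ∀ j : Fin (Q.natDegree + 1), P.coeff (j : ℕ) = g j := by
      intro j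
      rw [hPd, Polynomial.finsetSum_coeff, Finset.sum_eq_single j]
      · rw [Polynomial.coeff_monomial, if_pos rfl]
      · intro i _ hij
        rw [Polynomial.coeff_monomial, if_neg (fun h => hij (Fin.ext h))]
      · intro hj
        exact absurd (Finset.mem_univ j) hj
    have hdeg : P.natDegree ≤ Q.natDegree := by
      rw [hPd]
      refine Polynomial.natDegree_sum_le_of_forall_le _ _ fun j _ => ?_
      exact (Polynomial.natDegree_monomial_le _).trans (Nat.lt_succ_iff.1 j.2)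
    intro j
    rw [← hc j]
    by_cases h0 : P = 0
    · rw [h0, Polynomial.coeff_zero]
    · exact absurd (hP P h0 hPe) (not_lt.2 hdeg)
  have hli2 := Module.Flat.linearIndependent_one_tmul (S := Ω) hli
  rw [Fintype.linearIndependent_iff] at hli2
  have h1 : ∑ j : Fin (Q.natDegree + 1), Q.coeff (j : ℕ) •
      ((1 : Ω) ⊗ₜ[K] (((φ : Module.End K M) ^ (j : ℕ)) a)) = 0 := by
    rw [Polynomial.aeval_eq_sum_range, LinearMap.sum_apply,
      ← Fin.sum_univ_eq_sum_range (fun i => (Q.coeff i •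
        (φ.baseChange Ω : Module.End Ω (Ω ⊗[K] M)) ^ i) ((1 : Ω) ⊗ₜ[K] a))] at h
    rw [← h]
    refine Finset.sum_congr rfl fun j _ => ?_
    rw [LinearMap.smul_apply, bcPow]
  have h2 := hli2 (fun j => Q.coeff (j : ℕ)) h1 ⟨Q.natDegree, Nat.lt_succ_self _⟩
  exact Polynomial.leadingCoeff_eq_zero.1 h2

open scoped TensorProduct in
theorem bcDesc {K Ω M : Type*} [Field K] [Field Ω] [Algebra K Ω] [AddCommGroup M] [Module K M]
    (φ : M →ₗ[K] M) (a : M) (f : Polynomial Ω) (hf : f ≠ 0)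
    (h : aeval (φ.baseChange Ω : Module.End Ω (Ω ⊗[K] M)) f ((1 : Ω) ⊗ₜ[K] a) = 0) :
    ∃ P : K[X], P ≠ 0 ∧ aeval (φ : Module.End K M) P a = 0 ∧ P.map (algebraMap K Ω) ∣ f := by
  classical
  have hex : ∃ m : ℕ, ∃ P : K[X], P ≠ 0 ∧ aeval (φ : Module.End K M) P a = 0 ∧
      P.natDegree = m := by
    by_contra hcon
    exact hf (bcZero φ a f h fun P h1 h2 => absurd ⟨_, P, h1, h2, rfl⟩ hcon)
  obtain ⟨P, hP0, hPa, hPm⟩ := Nat.find_spec hex
  have hmin : ∀ P' : K[X], P' ≠ 0 → aeval (φ : Module.End K M) P' a = 0 →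
      P.natDegree ≤ P'.natDegree := by
    intro P' h1 h2
    rw [hPm]
    exact Nat.find_min' hex ⟨P', h1, h2, rfl⟩
  refine ⟨P, hP0, hPa, ?_⟩
  have hmap0 : P.map (algebraMap K Ω) ≠ 0 := (Polynomial.map_ne_zero_iff
    (algebraMap K Ω).injective).2 hP0
  by_contra hdvd
  have hr : ¬ f % P.map (algebraMap K Ω) = 0 := fun h0 => hdvd (EuclideanDomain.mod_eq_zero.1 h0)
  refine hr (bcZero φ a _ ?_ ?_)
  · have h3 := EuclideanDomain.div_add_mod f (P.map (algebraMap K Ω))
    have h4 : f % P.map (algebraMap K Ω) = f - (f / P.map (algebraMap K Ω)) *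
        P.map (algebraMap K Ω) := by
      rw [eq_sub_iff_add_eq, add_comm, mul_comm]
      exact h3
    rw [h4, map_sub, LinearMap.sub_apply, h, map_mul, Module.End.mul_apply, bcEval, hPa,
      TensorProduct.tmul_zero, map_zero, sub_zero]
  · intro P' h1 h2
    refine lt_of_lt_of_le ?_ (hmin P' h1 h2)
    have h5 := Polynomial.natDegree_lt_natDegree hr (EuclideanDomain.mod_lt f hmap0)
    rwa [Polynomial.natDegree_map] at h5

end Pool.Agent.Work.MP_16d7ed_al.GK
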