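import Pool.Agent.Work.MP_16d7ed_al.GK.Defs

/-!
# MODULE BiK (S): polynomials over `k[X]` and over `K = RatFunc k`

PROOF. Both sides are `Σ_j f_j(y) a y^j`, `P = Σ C f_j X^j`: `(algebraMap f) • d = aeval y f * d` for `y = yy k D = RatFunc.X • 1`
(induction on `f`; `c ↦ c • 1` is a ring homomorphism `RatFunc k → D` which maps `RatFunc.X` to `y` and is `k`-linear).
-/

set_option autoImplicit false

open Polynomial Module

namespace Pool.Agent.Work.MP_16d7ed_al.GK

private theorem pow_smul_one {K D : Type*} [Field K] [Ring D] [Module K D]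
    [IsScalarTower K D D] (c : K) (n : ℕ) : (c ^ n) • (1 : D) = (c • (1 : D)) ^ n := by
  induction n with
  | zero => simp
  | succ n ih => rw [pow_succ', mul_smul, ih, pow_succ', smul_one_mul]

theorem aeval_smul_one {k D : Type*} [Field k] [Ring D] [Algebra k D] [Module (RatFunc k) D]
    [IsScalarTower (RatFunc k) D D] [IsScalarTower k (RatFunc k) D] (f : k[X]) :
    (algebraMap k[X] (RatFunc k) f) • (1 : D) = aeval (yy k D) f := by
  induction f using Polynomial.induction_on' with
  | add p q hp hq => rw [map_add, add_smul, hp, hq, map_add]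
  | monomial n a =>
    rw [← Polynomial.C_mul_X_pow_eq_monomial, map_mul, map_pow, RatFunc.algebraMap_C,
      RatFunc.algebraMap_X, mul_smul, pow_smul_one, map_mul, aeval_C, map_pow, aeval_X,
      ← RatFunc.algebraMap_eq_C, algebraMap_smul, Algebra.smul_def]

theorem biK {k D : Type*} [Field k] [Ring D] [Algebra k D] [Module (RatFunc k) D]
    [IsScalarTower (RatFunc k) D D] [IsScalarTower k (RatFunc k) D] (P : k[X][X]) (a : D) :
    aeval (LinearMap.mulRight (RatFunc k) (yy k D)) (P.map (algebraMap k[X] (RatFunc k))) a =
      bi k (yy k D) P a := by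
  induction P using Polynomial.induction_on' with
  | add p q hp hq =>
    rw [Polynomial.map_add, map_add, map_add, LinearMap.add_apply, LinearMap.add_apply, hp, hq]
  | monomial n f =>
    rw [Polynomial.map_monomial, aeval_monomial, bi_apply, Polynomial.sum_monomial_index _ _ (by simp),
      Module.End.mul_apply, Module.algebraMap_end_apply, LinearMap.pow_mulRight,
      LinearMap.mulRight_apply, ← smul_one_mul, aeval_smul_one, mul_assoc]

end Pool.Agent.Work.MP_16d7ed_al.GK
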