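import Pool.Agent.Work.MP_16d7ed_al.GK.MinSup

/-!
# MODULE EndBound (M): finite left dimension over a commutative field implies finite over the centre

PROOF. `m₀ = dim_K D` (left). Let `d_1, .., d_l ∈ D` be independent over `Z`. Claim: the right multiplications `R_i : a ↦ a * d_i` (`K`-linear endomorphisms of the left `K`-space `D`,
`LinearMap.mulRight K d_i`) are `K`-independent in `End_K D` (dimension `m₀^2`), so `l ≤ m₀^2`. Suppose `Σ c_i • R_i = 0`, `c ≠ 0`: `Σ (c_i • 1) * a * d_i = 0` for all `a ∈ D`, with `c_i • 1` not all zero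
(`c • 1 = 0` implies `c = 0`). By `minSup` with `S = ⊤` there are central `c'_i`, not all zero, with `Σ c'_i d_i = 0`; `c'_i = algebraMap Z D z_i` (`hZ`), contradiction to `Z`-independence. Hence
`D` has dimension at most `m₀^2` over `Z` (`Module.rank_le`-type lemma, or: choose a maximal finite independent family, it spans).
-/

set_option autoImplicit false

open Polynomial Module

namespace Pool.Agent.Work.MP_16d7ed_al.GK

private theorem endBound_ind {Z K D : Type*} [Field Z] [Field K] [DivisionRing D] [Algebra Z D]
    (hZ : ∀ c ∈ Subring.center D, c ∈ Set.range (algebraMap Z D))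
    [Module K D] [IsScalarTower K D D] (n : ℕ) (d : Fin n → D) (hd : LinearIndependent Z d) :
    LinearIndependent K fun i => LinearMap.mulRight K (d i) := by
  rw [Fintype.linearIndependent_iff]
  intro c hc
  by_contra hcon
  have hc0 : (fun i => c i • (1 : D)) ≠ 0 := by
    intro h
    apply hcon
    intro i
    have h1 : c i • (1 : D) = 0 := congrFun h i
    rcases smul_eq_zero.1 h1 with h2 | h2
    · exact h2
    · exact absurd h2 one_ne_zero
  obtain ⟨c', hc', hcen, hsum⟩ := minSup (⊤ : Subring D)
    (fun x => ⟨1, Subring.mem_top _, one_ne_zero, Subring.mem_top _⟩) n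
    (fun i => c i • (1 : D)) d hc0 (by
      intro a _
      have h1 := LinearMap.congr_fun hc a
      rw [LinearMap.sum_apply, LinearMap.zero_apply] at h1
      rw [← h1]
      refine Finset.sum_congr rfl fun i _ => ?_
      rw [LinearMap.smul_apply, LinearMap.mulRight_apply, smul_one_mul, smul_mul_assoc])
  choose z hz using fun i => hZ (c' i) (hcen i)
  have h2 : ∑ i, z i • d i = 0 := by
    rw [← hsum]
    refine Finset.sum_congr rfl fun i _ => ?_
    rw [Algebra.smul_def, hz]
  have h3 := Fintype.linearIndependent_iff.1 hd z h2
  apply hc'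
  funext i
  rw [← hz i, h3 i, map_zero]
  rfl

theorem endBound {Z K D : Type*} [Field Z] [Field K] [DivisionRing D] [Algebra Z D]
    (hZ : ∀ c ∈ Subring.center D, c ∈ Set.range (algebraMap Z D))
    [Module K D] [IsScalarTower K D D] [Module.Finite K D] : Module.Finite Z D := by
  have hrank : Module.rank Z D ≤ (Module.finrank K (D →ₗ[K] D) : ℕ) := by
    apply rank_le
    intro s hs
    have h1 : LinearIndependent Z (fun i : Fin s.card => ((s.equivFin.symm i : s) : D)) :=
      hs.comp _ s.equivFin.symm.injective
    have h2 := endBound_ind (K := K) hZ s.card _ h1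
    have h3 := h2.fintype_card_le_finrank
    rwa [Fintype.card_fin] at h3
  rw [← Module.rank_lt_aleph0_iff]
  exact lt_of_le_of_lt hrank (Cardinal.natCast_lt_aleph0)

end Pool.Agent.Work.MP_16d7ed_al.GK
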