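import Pool.Agent.Work.MP_16d7ed_al.GK.Defs

/-!
# MODULE Gr (S-M): growth lemma

PROOF. The family `(j, i) ↦ b^N * (T^j • w i)`, `j ≤ N`, `i < l`, lies in `V^(c N + m)` by `h` and is linearly independent over `k`:
if `Σ α_ji b^N (T^j • w_i) = 0` then, as `b^N ≠ 0` and `D` has no zero divisors, `Σ_i (Σ_j α_ji T^j) • w_i = 0`, so
`Σ_j α_ji T^j = 0` for all `i` (independence over `K`), and `α = 0` as `T` is transcendental over `k`
(`transcendental_iff_injective`, or `linearIndependent_pow`). `V^n` is finite dimensional (`Submodule.FG.pow`), so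
`(N + 1) * l ≤ finrank` (`LinearIndependent.fintype_card_le_finrank` in the submodule).
-/

set_option autoImplicit false

open Polynomial Module

namespace Pool.Agent.Work.MP_16d7ed_al.GK

private theorem pow_indep {k K : Type*} [Field k] [Field K] [Algebra k K] (T : K) (hT : Transcendental k T)
    (n : ℕ) : LinearIndependent k (fun j : Fin n => T ^ (j : ℕ)) := by
  have h1 : LinearIndependent k (fun j : ℕ => T ^ j) := by
    have h2 := (Polynomial.basisMonomials k).linearIndependent
    have h3 : LinearMap.ker (aeval T : k[X] →ₐ[k] K).toLinearMap = ⊥ := by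
      rw [LinearMap.ker_eq_bot]
      exact transcendental_iff_injective.1 hT
    have h4 := h2.map' _ h3
    have h5 : (⇑(aeval T : k[X] →ₐ[k] K).toLinearMap ∘ ⇑(Polynomial.basisMonomials k)) =
        fun j : ℕ => T ^ j := by
      funext j
      simp [Polynomial.coe_basisMonomials]
    rw [h5] at h4
    exact h4
  exact h1.comp _ Fin.val_injective

theorem growth_indep {k K D : Type*} [Field k] [Field K] [Algebra k K] [Ring D] [NoZeroDivisors D] [Algebra k D]
    [Module K D] [IsScalarTower K D D] [IsScalarTower k K D]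
    (V : Submodule k D) (hV : V.FG) (T : K) (hT : Transcendental k T) (b : D) (hb : b ≠ 0) (c : ℕ)
    (h : ∀ N j m, j ≤ N → ∀ w ∈ V ^ m, b ^ N * (T ^ j • w) ∈ V ^ (c * N + m))
    (m l : ℕ) (w : Fin l → D) (hw : ∀ i, w i ∈ V ^ m) (hli : LinearIndependent K w) (N : ℕ) :
    (N + 1) * l ≤ finrank k (V ^ (c * N + m) : Submodule k D) := by
  classical
  have hpow := pow_indep T hT (N + 1)
  have h1 : LinearIndependent k (fun p : Fin (N + 1) × Fin l => b ^ N * (T ^ (p.1 : ℕ) • w p.2)) := by
    have h2 : LinearIndependent k (fun p : Fin (N + 1) × Fin l => T ^ (p.1 : ℕ) • w p.2) :=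
      linearIndependent_smul hpow hli
    have h3 : LinearMap.ker (LinearMap.mulLeft k (b ^ N)) = ⊥ := by
      rw [LinearMap.ker_eq_bot']
      intro d hd
      rw [LinearMap.mulLeft_apply] at hd
      exact (mul_eq_zero.1 hd).resolve_left (pow_ne_zero _ hb)
    exact h2.map' _ h3
  have : Module.Finite k (V ^ (c * N + m) : Submodule k D) := Module.Finite.of_fg (hV.pow _)
  let v : Fin (N + 1) × Fin l → (V ^ (c * N + m) : Submodule k D) := fun p =>
    ⟨b ^ N * (T ^ (p.1 : ℕ) • w p.2), h N p.1 m (by omega) _ (hw p.2)⟩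
  have h2 : LinearIndependent k v := LinearIndependent.of_comp (Submodule.subtype _) h1
  have h3 := h2.fintype_card_le_finrank
  simpa using h3

end Pool.Agent.Work.MP_16d7ed_al.GK
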