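import Pool.Agent.Work.MP_16d7ed_al.GK.Defs

/-!
# MODULE Kemb (S-M): the embedding of `k(y)` into a division ring

PROOF. Let `C = Subring.centralizer (Subring.centralizer {y})` (double centralizer). It is a commutative subring of `D` (any two elements of `C` commute: `C ⊆ centralizer {y}`
because `y` commutes with the elements of `centralizer {y}`... precisely `{y} ⊆ centralizer {y}` gives `centralizer (centralizer {y}) ⊆ centralizer {y}`, and an element of `C` commutes
with every element of `centralizer {y} ⊇ C`), it contains `y` and the image of `k`, and inverses of its nonzero elements. So it is a field, `k`-algebra. The map `aeval y : k[X] → C` is injective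
(`y` transcendental), so it extends to `RatFunc k → C` (`RatFunc.liftAlgHom`, `IsFractionRing.lift`, `IsLocalization.lift`), and compose with the inclusion.
(Or define the map by hand: `f/g ↦ f(y) g(y)⁻¹`.)
-/

set_option autoImplicit false

open Polynomial Module nonZeroDivisors

namespace Pool.Agent.Work.MP_16d7ed_al.GK

theorem kemb {k D : Type*} [Field k] [DivisionRing D] [Algebra k D] (y : D) (hy : Transcendental k y) :
    ∃ ι : RatFunc k →ₐ[k] D, ι RatFunc.X = y := by
  classical
  let E : Subalgebra k D := Subalgebra.centralizer k ((Subalgebra.centralizer k {y} : Subalgebra k D) : Set D)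
  have hyE : y ∈ E := by
    rw [Subalgebra.mem_centralizer_iff]
    intro g hg
    exact (Subalgebra.mem_centralizer_iff k |>.1 hg y rfl).symm
  have hEc : ∀ a ∈ E, a ∈ (Subalgebra.centralizer k {y} : Subalgebra k D) := by
    intro a ha
    rw [Subalgebra.mem_centralizer_iff]
    intro g hg
    have : g = y := hg
    subst this
    exact (Subalgebra.mem_centralizer_iff k).1 ha g ((Subalgebra.mem_centralizer_iff k).2
      fun z hz => by have : z = g := hz; rw [this])
  have hcomm : ∀ a b : E, a * b = b * a := by
    intro a b
    apply Subtype.ext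
    exact ((Subalgebra.mem_centralizer_iff k).1 b.2 a (hEc a a.2))
  have hinv : ∀ a ∈ E, a⁻¹ ∈ E := by
    intro a ha
    rw [Subalgebra.mem_centralizer_iff]
    intro g hg
    have h1 := (Subalgebra.mem_centralizer_iff k).1 ha g hg
    exact (Commute.inv_right₀ (show Commute g a from h1)).eq
  let CR : CommRing E := { (inferInstance : Ring E) with mul_comm := hcomm }
  let FE : Field E :=
    { CR with
      inv := fun a => ⟨(a : D)⁻¹, hinv a a.2⟩
      exists_pair_ne := ⟨0, 1, fun h => zero_ne_one (congrArg (Subtype.val) h)⟩
      mul_inv_cancel := fun a ha => Subtype.ext (mul_inv_cancel₀ fun h => ha (Subtype.ext h))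
      inv_zero := Subtype.ext inv_zero
      nnqsmul := _
      nnqsmul_def := fun _ _ => rfl
      qsmul := _
      qsmul_def := fun _ _ => rfl }
  let φ : k[X] →ₐ[k] E := aeval (⟨y, hyE⟩ : E)
  have hval : ∀ f : k[X], E.val (φ f) = aeval y f := by
    intro f
    exact (aeval_algHom_apply E.val (⟨y, hyE⟩ : E) f).symm
  have hφ : Function.Injective φ := by
    rw [injective_iff_map_eq_zero]
    intro f hf
    by_contra hne
    apply hy
    refine ⟨f, hne, ?_⟩
    rw [← hval, hf, map_zero]
  have hz : k[X]⁰ ≤ Submonoid.comap φ E⁰ :=
    nonZeroDivisors_le_comap_nonZeroDivisors_of_injective _ hφ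
  refine ⟨E.val.comp (RatFunc.liftAlgHom φ hz), ?_⟩
  have h1 : RatFunc.liftAlgHom φ hz RatFunc.X = φ X := by
    have := RatFunc.liftAlgHom_apply_div' (S := k) φ hz X 1
    simpa [RatFunc.algebraMap_X] using this
  rw [AlgHom.comp_apply, h1, hval, aeval_X]

end Pool.Agent.Work.MP_16d7ed_al.GK
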