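import Pool.Agent.Work.MP_16d7ed_al.GK.FinFrac
import Pool.Agent.Work.MP_16d7ed_al.GK.EndBound
import Pool.Agent.Work.MP_16d7ed_al.GK.Gr
import Pool.Agent.Work.MP_16d7ed_al.GK.Kemb

/-!
# MODULE CaseTr (M): linear growth and a transcendental element

PROOF. `kemb` (for `k := Z`) gives `ι : RatFunc Z →ₐ[Z] D`, `ι X = w`; `K = RatFunc Z`, `letI : Module K D := Module.compHom D (ι : RatFunc Z →+* D)`. Let `w ∈ W^c₀`, `c₀ ≥ 1`. Apply `growth_indep` (`k := Z`,
`T = RatFunc.X`, `b = 1`, `c = c₀`: `X^j • v = w^j * v ∈ W^(c₀ j + m) ⊆ W^(c₀ N + m)`): for `K`-independent `w_1, .., w_l ∈ W^m`: `(N + 1) l ≤ C (c₀ N + m + 1)` for all `N`, so `l ≤ C c₀` (if `l ≥ C c₀ + 1` then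
`N + 1 ≤ C (m + 1)` for all `N`, false). So `dim_K span_K (W^m) ≤ C c₀` for all `m`; these spans increase, so they are equal from some point on, and
`span_K S`, `S = Algebra.adjoin Z W = ⋃ W^m`, is finite dimensional. By `finFrac` it is `⊤`, so `Module.Finite K D`, and `endBound` gives the claim.
-/

set_option autoImplicit false

open Polynomial Module

namespace Pool.Agent.Work.MP_16d7ed_al.GK

private theorem mono_pow {Z D : Type*} [Field Z] [Ring D] [Algebra Z D] (V : Submodule Z D) (h1 : (1 : D) ∈ V)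
    {a b : ℕ} (hab : a ≤ b) : V ^ a ≤ V ^ b := by
  obtain ⟨c, rfl⟩ := Nat.exists_eq_add_of_le hab
  rw [pow_add]
  intro x hx
  have h2 : (1 : D) ∈ V ^ c := by
    have := Submodule.pow_mem_pow V h1 c
    rwa [one_pow] at this
  have := Submodule.mul_mem_mul hx h2
  rwa [mul_one] at this

private theorem mem_pow_of_adjoin {Z D : Type*} [Field Z] [Ring D] [Algebra Z D] (V : Submodule Z D)
    (h1 : (1 : D) ∈ V) (x : D) (hx : x ∈ Algebra.adjoin Z (V : Set D)) : ∃ n : ℕ, x ∈ V ^ n := by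
  induction hx using Algebra.adjoin_induction with
  | mem x hx => exact ⟨1, by rwa [pow_one]⟩
  | algebraMap r =>
    refine ⟨0, ?_⟩
    rw [pow_zero]
    exact Submodule.algebraMap_mem r
  | add x y _ _ hx hy =>
    obtain ⟨n, hn⟩ := hx
    obtain ⟨m, hm⟩ := hy
    exact ⟨max n m, Submodule.add_mem _ (mono_pow V h1 (le_max_left _ _) hn)
      (mono_pow V h1 (le_max_right _ _) hm)⟩
  | mul x y _ _ hx hy =>
    obtain ⟨n, hn⟩ := hx
    obtain ⟨m, hm⟩ := hy
    refine ⟨n + m, ?_⟩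
    rw [pow_add]
    exact Submodule.mul_mem_mul hn hm

private theorem pow_sub_adjoin {Z D : Type*} [Field Z] [Ring D] [Algebra Z D] (V : Submodule Z D) (n : ℕ) :
    V ^ n ≤ Subalgebra.toSubmodule (Algebra.adjoin Z (V : Set D)) := by
  induction n with
  | zero =>
    rw [pow_zero, Submodule.one_le]
    exact one_mem (Algebra.adjoin Z (V : Set D))
  | succ n ih =>
    rw [pow_succ, Submodule.mul_le]
    intro a ha b hb
    exact mul_mem (S := Subalgebra Z D) (ih ha) (Algebra.subset_adjoin hb)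

theorem caseTr {Z D : Type*} [Field Z] [DivisionRing D] [Algebra Z D]
    (hZ : ∀ c ∈ Subring.center D, c ∈ Set.range (algebraMap Z D)) (W : Submodule Z D) (hW : W.FG)
    (h1 : (1 : D) ∈ W) (C : ℕ) (hC : ∀ n : ℕ, finrank Z (W ^ n : Submodule Z D) ≤ C * (n + 1))
    (hfr : ∀ d : D, ∃ b : D, b ≠ 0 ∧ ∃ n : ℕ, b ∈ W ^ n ∧ b * d ∈ W ^ n)
    (w : D) (hw : Transcendental Z w) (hwW : ∃ n : ℕ, w ∈ W ^ n) : Module.Finite Z D := by
  classical
  obtain ⟨ι, hι⟩ := kemb w hw
  letI : Module (RatFunc Z) D := Module.compHom D (ι : RatFunc Z →+* D)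
  have hsmul : ∀ (a : RatFunc Z) (x : D), a • x = ι a * x := fun _ _ => rfl
  have hT1 : IsScalarTower (RatFunc Z) D D := ⟨fun a b c => by
    rw [hsmul, hsmul, smul_eq_mul, smul_eq_mul, mul_assoc]⟩
  have hT2 : IsScalarTower Z (RatFunc Z) D := ⟨fun a b c => by
    rw [hsmul, hsmul, map_smul, smul_mul_assoc]⟩
  obtain ⟨c₀', hc₀'⟩ := hwW
  set c₀ := c₀' + 1 with hc₀
  have hwc : w ∈ W ^ c₀ := mono_pow W h1 (Nat.le_succ _) hc₀'
  have hcond : ∀ N j m : ℕ, j ≤ N → ∀ v ∈ W ^ m,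
      (1 : D) ^ N * ((RatFunc.X : RatFunc Z) ^ j • v) ∈ W ^ (c₀ * N + m) := by
    intro N j m hj v hv
    rw [one_pow, one_mul, hsmul, map_pow, hι, pow_add]
    refine Submodule.mul_mem_mul ?_ hv
    have h2 := Submodule.pow_mem_pow (W ^ c₀) hwc j
    rw [← pow_mul] at h2
    exact mono_pow W h1 (Nat.mul_le_mul_left c₀ hj) h2
  have hbound : ∀ (m l : ℕ) (v : Fin l → D), (∀ i, v i ∈ W ^ m) → LinearIndependent (RatFunc Z) v →
      l ≤ C * c₀ := by
    intro m l v hv hli
    by_contra hcon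
    push Not at hcon
    have h2 := growth_indep W hW (RatFunc.X : RatFunc Z) RatFunc.transcendental_X (1 : D) one_ne_zero c₀ hcond
      m l v hv hli (C * (m + 1))
    have h3 := h2.trans (hC _)
    have h4 : (C * (m + 1) + 1) * (C * c₀ + 1) ≤ (C * (m + 1) + 1) * l := Nat.mul_le_mul_left _ hcon
    have h5 : C * (c₀ * (C * (m + 1)) + m + 1) = C * c₀ * (C * (m + 1)) + C * (m + 1) := by ring
    have h6 : (C * (m + 1) + 1) * (C * c₀ + 1) = C * c₀ * (C * (m + 1)) + C * (m + 1) + C * c₀ + 1 := by ring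
    omega
  set S : Subring D := (Algebra.adjoin Z (W : Set D)).toSubring with hS
  have hSmem : ∀ x, x ∈ S ↔ x ∈ Algebra.adjoin Z (W : Set D) := fun x => Iff.rfl
  have hfrS : ∀ d : D, ∃ b ∈ S, b ≠ 0 ∧ b * d ∈ S := by
    intro d
    obtain ⟨b, hb, n, hbn, hbd⟩ := hfr d
    exact ⟨b, pow_sub_adjoin W n hbn, hb, pow_sub_adjoin W n hbd⟩
  have hfin : FiniteDimensional (RatFunc Z) (Submodule.span (RatFunc Z) (S : Set D)) := by
    obtain ⟨b, hbS, hbspan, hbli⟩ := exists_linearIndependent (RatFunc Z) (S : Set D)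
    have hbfin : b.Finite := by
      by_contra hinf
      obtain ⟨t, htb, htc⟩ := Set.Infinite.exists_subset_card_eq hinf (C * c₀ + 1)
      -- a common power
      have hm : ∃ m : ℕ, ∀ x ∈ t, x ∈ W ^ m := by
        have : ∀ x : t, ∃ m : ℕ, (x : D) ∈ W ^ m := fun x =>
          mem_pow_of_adjoin W h1 _ ((hSmem _).1 (hbS (htb x.2)))
        choose f hf using this
        refine ⟨∑ x, f x, fun x hx => ?_⟩
        exact mono_pow W h1 (Finset.single_le_sum (f := f) (fun _ _ => Nat.zero_le _)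
          (Finset.mem_univ (⟨x, hx⟩ : t))) (hf ⟨x, hx⟩)
      obtain ⟨m, hm⟩ := hm
      let e := t.equivFin.symm
      have h2 := hbound m t.card (fun i => (e i : D)) (fun i => hm _ (e i).2) (by
        refine hbli.comp (fun i => (⟨(e i : D), htb (e i).2⟩ : b)) ?_
        intro i j hij
        have : (e i : D) = e j := congrArg (fun x : b => (x : D)) hij
        exact e.injective (Subtype.ext this))
      omega
    rw [← hbspan]
    exact FiniteDimensional.span_of_finite _ hbfin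
  have htop := finFrac (K := RatFunc Z) S hfrS hfin
  have hfinD : Module.Finite (RatFunc Z) D := by
    rw [htop] at hfin
    exact Module.Finite.of_surjective (Submodule.topEquiv : (⊤ : Submodule (RatFunc Z) D) ≃ₗ[RatFunc Z] D).toLinearMap
      (Submodule.topEquiv : (⊤ : Submodule (RatFunc Z) D) ≃ₗ[RatFunc Z] D).surjective
  exact endBound (K := RatFunc Z) hZ

end Pool.Agent.Work.MP_16d7ed_al.GK
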