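import Pool.Agent.Work.MP_16d7ed_al.GK.MinSup

/-!
# MODULE CenEl (S-M): a central transcendental element

PROOF. Write `H = Σ_{j ≤ n} C f_j X^j`, `n = natDegree H`: `Σ_j f_j(y) a y^j = 0` for all `a ∈ S` (`bi_apply`), and the `f_j(y)` are not all zero since `y` is transcendental. By `minSup` (`S.toSubring`,
`φ j = f_j(y)`, `e j = y^j`) there are central `c_j`, not all zero, with `Σ c_j y^j = 0`. So `y` is algebraic over the field `Z = Subring.center D` (a field,
`Subring.center.instField`; `D` is a `Z`-algebra; `k` maps to `Z`). If every element of `Z` were algebraic over `k`, `y` would be algebraic over `k` (transitivity of algebraicity,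
`Algebra.IsAlgebraic`/`IsIntegral` versions for a noncommutative top ring: if necessary work in the field `Z[y]`, i.e. the double centralizer of `y`, or: the `c_j` generate a
finite field extension `k' ⊆ Z` of `k`, `k'[y]` is finite dimensional over `k'`, hence over `k`).
-/

set_option autoImplicit false

open Polynomial Module

namespace Pool.Agent.Work.MP_16d7ed_al.GK

theorem cenEl {k D : Type*} [Field k] [DivisionRing D] [Algebra k D] (S : Subalgebra k D)
    (hfr : ∀ d : D, ∃ b ∈ S, b ≠ 0 ∧ b * d ∈ S) (y : D) (hy : Transcendental k y) (H : k[X][X]) (hH : H ≠ 0)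
    (h : ∀ a ∈ S, bi k y H a = 0) : ∃ z ∈ Subring.center D, Transcendental k z := by
  classical
  obtain ⟨c, hc0, hcc, hcs⟩ := minSup S.toSubring hfr (H.natDegree + 1)
    (fun j => aeval y (H.coeff j)) (fun j => y ^ (j : ℕ))
    (by
      intro h0
      obtain ⟨j, hj⟩ : ∃ j, H.coeff j ≠ 0 := by
        by_contra hcon
        push Not at hcon
        exact hH (Polynomial.ext fun n => by rw [hcon n, coeff_zero])
      have hjn : j < H.natDegree + 1 := Nat.lt_succ_of_le (le_natDegree_of_ne_zero hj)
      have h1 := congrFun h0 ⟨j, hjn⟩
      exact hj ((transcendental_iff.1 hy) _ h1))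
    (by
      intro a ha
      have h1 := h a ha
      rw [bi_apply, Polynomial.sum_over_range _ (fun n => by simp), Finset.sum_range] at h1
      exact h1)
  by_contra hcon
  push Not at hcon
  let Z : Subring D := Subring.center D
  letI : Algebra k Z := RingHom.toAlgebra ((algebraMap k D).codRestrict Z (fun x => by
    rw [Subring.mem_center_iff]
    intro g
    exact (Algebra.commutes x g).symm))
  haveI : IsScalarTower k Z D := IsScalarTower.of_algebraMap_eq (fun x => rfl)
  haveI : Algebra.IsIntegral k Z := ⟨fun z => by
    have h1 : IsAlgebraic k (z : D) := by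
      have := hcon z z.2
      rw [Transcendental, not_not] at this
      exact this
    have h2 : IsIntegral k (algebraMap Z D z) := isAlgebraic_iff_isIntegral.1 h1
    exact (isIntegral_algebraMap_iff (A := Z) (B := D) Subtype.val_injective).1 h2⟩
  have hyZ : IsAlgebraic Z y := by
    refine ⟨∑ j : Fin (H.natDegree + 1), monomial (j : ℕ) (⟨c j, hcc j⟩ : Z), ?_, ?_⟩
    · intro h0
      apply hc0
      funext j
      have h1 := congrArg (fun P => coeff P (j : ℕ)) h0
      simp only [finsetSum_coeff, coeff_monomial, coeff_zero, Fin.val_inj,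
        Finset.sum_ite_eq', Finset.mem_univ, if_true] at h1
      exact congrArg Subtype.val h1
    · rw [map_sum, ← hcs]
      refine Finset.sum_congr rfl fun j _ => ?_
      rw [aeval_monomial]
      rfl
  have h3 : IsIntegral Z y := isAlgebraic_iff_isIntegral.1 hyZ
  exact hy (isAlgebraic_iff_isIntegral.2 (isIntegral_trans y h3))

end Pool.Agent.Work.MP_16d7ed_al.GK
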