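import Pool.Agent.Work.MP_16d7ed_al.GK.Defs

/-!
# MODULE CenField (S): the centre as a field over `k`

PROOF. `Z = Subring.center D` (a field), `algebraMap k Z a = ⟨algebraMap k D a, _⟩`, `Algebra Z D` is the Mathlib instance, `z' = ⟨z, hz⟩` (transcendental since `Z → D` is injective).
-/

set_option autoImplicit false

open Polynomial Module

namespace Pool.Agent.Work.MP_16d7ed_al.GK

universe u

theorem cenField {k D : Type u} [Field k] [DivisionRing D] [Algebra k D] (z : D) (hz : z ∈ Subring.center D)
    (hzt : Transcendental k z) :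
    ∃ (Z : Type u) (_ : Field Z) (_ : Algebra k Z) (_ : Algebra Z D) (_ : IsScalarTower k Z D),
      (∀ c ∈ Subring.center D, c ∈ Set.range (algebraMap Z D)) ∧ ∃ z' : Z, Transcendental k z' := by
  let A : Algebra k (Subring.center D) :=
    ((algebraMap k D).codRestrict (Subring.center D) fun c =>
      Subring.mem_center_iff.2 fun g => (Algebra.commutes c g).symm).toAlgebra
  have T : IsScalarTower k (Subring.center D) D := IsScalarTower.of_algebraMap_eq fun c => rfl
  refine ⟨Subring.center D, inferInstance, A, inferInstance, T, fun c hc => ⟨⟨c, hc⟩, rfl⟩,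
    ⟨z, hz⟩, fun h => hzt ?_⟩
  exact h.algebraMap (A := D)

end Pool.Agent.Work.MP_16d7ed_al.GK
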