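import Pool.Agent.Work.MP_16d7ed_al.GK.GapCore

/-!
# MODULE CentLin (M-L): linear growth over the centre

PROOF. `Z` acts centrally on `D`; `W = span_Z V`.
(1) For `b ≠ 0`, `b, z b ∈ V^(n₀)` (`hfr` for `d = z • 1`): `b^N * (z^j • w) = (z b)^j b^(N-j) w ∈ V^(n₀ N + m)` for `j ≤ N`, `w ∈ V^m` (`z` is central). So `growth_indep` (`K = Z`, `T = z`, `c = n₀`) gives
`(N + 1) l ≤ finrank_k V^(n₀ N + m)` for `Z`-independent `w_1, .., w_l ∈ V^m`.
(2) Let `s : Fin r → D` span `V` over `k`. As `1 ∈ V`, `W^n = span_Z {word u : |u| ≤ n}` and `word u ∈ V^|u| ⊆ V^n`. The hypothesis of `nrm_factor` holds (`s a * (c • 1) = c • s a`). Let `p m` be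
the number of normal words of length `m` (`Nrm Z s`). If `p m ≥ m + 1` for all `m ≥ 1` there are `l ≥ n^2/2` normal words of length `≤ n`, `Z`-independent, in `V^n`, so with `N = n`:
`n^3 ≤ 2 finrank V^((n₀+1) n)`, contradiction to `hg` as in `gapT`. So `p d ≤ d` for some `d ≥ 1` and by `combA`, `combB` `p m ≤ C₀` for all `m`;
`finrank_Z W^n` = number of normal words of length `≤ n` `≤ C₀ (n+1)` (`nrm_span`, at most the number of spanning vectors).
(3) Suppose every `w ∈ adjoin k V` is algebraic over `Z`. If there were arbitrarily long normal words, `combB` would give a word `v ≠ []` all whose powers are normal. `x = word v` is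
algebraic over the field `Z`: for some `n ≥ 1` `x^n ∈ span_Z {x^i : i < n}`, and `x^i = word (v^i)` with `v^i` shorter than `v^n`: `v^n` is not normal, contradiction. So normal words have bounded length,
there are finitely many, and `finrank_Z W^n` is bounded.
-/

set_option autoImplicit false

open Polynomial Module

namespace Pool.Agent.Work.MP_16d7ed_al.GK

section aux

variable {Z D : Type*} [Field Z] [DivisionRing D] [Algebra Z D]

private theorem word_flatten {r : ℕ} (s : Fin r → D) (v : List (Fin r)) (n : ℕ) :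
    word s (List.replicate n v).flatten = word s v ^ n := by
  induction n with
  | zero => simp [word]
  | succ n ih =>
    rw [List.replicate_succ, List.flatten_cons, pow_succ', ← ih]
    simp [word]

private theorem span_pow_le {r : ℕ} (s : Fin r → D) (n : ℕ) :
    Submodule.span Z (Set.range s) ^ n ≤ Submodule.span Z (word s '' {u | u.length ≤ n}) := by
  have key : ∀ n : ℕ, Submodule.span Z (Set.range s) ^ n ≤ Submodule.span Z (word s '' {u | u.length = n}) := by
    intro n
    induction n with
    | zero =>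
      rw [pow_zero, Submodule.one_le]
      exact Submodule.subset_span ⟨[], rfl, by simp [word]⟩
    | succ n ih =>
      rw [pow_succ']
      refine (mul_le_mul_right ih _).trans ?_
      rw [Submodule.span_mul_span]
      apply Submodule.span_mono
      rintro _ ⟨_, ⟨a, rfl⟩, _, ⟨u, hu, rfl⟩, rfl⟩
      refine ⟨a :: u, ?_, by simp [word]⟩
      show (a :: u).length = n + 1
      rw [List.length_cons, show u.length = n from hu]
  exact (key n).trans (Submodule.span_mono (Set.image_mono fun u hu => le_of_eq hu))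

private theorem pow_mem_span_lt (x : D) (hx : IsAlgebraic Z x) :
    ∃ n : ℕ, x ^ n ∈ Submodule.span Z ((fun i : ℕ => x ^ i) '' {i | i < n}) := by
  obtain ⟨p, hp, hpx⟩ := hx
  refine ⟨p.natDegree, ?_⟩
  have h1 : aeval x p = ∑ i ∈ Finset.range p.natDegree, p.coeff i • x ^ i + p.leadingCoeff • x ^ p.natDegree := by
    rw [Polynomial.aeval_eq_sum_range, Finset.sum_range_succ, Polynomial.leadingCoeff]
  rw [hpx] at h1
  have hl : p.leadingCoeff ≠ 0 := Polynomial.leadingCoeff_ne_zero.2 hp
  have h2 : x ^ p.natDegree = p.leadingCoeff⁻¹ • (-∑ i ∈ Finset.range p.natDegree, p.coeff i • x ^ i) := by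
    have h3 : p.leadingCoeff • x ^ p.natDegree = -∑ i ∈ Finset.range p.natDegree, p.coeff i • x ^ i := by
      rw [eq_neg_iff_add_eq_zero, add_comm]
      exact h1.symm
    rw [← h3, smul_smul, inv_mul_cancel₀ hl, one_smul]
  rw [h2]
  apply Submodule.smul_mem
  apply Submodule.neg_mem
  apply Submodule.sum_mem
  intro i hi
  apply Submodule.smul_mem
  exact Submodule.subset_span ⟨i, Finset.mem_range.1 hi, rfl⟩

end aux

theorem centLin {k Z D : Type*} [Field k] [Field Z] [Algebra k Z] [DivisionRing D] [Algebra k D] [Algebra Z D]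
    [IsScalarTower k Z D] (z : Z) (hz : Transcendental k z) (V : Submodule k D) (hV : V.FG) (h1 : (1 : D) ∈ V)
    (hfr : ∀ d : D, ∃ b : D, b ≠ 0 ∧ ∃ n : ℕ, b ∈ V ^ n ∧ b * d ∈ V ^ n) (hg : SubCubic k V) :
    ∃ C : ℕ, (∀ n : ℕ, finrank Z (Submodule.span Z (V : Set D) ^ n : Submodule Z D) ≤ C * (n + 1)) ∧
      ((∀ w ∈ Algebra.adjoin k (V : Set D), IsAlgebraic Z w) →
        ∃ C' : ℕ, ∀ n : ℕ, finrank Z (Submodule.span Z (V : Set D) ^ n : Submodule Z D) ≤ C') := by
  classical
  obtain ⟨b, hb, n₀, hbV, hbz⟩ := hfr (algebraMap Z D z)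
  have hzb : z • b ∈ V ^ n₀ := by
    rw [Algebra.smul_def, Algebra.commutes]
    exact hbz
  have hcond : ∀ N j m : ℕ, j ≤ N → ∀ w ∈ V ^ m, b ^ N * (z ^ j • w) ∈ V ^ (n₀ * N + m) := by
    intro N j m hj w hw
    obtain ⟨i, rfl⟩ := Nat.exists_eq_add_of_le hj
    have e1 : b ^ (j + i) * (z ^ j • w) = (z • b) ^ j * (b ^ i * w) := by
      rw [mul_smul_comm, pow_add, _root_.smul_pow, smul_mul_assoc, mul_assoc]
    rw [e1, show n₀ * (j + i) + m = n₀ * j + (n₀ * i + m) by ring, pow_add, pow_add, pow_mul, pow_mul]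
    exact Submodule.mul_mem_mul (Submodule.pow_mem_pow _ hzb j)
      (Submodule.mul_mem_mul (Submodule.pow_mem_pow _ hbV i) hw)
  obtain ⟨r, s, hs⟩ := Submodule.fg_iff_exists_fin_generating_family.1 hV
  have hsV : ∀ a, s a ∈ V ^ 1 := by
    intro a
    rw [pow_one, ← hs]
    exact Submodule.subset_span ⟨a, rfl⟩
  have hs1 : ∀ a (e : Z), s a * (e • (1 : D)) ∈ Submodule.span Z (Set.range s) := by
    intro a e
    rw [mul_smul_comm, mul_one]
    exact Submodule.smul_mem _ _ (Submodule.subset_span ⟨a, rfl⟩)
  obtain ⟨⟨C, hC⟩, hlong⟩ := gapCore V hV h1 hg z hz b hb n₀ hcond s 1 le_rfl hsV hs1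
  have hW : Submodule.span Z (V : Set D) = Submodule.span Z (Set.range s) := by
    apply le_antisymm
    · rw [Submodule.span_le]
      intro x hx
      have hx' : x ∈ Submodule.span k (Set.range s) := by
        rw [hs]
        exact hx
      exact Submodule.span_le_restrictScalars k Z (Set.range s) hx'
    · apply Submodule.span_mono
      rintro _ ⟨a, rfl⟩
      show s a ∈ V
      have := hsV a
      rwa [pow_one] at this
  have hle : ∀ n, finrank Z (Submodule.span Z (V : Set D) ^ n : Submodule Z D) ≤
      {u | u ∈ Nrm Z s ∧ u.length ≤ n}.ncard := by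
    intro n
    have hfin := nrm_fin (K := Z) s n
    have hfin2 := hfin.image (word s)
    have e1 : Submodule.span Z (V : Set D) ^ n ≤
        Submodule.span Z (word s '' {u | u ∈ Nrm Z s ∧ u.length ≤ n}) := by
      rw [hW, ← nrm_span]
      exact span_pow_le s n
    have e2 : Module.Finite Z (Submodule.span Z (word s '' {u | u ∈ Nrm Z s ∧ u.length ≤ n})) :=
      Module.Finite.span_of_finite _ hfin2
    refine (Submodule.finrank_mono e1).trans ?_
    have e3 := finrank_span_finset_le_card (R := Z) hfin2.toFinset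
    rw [Set.Finite.coe_toFinset] at e3
    refine e3.trans ?_
    rw [← Set.ncard_eq_toFinset_card _ hfin2]
    exact Set.ncard_image_le hfin
  refine ⟨C, fun n => (hle n).trans (count_le _ C hC n), fun halg => ?_⟩
  have hbdd : ¬ ∀ m, ∃ u ∈ Nrm Z s, m ≤ u.length := by
    intro hcon
    obtain ⟨v, hv, hvN⟩ := hlong hcon
    have hmem : word s v ∈ Algebra.adjoin k (V : Set D) := by
      have : ∀ u : List (Fin r), word s u ∈ Algebra.adjoin k (V : Set D) := by
        intro u
        induction u with
        | nil =>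
          have : word s ([] : List (Fin r)) = 1 := by simp [word]
          rw [this]
          exact one_mem _
        | cons a u ih =>
          have h2 : word s (a :: u) = s a * word s u := by simp [word]
          rw [h2]
          refine mul_mem (Algebra.subset_adjoin ?_) ih
          have := hsV a
          rwa [pow_one] at this
      exact this v
    obtain ⟨n, hn⟩ := pow_mem_span_lt (word s v) (halg _ hmem)
    apply hvN n
    rw [word_flatten]
    refine Submodule.span_mono ?_ hn
    rintro _ ⟨i, hi, rfl⟩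
    refine ⟨(List.replicate i v).flatten, ?_, word_flatten s v i⟩
    left
    have hvl : 0 < v.length := List.length_pos_iff.2 hv
    have hlen : ∀ j : ℕ, (List.replicate j v).flatten.length = j * v.length := by
      intro j
      simp
    rw [hlen, hlen]
    exact Nat.mul_lt_mul_of_pos_right hi hvl
  push Not at hbdd
  obtain ⟨m₀, hm₀⟩ := hbdd
  refine ⟨{u | u ∈ Nrm Z s ∧ u.length ≤ m₀}.ncard, fun n => (hle n).trans ?_⟩
  apply Set.ncard_le_ncard _ (nrm_fin (K := Z) s m₀)
  rintro u ⟨hu, _⟩
  exact ⟨hu, (hm₀ u hu).le⟩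

end Pool.Agent.Work.MP_16d7ed_al.GK
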