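import Pool.Agent.Work.MP_16d7ed_al.GK.Defs

/-!
# MODULE CombA (M-L): words in a factor closed language of small complexity are eventually periodic

Pure combinatorics. `N` is a factor closed set of words over `Fin r`, `d ≥ 1` and there are at most `d` words of length `d`
in `N`. Every `w ∈ N` with `3 d ≤ |w| = m` is periodic from some position `i` on, up to the last `2 d` letters, with a period
`p ≥ 1`, `i + p ≤ d`.

PROOF. For `n ≤ d` let `Q n` be the set of factors `w[a .. a+n)` with `0 ≤ a ≤ m - 2d` (they exist: `a + n ≤ m`). Then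
`|Q 0| = 1`, `|Q n| ≤ |Q (n+1)|` (taking the prefix of length `n` is a surjection `Q (n+1) → Q n`), and `|Q d| ≤ d` by the
hypothesis (`N` is factor closed). Hence there is `n < d` with `|Q n| = |Q (n+1)|` (otherwise `|Q d| ≥ d + 1`), and then the
prefix map `Q (n+1) → Q n` is injective: if `a, a' ≤ m - 2d` and the `n`-factors at `a` and `a'` are equal, so are the
`(n+1)`-factors at `a` and `a'`, hence (drop the first letter) so are the `n`-factors at `a+1`, `a'+1`, and the letters at `a`
and `a'` are equal. Among the `d + 1` positions `a = 0, .., d` (all `≤ m - 2d`) two have the same `n`-factor, as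
`|Q n| ≤ |Q d| ≤ d`: say `i < j ≤ d`. Put `p = j - i`. By induction on `s`: as long as `j + s ≤ m - 2d` the `n`-factors at
`i + s` and `j + s` are equal and the letters at `i + s`, `j + s` are equal. This is the claim with `t = i + s`.
(It may be convenient to work with the function `fun a => (w.drop a).take n`.)
-/

set_option autoImplicit false

open Polynomial Module

namespace Pool.Agent.Work.MP_16d7ed_al.GK

private def fac {r : ℕ} (w : List (Fin r)) (a n : ℕ) : List (Fin r) := (w.drop a).take n

private theorem fac_succ {r : ℕ} (w : List (Fin r)) (a n : ℕ) (h : a < w.length) :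
    fac w a (n + 1) = w[a] :: fac w (a + 1) n := by
  unfold fac
  rw [List.drop_eq_getElem_cons h, List.take_succ_cons]

private theorem take_fac {r : ℕ} (w : List (Fin r)) (a n : ℕ) :
    (fac w a (n + 1)).take n = fac w a n := by
  unfold fac
  rw [List.take_take]
  congr 1
  omega

theorem combA {r : ℕ} (N : Set (List (Fin r))) (hN : ∀ u v w, u ++ v ++ w ∈ N → v ∈ N) (d : ℕ) (hd : 1 ≤ d)
    (h : {u | u ∈ N ∧ u.length = d}.ncard ≤ d) (w : List (Fin r)) (hw : w ∈ N) (hl : 3 * d ≤ w.length) :
    ∃ i p : ℕ, 1 ≤ p ∧ i + p ≤ d ∧ ∀ t, i ≤ t → t + p + 2 * d ≤ w.length → w[t]? = w[t + p]? := by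
  classical
  set m := w.length with hm
  let Q : ℕ → Finset (List (Fin r)) := fun n => (Finset.range (m - 2 * d + 1)).image fun a => fac w a n
  have hQmem : ∀ n a, a ≤ m - 2 * d → fac w a n ∈ Q n := fun n a ha =>
    Finset.mem_image.2 ⟨a, Finset.mem_range.2 (by omega), rfl⟩
  have hQ0 : 1 ≤ (Q 0).card := Finset.card_pos.2 ⟨_, hQmem 0 0 (Nat.zero_le _)⟩
  have hQd : (Q d).card ≤ d := by
    refine le_trans ?_ h
    have hfin : {u : List (Fin r) | u ∈ N ∧ u.length = d}.Finite :=
      (List.finite_length_eq (Fin r) d).subset fun u hu => hu.2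
    rw [← Set.ncard_coe_finset]
    refine Set.ncard_le_ncard ?_ hfin
    intro u hu
    obtain ⟨a, ha, rfl⟩ := Finset.mem_image.1 (Finset.mem_coe.1 hu)
    have ha' : a ≤ m - 2 * d := by
      have := Finset.mem_range.1 ha
      omega
    refine ⟨hN (w.take a) _ ((w.drop a).drop d) ?_, ?_⟩
    · unfold fac
      rw [List.append_assoc, List.take_append_drop, List.take_append_drop]
      exact hw
    · unfold fac
      rw [List.length_take, List.length_drop]
      omega
  -- an index with no growth
  obtain ⟨n, hnd, hn⟩ : ∃ n, n < d ∧ (Q (n + 1)).card ≤ (Q n).card := by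
    by_contra hcon
    push Not at hcon
    have key : ∀ n, n ≤ d → n + 1 ≤ (Q n).card := by
      intro n
      induction n with
      | zero => intro _; simpa using hQ0
      | succ n ih =>
        intro hn
        have h1 := ih (by omega)
        have h2 := hcon n (by omega)
        omega
    have := key d le_rfl
    omega
  have hsurj : Set.SurjOn (List.take n) (Q (n + 1) : Set (List (Fin r))) (Q n) := by
    intro u hu
    obtain ⟨a, ha, rfl⟩ := Finset.mem_image.1 (Finset.mem_coe.1 hu)
    have ha' : a ≤ m - 2 * d := by
      have := Finset.mem_range.1 ha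
      omega
    exact ⟨fac w a (n + 1), hQmem _ _ ha', take_fac w a n⟩
  have hmaps : Set.MapsTo (List.take n) (Q (n + 1) : Set (List (Fin r))) (Q n) := by
    intro u hu
    obtain ⟨a, ha, rfl⟩ := Finset.mem_image.1 (Finset.mem_coe.1 hu)
    have ha' : a ≤ m - 2 * d := by
      have := Finset.mem_range.1 ha
      omega
    show List.take n (fac w a (n + 1)) ∈ (Q n : Set (List (Fin r)))
    rw [take_fac]
    exact hQmem _ _ ha'
  have hinj : Set.InjOn (List.take n) (Q (n + 1) : Set (List (Fin r))) :=
    Finset.injOn_of_surjOn_of_card_le _ hmaps hsurj hn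
  have hext : ∀ a a', a ≤ m - 2 * d → a' ≤ m - 2 * d → fac w a n = fac w a' n →
      fac w a (n + 1) = fac w a' (n + 1) := by
    intro a a' ha ha' he
    apply hinj (hQmem _ _ ha) (hQmem _ _ ha')
    rw [take_fac, take_fac, he]
  have hstep : ∀ a a', a ≤ m - 2 * d → a' ≤ m - 2 * d → fac w a n = fac w a' n →
      w[a]? = w[a']? ∧ fac w (a + 1) n = fac w (a' + 1) n := by
    intro a a' ha ha' he
    have h1 := hext a a' ha ha' he
    have hla : a < w.length := by omega
    have hla' : a' < w.length := by omega
    rw [fac_succ w a n hla, fac_succ w a' n hla'] at h1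
    obtain ⟨h2, h3⟩ := List.cons_eq_cons.1 h1
    refine ⟨?_, h3⟩
    rw [List.getElem?_eq_getElem hla, List.getElem?_eq_getElem hla', h2]
  -- pigeonhole
  have hQmono : (Q n).card ≤ d := by
    have hmono : ∀ j, (Q j).card ≤ (Q (j + 1)).card := by
      intro j
      have : Q j ⊆ (Q (j + 1)).image (List.take j) := by
        intro u hu
        obtain ⟨a, ha, rfl⟩ := Finset.mem_image.1 hu
        have ha' : a ≤ m - 2 * d := by
          have := Finset.mem_range.1 ha
          omega
        exact Finset.mem_image.2 ⟨fac w a (j + 1), hQmem _ _ ha', take_fac w a j⟩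
      exact (Finset.card_le_card this).trans Finset.card_image_le
    have hm2 : Monotone fun j => (Q j).card := monotone_nat_of_le_succ hmono
    exact (hm2 hnd.le).trans hQd
  obtain ⟨i, hi, j, hj, hij, he⟩ : ∃ i ∈ Finset.range (d + 1), ∃ j ∈ Finset.range (d + 1), i ≠ j ∧
      fac w i n = fac w j n := by
    apply Finset.exists_ne_map_eq_of_card_lt_of_maps_to (t := Q n)
    · rw [Finset.card_range]
      omega
    · intro a ha
      have := Finset.mem_range.1 (Finset.mem_coe.1 ha)
      exact hQmem _ _ (by omega)
  have key : ∀ i j, i < j → j ≤ d → fac w i n = fac w j n →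
      ∃ i p : ℕ, 1 ≤ p ∧ i + p ≤ d ∧ ∀ t, i ≤ t → t + p + 2 * d ≤ m → w[t]? = w[t + p]? := by
    intro i j hij hj he
    have hs : ∀ s, j + s ≤ m - 2 * d → fac w (i + s) n = fac w (j + s) n := by
      intro s
      induction s with
      | zero => intro _; simpa using he
      | succ s ih =>
        intro hjs
        have h1 := ih (by omega)
        exact (hstep (i + s) (j + s) (by omega) (by omega) h1).2
    refine ⟨i, j - i, by omega, by omega, ?_⟩
    intro t hit ht
    have h1 := hs (t - i) (by omega)
    have h2 := (hstep (i + (t - i)) (j + (t - i)) (by omega) (by omega) h1).1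
    rw [show i + (t - i) = t by omega, show j + (t - i) = t + (j - i) by omega] at h2
    exact h2
  have hi' := Finset.mem_range.1 hi
  have hj' := Finset.mem_range.1 hj
  rcases lt_or_gt_of_ne hij with hlt | hlt
  · exact key i j hlt (by omega) he
  · exact key j i hlt (by omega) he.symm

end Pool.Agent.Work.MP_16d7ed_al.GK
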