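import Pool.Agent.Work.MP_16d7ed_al.GK.Defs

/-!
# MODULE CombB (M): periodic words: bounded complexity, and powers

PROOF. (1) A word `w ∈ N` of length `m ≥ 3 d` is determined by `i, p`, its first `d` letters and its last `2 d` letters: for
`d ≤ t`, `t + 2d ≤ m`, `w t = w (t - p)` with `t - p ≥ d - p ≥ i` (induction on `t`). So for fixed `i, p ≤ d` the map
`w ↦ (w.take d, w.drop (m - 2d))` is injective on the words of length `m` with parameters `i, p`; its values are pairs of lists of
lengths `d`, `2d`. Hence the number of words of length `m` in `N` is at most `(d+1)^2 * (r+1)^(3d)`; for `m < 3d` it is at most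
`r^m ≤ (r+1)^(3d)`. (`List.Vector`, `Fin m → Fin r` or `List.ofFn` can be used for counting; only existence of `C` matters: e.g.
show that the set is contained in the image of one fixed finite type `Fin (d+1) × Fin (d+1) × (Fin d → Fin r) × (Fin (2d) → Fin r)`
under a reconstruction map which depends on `m`.)
(2) For every `n` choose `w ∈ N` with `|w| ≥ (n + 3) d` (if `d = 0` there is no `p` with `1 ≤ p ≤ d`, so `N` would be empty:
contradiction). With `i, p` as in `hper` and `v = w[i .. i+p)` (length `p`, `1 ≤ p ≤ d`) the factor `w[i .. i + n p)` of `w` is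
`v^n = (replicate n v).flatten`. There are finitely many words `v` of length at most `d`, so one `v ≠ []` works for infinitely many
`n` (e.g. `Set.Finite`/`Finite.exists_infinite_fiber` pigeonhole), and then for all `n`, since `v^n` is a factor of `v^n'` for
`n ≤ n'`.
-/

set_option autoImplicit false

open Polynomial Module

namespace Pool.Agent.Work.MP_16d7ed_al.GK

private theorem ncard_bound {r : ℕ} (N : Set (List (Fin r))) (d : ℕ)
    (hper : ∀ w ∈ N, 3 * d ≤ w.length →
      ∃ i p : ℕ, 1 ≤ p ∧ i + p ≤ d ∧ ∀ t, i ≤ t → t + p + 2 * d ≤ w.length → w[t]? = w[t + p]?) :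
    ∃ C : ℕ, ∀ m, {u | u ∈ N ∧ u.length = m}.ncard ≤ C := by
  classical
  have hex : ∀ w : List (Fin r), ∃ i p : ℕ, w ∈ N → 3 * d ≤ w.length → 1 ≤ p ∧ i + p ≤ d ∧
      ∀ t, i ≤ t → t + p + 2 * d ≤ w.length → w[t]? = w[t + p]? := by
    intro w
    by_cases hw : w ∈ N ∧ 3 * d ≤ w.length
    · obtain ⟨i, p, h⟩ := hper w hw.1 hw.2
      exact ⟨i, p, fun _ _ => h⟩
    · exact ⟨0, 0, fun h1 h2 => absurd ⟨h1, h2⟩ hw⟩
  choose fi fp hfp using hex
  let A : Set (List (Fin r)) := {l | l.length < 3 * d}
  have hA : A.Finite := List.finite_length_lt (Fin r) (3 * d)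
  let B : Set ((ℕ × ℕ) × List (Fin r)) := ((Set.Iic d) ×ˢ (Set.Iic d)) ×ˢ {l | l.length = 3 * d}
  have hB : B.Finite := ((Set.finite_Iic d).prod (Set.finite_Iic d)).prod (List.finite_length_eq (Fin r) (3 * d))
  refine ⟨A.ncard + B.ncard, fun m => ?_⟩
  by_cases hm : m < 3 * d
  · refine le_trans (Set.ncard_le_ncard (t := A) ?_ hA) (Nat.le_add_right _ _)
    intro u hu
    show u.length < 3 * d
    rw [hu.2]
    exact hm
  · push Not at hm
    refine le_trans ?_ (Nat.le_add_left _ _)
    refine Set.ncard_le_ncard_of_injOn
      (fun u => ((fi u, fp u), u.take d ++ u.drop (m - 2 * d))) ?_ ?_ hB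
    · intro u hu
      obtain ⟨huN, hul⟩ := hu
      obtain ⟨h1, h2, -⟩ := hfp u huN (by omega)
      refine ⟨⟨?_, ?_⟩, ?_⟩
      · show fi u ≤ d
        omega
      · show fp u ≤ d
        omega
      · show (u.take d ++ u.drop (m - 2 * d)).length = 3 * d
        rw [List.length_append, List.length_take, List.length_drop]
        omega
    · intro u hu u' hu' he
      obtain ⟨huN, hul⟩ := hu
      obtain ⟨huN', hul'⟩ := hu'
      obtain ⟨h1, h2, h3⟩ := hfp u huN (by omega)
      obtain ⟨h1', h2', h3'⟩ := hfp u' huN' (by omega)
      simp only [Prod.mk.injEq] at he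
      obtain ⟨⟨he1, he2⟩, he3⟩ := he
      have hlen : (u.take d).length = (u'.take d).length := by
        rw [List.length_take, List.length_take]
        omega
      obtain ⟨he4, he5⟩ := List.append_inj he3 hlen
      apply List.ext_getElem?
      intro t
      induction t using Nat.strong_induction_on with
      | _ t ih =>
        by_cases ht : t < d
        · have := congrArg (fun l => l[t]?) he4
          simpa [List.getElem?_take, ht] using this
        · by_cases ht2 : m - 2 * d ≤ t
          · have := congrArg (fun l => l[t - (m - 2 * d)]?) he5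
            simp only [List.getElem?_drop] at this
            rw [show m - 2 * d + (t - (m - 2 * d)) = t by omega] at this
            exact this
          · have e1 := h3 (t - fp u) (by omega) (by omega)
            have e2 := h3' (t - fp u') (by omega) (by omega)
            rw [show t - fp u + fp u = t by omega] at e1
            rw [show t - fp u' + fp u' = t by omega] at e2
            rw [← e1, ← e2, ← he2]
            exact ih _ (by omega)

private theorem flatten_replicate_le {r : ℕ} (v : List (Fin r)) (n n' : ℕ) (h : n ≤ n') :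
    (List.replicate n' v).flatten = (List.replicate n v).flatten ++ (List.replicate (n' - n) v).flatten := by
  rw [← List.flatten_append, ← List.replicate_add]
  congr 2
  omega

theorem combB {r : ℕ} (N : Set (List (Fin r))) (hN : ∀ u v w, u ++ v ++ w ∈ N → v ∈ N) (d : ℕ)
    (hper : ∀ w ∈ N, 3 * d ≤ w.length →
      ∃ i p : ℕ, 1 ≤ p ∧ i + p ≤ d ∧ ∀ t, i ≤ t → t + p + 2 * d ≤ w.length → w[t]? = w[t + p]?) :
    (∃ C : ℕ, ∀ m, {u | u ∈ N ∧ u.length = m}.ncard ≤ C) ∧
    ((∀ m, ∃ u ∈ N, m ≤ u.length) →
      ∃ v : List (Fin r), v ≠ [] ∧ ∀ n, (List.replicate n v).flatten ∈ N) := by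
  refine ⟨ncard_bound N d hper, fun hlong => ?_⟩
  have hex : ∀ n : ℕ, ∃ v : {l : List (Fin r) // l.length < d + 1}, v.1 ≠ [] ∧
      (List.replicate n v.1).flatten ∈ N := by
    intro n
    obtain ⟨w, hw, hwl⟩ := hlong ((n + 3) * d)
    obtain ⟨i, p, hp, hip, hq⟩ := hper w hw (le_trans (Nat.mul_le_mul_right d (by omega)) hwl)
    have per : ∀ q s, i ≤ s → s + q * p + 2 * d ≤ w.length → w[s]? = w[s + q * p]? := by
      intro q
      induction q with
      | zero => intro s _ _; simp
      | succ q ih =>
        intro s hs hsl
        have e : s + (q + 1) * p = (s + q * p) + p := by ring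
        rw [ih s hs (by rw [e] at hsl; omega), hq (s + q * p) (by omega) (by rw [e] at hsl; omega), e]
    have hnd : n * d + 3 * d ≤ w.length := by
      rw [← add_mul]
      exact hwl
    have hv : ∀ q, q ≤ n → (w.drop (i + q * p)).take p = (w.drop i).take p := by
      intro q hqn
      have hqd : q * p ≤ n * d := Nat.mul_le_mul hqn (by omega)
      apply List.ext_getElem?
      intro s
      rw [List.getElem?_take, List.getElem?_take]
      by_cases hs : s < p
      · rw [if_pos hs, if_pos hs, List.getElem?_drop, List.getElem?_drop]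
        have := per q (i + s) (by omega) (by omega)
        rw [show i + q * p + s = i + s + q * p by ring, this]
      · rw [if_neg hs, if_neg hs]
    have hpow : ∀ q, q ≤ n → (w.drop i).take (q * p) = (List.replicate q ((w.drop i).take p)).flatten := by
      intro q
      induction q with
      | zero => intro _; simp
      | succ q ih =>
        intro hqn
        rw [List.replicate_succ', List.flatten_append, ← ih (by omega), add_mul, one_mul, List.take_add,
          List.drop_drop, hv q (by omega)]
        simp
    refine ⟨⟨(w.drop i).take p, ?_⟩, ?_, ?_⟩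
    · rw [List.length_take]
      omega
    · intro hnil
      have := congrArg List.length hnil
      rw [List.length_take, List.length_drop, List.length_nil] at this
      have hdpos : 1 ≤ d := by omega
      omega
    · rw [← hpow n le_rfl]
      apply hN (w.take i) _ ((w.drop i).drop (n * p))
      rw [List.append_assoc, List.take_append_drop, List.take_append_drop]
      exact hw
  choose v hv1 hv2 using hex
  haveI : Finite {l : List (Fin r) // l.length < d + 1} := (List.finite_length_lt (Fin r) (d + 1)).to_subtype
  obtain ⟨v₀, hv₀⟩ := Finite.exists_infinite_fiber v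
  have hinf : (v ⁻¹' {v₀}).Infinite := Set.infinite_coe_iff.1 hv₀
  refine ⟨v₀.1, ?_, ?_⟩
  · obtain ⟨n, hn, -⟩ := hinf.exists_gt 0
    have : v n = v₀ := hn
    rw [← this]
    exact hv1 n
  · intro n
    obtain ⟨n', hn', hlt⟩ := hinf.exists_gt n
    have hn'' : v n' = v₀ := hn'
    have h2 := hv2 n'
    rw [hn'', flatten_replicate_le v₀.1 n n' hlt.le] at h2
    apply hN [] _ ((List.replicate (n' - n) v₀.1).flatten)
    simpa using h2

end Pool.Agent.Work.MP_16d7ed_al.GK
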