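import Mathlib

/-!
# Domains of growth less than cubic over a field algebraic over `F_p`: definitions

`bi k y P a = Σ c_ij y^i a y^j` for `P = Σ c_ij s^i t^j` in `k[X][X]` (inner variable `s`, outer variable `t`).
-/

set_option autoImplicit false

open Polynomial Module

namespace Pool.Agent.Work.MP_16d7ed_al.GK

section bidef

variable (k : Type*) [Field k] {D : Type*} [Ring D] [Algebra k D]

/-- `Σ c_ij s^i t^j` acts by `a ↦ Σ c_ij y^i a y^j` (inner variable `s`: left multiplication by `y`,
outer variable `t`: right multiplication by `y`) -/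
noncomputable def bi (y : D) : k[X][X] →+* Module.End k D :=
  Polynomial.eval₂RingHom' (((Algebra.lmul k D).comp (aeval y : k[X] →ₐ[k] D)) : k[X] →+* Module.End k D)
    (LinearMap.mulRight k y) (by
      intro a
      refine LinearMap.ext fun d => ?_
      simp [mul_assoc])

theorem bi_apply (y : D) (P : k[X][X]) (a : D) :
    bi k y P a = P.sum fun j f => aeval y f * a * y ^ j := by
  rw [bi, Polynomial.eval₂RingHom'_apply, Polynomial.eval₂_eq_sum, Polynomial.sum_def,
    Polynomial.sum_def, LinearMap.sum_apply]
  refine Finset.sum_congr rfl fun j _ => ?_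
  simp [LinearMap.pow_mulRight, mul_assoc]

@[simp] theorem bi_C (y : D) (f : k[X]) (a : D) : bi k y (C f) a = aeval y f * a := by
  rw [bi, Polynomial.eval₂RingHom'_apply, Polynomial.eval₂_C]
  simp

@[simp] theorem bi_X (y : D) (a : D) : bi k y X a = a * y := by
  rw [bi, Polynomial.eval₂RingHom'_apply, Polynomial.eval₂_X]
  simp

theorem bi_mul (y : D) (P Q : k[X][X]) (a : D) : bi k y (P * Q) a = bi k y P (bi k y Q a) := by
  rw [map_mul, Module.End.mul_apply]

end bidef

section words

variable {D : Type*} [Ring D] {r : ℕ}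

/-- the product of a word -/
def word (s : Fin r → D) (u : List (Fin r)) : D := (u.map s).prod

/-- words: length first, then right to left lexicographic -/
def Lt (u v : List (Fin r)) : Prop :=
  u.length < v.length ∨ (u.length = v.length ∧ u.reverse < v.reverse)

/-- normal words: not in the left span of the smaller words -/
def Nrm (K : Type*) [DivisionRing K] [Module K D] (s : Fin r → D) : Set (List (Fin r)) :=
  {u | word s u ∉ Submodule.span K (word s '' {v | Lt v u})}

end words

section bim

variable {k : Type*} [Field k] {D : Type*} [Ring D] [Algebra k D]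

/-- the bimodule `K + Σ K x K` over `K = k(y)`, typeclass version: `K = RatFunc k` acts on the left of `D` -/
def BT [Module (RatFunc k) D] (X : Set D) : Submodule k D :=
  Submodule.span k (Set.range fun c : RatFunc k => c • (1 : D)) ⊔
    Submodule.span k {d | ∃ x ∈ X, ∃ c c' : RatFunc k, d = c • (x * (c' • (1 : D)))}

/-- the bimodule `K + Σ K x K` over `K = ι (RatFunc k)` -/
def BI (ι : RatFunc k →ₐ[k] D) (X : Set D) : Submodule k D :=
  Submodule.span k (Set.range fun c : RatFunc k => ι c) ⊔
    Submodule.span k {d | ∃ x ∈ X, ∃ c c' : RatFunc k, d = ι c * (x * ι c')}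

end bim

/-- the element `y = X • 1` of `D` -/
noncomputable abbrev yy (k : Type*) [Field k] (D : Type*) [Ring D] [Module (RatFunc k) D] : D :=
  (RatFunc.X : RatFunc k) • (1 : D)

/-- growth `o(n^3)` -/
def SubCubic (k : Type*) [Field k] {D : Type*} [Ring D] [Algebra k D] (V : Submodule k D) : Prop :=
  ∀ c : ℕ, ∃ N : ℕ, ∀ n ≥ N, c * finrank k (V ^ n : Submodule k D) ≤ n ^ 3

/-- `a` is killed by a separable polynomial of right multiplication by `y = X • 1` -/
def SepK {k : Type*} [Field k] {D : Type*} [Ring D] [Module (RatFunc k) D] [IsScalarTower (RatFunc k) D D]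
    (a : D) : Prop :=
  ∃ P : (RatFunc k)[X], P.Separable ∧
    aeval (LinearMap.mulRight (RatFunc k) (yy k D)) P a = 0

/-- `ρ` is transcendental over `k` and `η` is separable over `k(ρ^(p^n))` -/
def En (k : Type*) {Ω : Type*} [Field k] [Field Ω] [Algebra k Ω] (p : ℕ) (η : Ω) (n : ℕ) (ρ : Ω) : Prop :=
  Transcendental k ρ ∧ IsSeparable (IntermediateField.adjoin k {ρ ^ p ^ n}) η

end Pool.Agent.Work.MP_16d7ed_al.GK
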