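import Pool.Agent.Work.MP_16d7ed_al.GK.Defs

/-!
# Definitions for the final statement: finitely presented, growth exponent `< 3`
-/

set_option autoImplicit false

open Polynomial Module

namespace Pool.Agent.Work.MP_16d7ed_al.GK

/-- `R` is a finitely presented `k`-algebra -/
def FinPres (k R : Type*) [Field k] [Ring R] [Algebra k R] : Prop :=
  ∃ (n : ℕ) (f : FreeAlgebra k (Fin n) →ₐ[k] R), Function.Surjective f ∧
    ∃ S : Finset (FreeAlgebra k (Fin n)), ∀ x, f x = 0 ↔ x ∈ TwoSidedIdeal.span (S : Set (FreeAlgebra k (Fin n)))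

/-- `R` is generated by a finite dimensional subspace `V ∋ 1` with `dim V^m ≤ C m^d` for all `m ≥ 1`, `d < 3` -/
def GrowthBelowThree (k R : Type*) [Field k] [Ring R] [Algebra k R] : Prop :=
  ∃ V : Submodule k R, V.FG ∧ (1 : R) ∈ V ∧ Algebra.adjoin k (V : Set R) = ⊤ ∧
    ∃ C d : ℝ, d < 3 ∧ ∀ m : ℕ, 1 ≤ m → (finrank k (V ^ m : Submodule k R) : ℝ) ≤ C * (m : ℝ) ^ d

end Pool.Agent.Work.MP_16d7ed_al.GK
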