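import Pool.Agent.Work.MP_16d7ed_al.GK.Defs2

/-!
# MODULE DescA (M-L): descent of a finitely presented algebra to a finite field

`k` is algebraic over `F_p`. Every finite subset of `k` is contained in a finite subfield (`IntermediateField.adjoin (ZMod p) s` for a finite set `s` of algebraic elements is finite dimensional over `ZMod p`).

PROOF. Let `f : FreeAlgebra k (Fin n) → R` be surjective with kernel the ideal generated by `S`. Choose a finite subfield `k₀ ⊆ k` containing all coefficients of the elements of `S` and of chosen preimages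
`ŷ` of the elements `y ∈ Y` (coefficients with respect to the basis of words: `FreeAlgebra k (Fin n) ≃ MonoidAlgebra k (FreeMonoid (Fin n))`, `FreeAlgebra.equivMonoidAlgebraFreeMonoid`). Let `A₀` be the set of the elements
of the free algebra with all coefficients in `k₀` (a subring containing words, `S`, `ŷ`). Every element of `adjoin k₀ Y` is `f a` with `a ∈ A₀`.
For a `k₀`-linear functional `λ : k → k₀` let `λ_*` be its application to all coefficients, `λ_* : k<X> → A₀`; it is additive, and `λ_*(u a v) = u λ_*(a) v` for words `u, v`, and `λ_*(c a) = λ(c) a` for `a ∈ A₀`,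
`c ∈ k` (coefficientwise `λ(c a_w) = λ(c) a_w` as `a_w ∈ k₀`). `ker f` is the additive span of the elements `c u s v`, `c ∈ k`, `u, v` words, `s ∈ S` (the two sided ideal generated by `S`), and
`λ_*(c u s v) = λ(c) u s v ∈ ker f`. So `λ_*(ker f) ⊆ ker f`.
Let `v_i ∈ adjoin k₀ Y`, `i < m`, be `k₀`-independent, `v_i = f a_i`, `a_i ∈ A₀`, and `Σ c_i v_i = 0`, `c_i ∈ k`. Then `Σ c_i a_i ∈ ker f`, so `Σ λ(c_i) a_i ∈ ker f`, i.e. `Σ λ(c_i) v_i = 0`, so `λ(c_i) = 0` for all `i`, for every
functional `λ`; hence `c_i = 0` (functionals separate points: `Module.forall_dual_apply_eq_zero_iff`).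
-/

set_option autoImplicit false

open Polynomial Module

namespace Pool.Agent.Work.MP_16d7ed_al.GK

private theorem liftk {k : Type*} [Field k] (k₀ : Subfield k) {W : Type*} [Monoid W] (x : MonoidAlgebra k W)
    (h : ∀ w, x.coeff w ∈ k₀) : ∃ y : MonoidAlgebra k₀ W, MonoidAlgebra.mapRingHom W k₀.subtype y = x := by
  refine ⟨∑ w ∈ x.coeff.support, MonoidAlgebra.single w ⟨x.coeff w, h w⟩, ?_⟩
  rw [map_sum]
  simp only [MonoidAlgebra.mapRingHom_single, Subfield.coe_subtype]
  exact MonoidAlgebra.sum_coeff_single x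

private noncomputable def LL {k : Type*} [Field k] {k₀ : Subfield k} (W : Type*) (l : k →ₗ[k₀] k₀) :
    MonoidAlgebra k W →+ MonoidAlgebra k W :=
  (MonoidAlgebra.coeffAddEquiv.symm : (W →₀ k) ≃+ MonoidAlgebra k W).toAddMonoidHom.comp
    ((Finsupp.mapRange.addMonoidHom (k₀.subtype.toAddMonoidHom.comp l.toAddMonoidHom)).comp
      (MonoidAlgebra.coeffAddEquiv : MonoidAlgebra k W ≃+ (W →₀ k)).toAddMonoidHom)

private theorem LL_coeff {k : Type*} [Field k] {k₀ : Subfield k} {W : Type*} (l : k →ₗ[k₀] k₀)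
    (x : MonoidAlgebra k W) (w : W) : (LL W l x).coeff w = (l (x.coeff w) : k) := rfl

private theorem LL_single {k : Type*} [Field k] {k₀ : Subfield k} {W : Type*} (l : k →ₗ[k₀] k₀)
    (w : W) (c : k) : LL W l (MonoidAlgebra.single w c) = MonoidAlgebra.single w (l c : k) := by
  classical
  ext v
  rw [LL_coeff, MonoidAlgebra.coeff_single_apply, MonoidAlgebra.coeff_single_apply]
  split_ifs
  · rfl
  · rw [map_zero]
    rfl

private theorem LL_left {k : Type*} [Field k] {k₀ : Subfield k} {W : Type*} [Monoid W] (l : k →ₗ[k₀] k₀)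
    (u : W) (c : k) (x : MonoidAlgebra k W) :
    LL W l (MonoidAlgebra.single u c * x) =
      MonoidAlgebra.single u 1 * LL W (l.comp (LinearMap.mulLeft k₀ c)) x := by
  induction x using MonoidAlgebra.induction_linear with
  | zero => simp only [mul_zero, map_zero]
  | add f g hf hg => rw [mul_add, map_add, map_add, mul_add, hf, hg]
  | single v d =>
    rw [MonoidAlgebra.single_mul_single, LL_single, LL_single, MonoidAlgebra.single_mul_single, one_mul]
    rfl

private theorem LL_right {k : Type*} [Field k] {k₀ : Subfield k} {W : Type*} [Monoid W] (l : k →ₗ[k₀] k₀)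
    (u : W) (c : k) (x : MonoidAlgebra k W) :
    LL W l (x * MonoidAlgebra.single u c) =
      LL W (l.comp (LinearMap.mulLeft k₀ c)) x * MonoidAlgebra.single u 1 := by
  induction x using MonoidAlgebra.induction_linear with
  | zero => simp only [zero_mul, map_zero]
  | add f g hf hg => rw [add_mul, map_add, map_add, add_mul, hf, hg]
  | single v d =>
    rw [MonoidAlgebra.single_mul_single, LL_single, LL_single, MonoidAlgebra.single_mul_single, mul_one,
      mul_comm d c]
    rfl

private theorem LL_map {k : Type*} [Field k] {k₀ : Subfield k} {W : Type*} [Monoid W] (l : k →ₗ[k₀] k₀)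
    (c : k) (y : MonoidAlgebra k₀ W) :
    LL W l (c • MonoidAlgebra.mapRingHom W k₀.subtype y) =
      (l c : k) • MonoidAlgebra.mapRingHom W k₀.subtype y := by
  ext w
  rw [LL_coeff, MonoidAlgebra.coeff_smul_apply, MonoidAlgebra.coeff_smul_apply, MonoidAlgebra.coeff_mapRingHom]
  simp only [Subfield.coe_subtype, smul_eq_mul]
  have h1 : c * (y.coeff w : k) = (y.coeff w) • c := by
    rw [Subfield.smul_def, smul_eq_mul, mul_comm]
  rw [h1, map_smul, smul_eq_mul, Subfield.coe_mul, mul_comm]

theorem descA {k R : Type*} [Field k] (p : ℕ) [Fact p.Prime] [Algebra (ZMod p) k] [Algebra.IsAlgebraic (ZMod p) k]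
    [Ring R] [Algebra k R] (hfp : FinPres k R) (Y : Set R) (hY : Y.Finite) :
    ∃ k₀ : Subfield k, Finite k₀ ∧
      ∀ (m : ℕ) (v : Fin m → R), (∀ i, v i ∈ Algebra.adjoin k₀ Y) → LinearIndependent k₀ v → LinearIndependent k v := by
  classical
  obtain ⟨n, f, hf, S, hS⟩ := hfp
  obtain ⟨e, -⟩ : ∃ e : FreeAlgebra k (Fin n) ≃ₐ[k] MonoidAlgebra k (FreeMonoid (Fin n)), True :=
    ⟨FreeAlgebra.equivMonoidAlgebraFreeMonoid, trivial⟩
  choose g hg using hf
  obtain ⟨T, hTd⟩ : ∃ T : Set k, T = (⋃ s ∈ (S : Set (FreeAlgebra k (Fin n))), (e s).coeff '' (e s).coeff.support) ∪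
    (⋃ y ∈ Y, (e (g y)).coeff '' (e (g y)).coeff.support) := ⟨_, rfl⟩
  have hTf : T.Finite := by
    rw [hTd]
    exact (S.finite_toSet.biUnion fun s _ => (Finset.finite_toSet _).image _).union
      (hY.biUnion fun y _ => (Finset.finite_toSet _).image _)
  obtain ⟨k₀, hk₀⟩ : ∃ k₀ : Subfield k, k₀ = (IntermediateField.adjoin (ZMod p) T).toSubfield := ⟨_, rfl⟩
  have hTk : T ⊆ k₀ := by
    rw [hk₀]
    exact IntermediateField.subset_adjoin (ZMod p) T
  have hfin : Finite k₀ := by
    rw [hk₀]
    haveI : Finite T := hTf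
    haveI : FiniteDimensional (ZMod p) (IntermediateField.adjoin (ZMod p) T) :=
      IntermediateField.finiteDimensional_adjoin fun x _ => (Algebra.IsAlgebraic.isAlgebraic x).isIntegral
    haveI : Finite (ZMod p) := inferInstance
    exact Module.finite_of_finite (ZMod p)
  have hcS : ∀ s ∈ S, ∀ w, (e s).coeff w ∈ k₀ := by
    intro s hs w
    by_cases h0 : (e s).coeff w = 0
    · rw [h0]
      exact zero_mem _
    · apply hTk
      rw [hTd]
      refine Or.inl (Set.mem_biUnion (show s ∈ (S : Set (FreeAlgebra k (Fin n))) from hs) ?_)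
      exact ⟨w, Finsupp.mem_support_iff.2 h0, rfl⟩
  have hcY : ∀ y ∈ Y, ∀ w, (e (g y)).coeff w ∈ k₀ := by
    intro y hy w
    by_cases h0 : (e (g y)).coeff w = 0
    · rw [h0]
      exact zero_mem _
    · apply hTk
      rw [hTd]
      refine Or.inr (Set.mem_biUnion hy ?_)
      exact ⟨w, Finsupp.mem_support_iff.2 h0, rfl⟩
  obtain ⟨F, hF⟩ : ∃ F : MonoidAlgebra k (FreeMonoid (Fin n)) →ₐ[k] R, ∀ x, F (e x) = f x :=
    ⟨f.comp (e.symm : MonoidAlgebra k (FreeMonoid (Fin n)) →ₐ[k] FreeAlgebra k (Fin n)), fun x => by simp⟩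
  -- the kernel is stable under the functionals
  have hker : ∀ x, x ∈ TwoSidedIdeal.span (S : Set (FreeAlgebra k (Fin n))) →
      ∀ l : k →ₗ[k₀] k₀, F (LL _ l (e x)) = 0 := by
    intro x hx
    refine TwoSidedIdeal.span_induction
      (p := fun x _ => ∀ l : k →ₗ[k₀] k₀, F (LL _ l (e x)) = 0) ?_ ?_ ?_ ?_ ?_ ?_ hx
    · intro x hxS l
      obtain ⟨y, hy⟩ := liftk k₀ (e x) (hcS x hxS)
      have h1 := LL_map l 1 y
      rw [one_smul, hy] at h1
      rw [h1, map_smul, hF, (hS x).2 (TwoSidedIdeal.subset_span hxS), smul_zero]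
    · intro l
      rw [map_zero, map_zero, map_zero]
    · intro x y _ _ h1 h2 l
      rw [map_add, map_add, map_add, h1, h2, add_zero]
    · intro x _ h1 l
      rw [map_neg, map_neg, map_neg, h1, neg_zero]
    · intro a x _ h1 l
      rw [map_mul]
      induction (e a) using MonoidAlgebra.induction_linear with
      | zero => rw [zero_mul, map_zero, map_zero]
      | add A B hA hB => rw [add_mul, map_add, map_add, hA, hB, add_zero]
      | single u c => rw [LL_left, map_mul, h1, mul_zero]
    · intro a x _ h1 l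
      rw [map_mul]
      induction (e a) using MonoidAlgebra.induction_linear with
      | zero => rw [mul_zero, map_zero, map_zero]
      | add A B hA hB => rw [mul_add, map_add, map_add, hA, hB, add_zero]
      | single u c => rw [LL_right, map_mul, h1, zero_mul]
  have hP1 : ∀ r ∈ Algebra.adjoin k₀ Y, ∃ y : MonoidAlgebra k₀ (FreeMonoid (Fin n)),
      F (MonoidAlgebra.mapRingHom _ k₀.subtype y) = r := by
    intro r hr
    induction hr using Algebra.adjoin_induction with
    | mem r hr =>
      obtain ⟨y, hy⟩ := liftk k₀ (e (g r)) (hcY r hr)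
      exact ⟨y, by rw [hy, hF, hg]⟩
    | algebraMap c =>
      refine ⟨MonoidAlgebra.single 1 c, ?_⟩
      rw [MonoidAlgebra.mapRingHom_single, Subfield.coe_subtype]
      have h1 : MonoidAlgebra.single (1 : FreeMonoid (Fin n)) (c : k) =
          (c : k) • (1 : MonoidAlgebra k (FreeMonoid (Fin n))) := by
        rw [MonoidAlgebra.one_def, MonoidAlgebra.smul_single', mul_one]
      rw [h1, map_smul, map_one, Algebra.smul_def, mul_one]
      rfl
    | add x y _ _ hx hy =>
      obtain ⟨a, ha⟩ := hx
      obtain ⟨b, hb⟩ := hy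
      exact ⟨a + b, by rw [map_add, map_add, ha, hb]⟩
    | mul x y _ _ hx hy =>
      obtain ⟨a, ha⟩ := hx
      obtain ⟨b, hb⟩ := hy
      exact ⟨a * b, by rw [map_mul, map_mul, ha, hb]⟩
  refine ⟨k₀, hfin, fun m v hv hli => ?_⟩
  choose y hy using fun i => hP1 (v i) (hv i)
  rw [Fintype.linearIndependent_iff]
  intro c hc
  have hx : e.symm (∑ i, c i • MonoidAlgebra.mapRingHom _ k₀.subtype (y i)) ∈
      TwoSidedIdeal.span (S : Set (FreeAlgebra k (Fin n))) := by
    rw [← hS, ← hF, AlgEquiv.apply_symm_apply, map_sum]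
    simp_rw [map_smul, hy]
    exact hc
  have h1 := hker _ hx
  rw [AlgEquiv.apply_symm_apply] at h1
  intro i
  rw [← Module.forall_dual_apply_eq_zero_iff k₀ (c i)]
  intro l
  have h2 := h1 l
  rw [map_sum, map_sum] at h2
  simp_rw [LL_map, map_smul, hy] at h2
  exact (Fintype.linearIndependent_iff.1 hli) (fun i => l (c i)) h2 i

end Pool.Agent.Work.MP_16d7ed_al.GK
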