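import Pool.Agent.Work.MP_16d7ed_al.GK.Defs2

/-!
# MODULE DescB (M): growth of the descended algebra

PROOF of `descGrow`. `V₀ = span_{k₀} (insert 1 Y)`: finitely generated. `V₀^n ⊆ adjoin k₀ Y`. Let `Y ∪ {1} ⊆ V^c`, `c ≥ 1` (`V` generates `R`, `1 ∈ V`). A `k₀`-basis of `V₀^n` consists of elements of `adjoin k₀ Y ∩ V^(c n)` (`V₀ ⊆ V^c` as sets), and is `k`-independent
by `h`, so `finrank_{k₀} V₀^n ≤ finrank_k V^(c n) ≤ C (c n)^d`, `d < 3`; for every `c'`: `c' C c^d n^d ≤ n^3` for large `n`.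
-/

set_option autoImplicit false

open Polynomial Module

namespace Pool.Agent.Work.MP_16d7ed_al.GK

private theorem db_ex {k R : Type*} [Field k] [Ring R] [Algebra k R] (V : Submodule k R)
    (h1 : (1 : R) ∈ V) (x : R) (hx : x ∈ Algebra.adjoin k (V : Set R)) :
    ∃ n : ℕ, x ∈ V ^ n := by
  have hmono : ∀ a b : ℕ, a ≤ b → V ^ a ≤ V ^ b := fun a b hab =>
    pow_le_pow_right₀ (Submodule.one_le.2 h1) hab
  induction hx using Algebra.adjoin_induction with
  | mem x hx => exact ⟨1, by rw [pow_one]; exact hx⟩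
  | algebraMap r =>
    refine ⟨1, ?_⟩
    rw [pow_one, Algebra.algebraMap_eq_smul_one]
    exact V.smul_mem r h1
  | add x y _ _ hx hy =>
    obtain ⟨a, ha⟩ := hx
    obtain ⟨b, hb⟩ := hy
    exact ⟨max a b, Submodule.add_mem _ (hmono a _ (le_max_left a b) ha)
      (hmono b _ (le_max_right a b) hb)⟩
  | mul x y _ _ hx hy =>
    obtain ⟨a, ha⟩ := hx
    obtain ⟨b, hb⟩ := hy
    exact ⟨a + b, by rw [pow_add]; exact Submodule.mul_mem_mul ha hb⟩

private theorem db_fin {k R : Type*} [Field k] [Ring R] [Algebra k R] (V : Submodule k R)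
    (h1 : (1 : R) ∈ V) (htop : Algebra.adjoin k (V : Set R) = ⊤) (Y : Set R) (hY : Y.Finite) :
    ∃ c : ℕ, 1 ≤ c ∧ ∀ y ∈ Y, y ∈ V ^ c := by
  have hmono : ∀ a b : ℕ, a ≤ b → V ^ a ≤ V ^ b := fun a b hab =>
    pow_le_pow_right₀ (Submodule.one_le.2 h1) hab
  induction Y, hY using Set.Finite.induction_on with
  | empty => exact ⟨1, le_rfl, fun y hy => absurd hy (Set.notMem_empty y)⟩
  | insert _ _ ih =>
    rename_i a s _ _
    obtain ⟨c, hc, hcs⟩ := ih
    obtain ⟨m, hm⟩ := db_ex V h1 a (by rw [htop]; exact Algebra.mem_top)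
    refine ⟨max c m, le_trans hc (le_max_left _ _), fun y hy => ?_⟩
    rcases hy with rfl | hy
    · exact hmono m _ (le_max_right _ _) hm
    · exact hmono c _ (le_max_left _ _) (hcs y hy)

private theorem db_main {k₀ k R : Type*} [Field k₀] [Field k] [Ring R] [Algebra k₀ k]
    [Algebra k R] [Algebra k₀ R] [IsScalarTower k₀ k R] (hgr : GrowthBelowThree k R)
    (Y : Set R) (hY : Y.Finite)
    (h : ∀ (m : ℕ) (v : Fin m → R), (∀ i, v i ∈ Algebra.adjoin k₀ Y) → LinearIndependent k₀ v →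
      LinearIndependent k v) :
    SubCubic k₀ (Submodule.span k₀ (insert (1 : R) Y)) := by
  classical
  obtain ⟨V, hVfg, hV1, hVtop, C, d, hd, hC⟩ := hgr
  set V₀ : Submodule k₀ R := Submodule.span k₀ (insert (1 : R) Y) with hV₀
  obtain ⟨c₁, hc₁, hYc⟩ := db_fin V hV1 hVtop (insert (1 : R) Y) (hY.insert 1)
  have hin : ∀ n : ℕ, ∀ x ∈ V₀ ^ n, x ∈ V ^ (c₁ * n) := by
    have hin1 : ∀ x ∈ V₀, x ∈ V ^ c₁ := by
      intro x hx
      have hle : V₀ ≤ (V ^ c₁).restrictScalars k₀ := Submodule.span_le.2 hYc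
      exact hle hx
    intro n
    induction n with
    | zero =>
      intro x hx
      rw [pow_zero] at hx
      rw [mul_zero, pow_zero]
      obtain ⟨r, rfl⟩ := Submodule.mem_one.1 hx
      rw [Submodule.mem_one]
      exact ⟨algebraMap k₀ k r, (IsScalarTower.algebraMap_apply k₀ k R r).symm⟩
    | succ n ih =>
      intro x hx
      rw [pow_succ] at hx
      rw [Nat.mul_succ, pow_add]
      induction hx using Submodule.mul_induction_on' with
      | mem_mul_mem a ha b hb => exact Submodule.mul_mem_mul (ih a ha) (hin1 b hb)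
      | add a _ b _ ha hb => exact Submodule.add_mem _ ha hb
  have hadj : ∀ n : ℕ, ∀ x ∈ V₀ ^ n, x ∈ Algebra.adjoin k₀ Y := by
    have hin1 : ∀ x ∈ V₀, x ∈ Algebra.adjoin k₀ Y := by
      intro x hx
      have hle : V₀ ≤ Subalgebra.toSubmodule (Algebra.adjoin k₀ Y) := by
        refine Submodule.span_le.2 fun y hy => ?_
        rcases hy with rfl | hy
        · exact one_mem (Algebra.adjoin k₀ Y)
        · exact Algebra.subset_adjoin hy
      exact hle hx
    intro n
    induction n with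
    | zero =>
      intro x hx
      rw [pow_zero] at hx
      obtain ⟨r, rfl⟩ := Submodule.mem_one.1 hx
      exact (Algebra.adjoin k₀ Y).algebraMap_mem r
    | succ n ih =>
      intro x hx
      rw [pow_succ] at hx
      induction hx using Submodule.mul_induction_on' with
      | mem_mul_mem a ha b hb => exact mul_mem (ih a ha) (hin1 b hb)
      | add a _ b _ ha hb => exact add_mem ha hb
  have hV₀fg : V₀.FG := Submodule.fg_span (hY.insert 1)
  have hrank : ∀ n : ℕ, finrank k₀ (V₀ ^ n : Submodule k₀ R)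
      ≤ finrank k (V ^ (c₁ * n) : Submodule k R) := by
    intro n
    have : Module.Finite k₀ (V₀ ^ n : Submodule k₀ R) :=
      Module.Finite.iff_fg.2 (hV₀fg.pow n)
    have : Module.Finite k (V ^ (c₁ * n) : Submodule k R) :=
      Module.Finite.iff_fg.2 (hVfg.pow (c₁ * n))
    let b := Module.finBasis k₀ (V₀ ^ n : Submodule k₀ R)
    have hli : LinearIndependent k₀ (fun i => ((b i : (V₀ ^ n : Submodule k₀ R)) : R)) :=
      b.linearIndependent.map' (V₀ ^ n : Submodule k₀ R).subtype (Submodule.ker_subtype _)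
    have hli2 := h _ (fun i => ((b i : (V₀ ^ n : Submodule k₀ R)) : R))
      (fun i => hadj n _ (b i).2) hli
    have hli3 : LinearIndependent k (fun i => (⟨(b i : R), hin n _ (b i).2⟩ :
        (V ^ (c₁ * n) : Submodule k R))) := by
      refine LinearIndependent.of_comp (V ^ (c₁ * n) : Submodule k R).subtype ?_
      exact hli2
    have := hli3.fintype_card_le_finrank
    rw [Fintype.card_fin] at this
    exact this
  intro c
  set K : ℝ := c * C * (c₁ : ℝ) ^ d with hK
  have hev : ∀ᶠ n : ℕ in Filter.atTop, K ≤ (n : ℝ) ^ (3 - d) :=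
    ((tendsto_rpow_atTop (by linarith : 0 < 3 - d)).comp
      tendsto_natCast_atTop_atTop).eventually_ge_atTop K
  obtain ⟨N, hN⟩ := Filter.eventually_atTop.1 hev
  refine ⟨max N 1, fun n hn => ?_⟩
  have hn1 : 1 ≤ n := le_trans (le_max_right _ _) hn
  have hnN := hN n (le_trans (le_max_left _ _) hn)
  have hn0 : (0 : ℝ) < n := by exact_mod_cast hn1
  have h1 : (finrank k₀ (V₀ ^ n : Submodule k₀ R) : ℝ) ≤ C * ((c₁ * n : ℕ) : ℝ) ^ d := by
    refine le_trans ?_ (hC (c₁ * n) (Nat.mul_pos hc₁ hn1))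
    exact_mod_cast hrank n
  have h2 : ((c₁ * n : ℕ) : ℝ) ^ d = (c₁ : ℝ) ^ d * (n : ℝ) ^ d := by
    push_cast
    exact Real.mul_rpow (by positivity) (by positivity)
  have h3 : (c : ℝ) * (finrank k₀ (V₀ ^ n : Submodule k₀ R) : ℝ) ≤ (n : ℝ) ^ 3 := by
    calc (c : ℝ) * (finrank k₀ (V₀ ^ n : Submodule k₀ R) : ℝ)
        ≤ c * (C * ((c₁ * n : ℕ) : ℝ) ^ d) := mul_le_mul_of_nonneg_left h1 (by positivity)
      _ = K * (n : ℝ) ^ d := by rw [h2, hK]; ring
      _ ≤ (n : ℝ) ^ (3 - d) * (n : ℝ) ^ d := mul_le_mul_of_nonneg_right hnN (by positivity)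
      _ = (n : ℝ) ^ 3 := by
        rw [← Real.rpow_add hn0, sub_add_cancel]
        exact_mod_cast Real.rpow_natCast (n : ℝ) 3
  exact_mod_cast h3

theorem descGrow {k R : Type*} [Field k] [Ring R] [Algebra k R] (hgr : GrowthBelowThree k R) (k₀ : Subfield k)
    (Y : Set R) (hY : Y.Finite)
    (h : ∀ (m : ℕ) (v : Fin m → R), (∀ i, v i ∈ Algebra.adjoin k₀ Y) → LinearIndependent k₀ v → LinearIndependent k v) :
    SubCubic k₀ (Submodule.span k₀ (insert (1 : R) Y)) :=
  db_main hgr Y hY h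

end Pool.Agent.Work.MP_16d7ed_al.GK
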