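import Pool.Agent.Work.MP_16d7ed_al.GK.Defs

/-!
# MODULE DescC (M): matrix embeddings after extension of scalars

PROOF. `S₀ = adjoin k₀ Y`, `C = k ⊗[k₀] E`, a commutative ring. The map `m : k ⊗[k₀] S₀ → R`, `c ⊗ s ↦ c s`, is a ring homomorphism, injective by `h` (write an element as `Σ c_i ⊗ v_i` with `v_i` `k₀`-independent, e.g. with
a basis of `S₀` over `k₀`), with image `adjoin k Y` (it is a `k`-subalgebra containing `Y`, contained in `adjoin k Y`). `ψ : k ⊗[k₀] S₀ → k ⊗[k₀] Matrix n n E ≅ Matrix n n (k ⊗[k₀] E)` (`matrixEquivTensor`-type isomorphism, or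
define directly `ψ (c ⊗ s) i j = c ⊗ φ(s) i j`) is an injective ring homomorphism as `k` is flat over the field `k₀`. The required map is `ψ ∘ m⁻¹`.
-/

set_option autoImplicit false

open Polynomial Module

namespace Pool.Agent.Work.MP_16d7ed_al.GK

universe u

open scoped TensorProduct

private theorem indep_inf {k R : Type*} [Field k] [Ring R] [Algebra k R] (k₀ : Subfield k) (S₀ : Set R)
    (h : ∀ (m : ℕ) (v : Fin m → R), (∀ i, v i ∈ S₀) → LinearIndependent k₀ v → LinearIndependent k v)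
    {ι : Type*} (v : ι → R) (hv : ∀ i, v i ∈ S₀) (hli : LinearIndependent k₀ v) : LinearIndependent k v := by
  classical
  rw [linearIndependent_iff_finset_linearIndependent]
  intro s
  have e := (Fintype.equivFin s)
  have h1 : LinearIndependent k₀ (v ∘ (Subtype.val : s → ι) ∘ e.symm) :=
    hli.comp _ (Subtype.val_injective.comp e.symm.injective)
  have h2 := h _ _ (fun i => hv _) h1
  have h3 := h2.comp e e.injective
  have h4 : (fun i => v (((Subtype.val : s → ι) ∘ e.symm) i)) ∘ e = v ∘ (Subtype.val : s → ι) := by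
    funext i
    simp
  rw [h4] at h3
  exact h3

private theorem matInj (K : Type*) [Field K] (A : Type*) [CommRing A] [Algebra K A] (B : Type*) [Ring B]
    [Algebra K B] (E : Type*) [CommRing E] [Algebra K E] (n : ℕ) (φ : B →ₐ[K] Matrix (Fin n) (Fin n) E)
    (hφ : Function.Injective φ) : ∃ ψ : A ⊗[K] B →+* Matrix (Fin n) (Fin n) (A ⊗[K] E), Function.Injective ψ := by
  classical
  let e1 : A ⊗[K] B →ₐ[K] A ⊗[K] Matrix (Fin n) (Fin n) E :=
    Algebra.TensorProduct.map (AlgHom.id K A) φ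
  have he1 : Function.Injective e1 := by
    have h5 : Function.Injective (LinearMap.lTensor A φ.toLinearMap) :=
      Module.Flat.lTensor_preserves_injective_linearMap _ hφ
    exact h5
  let e2 : A ⊗[K] Matrix (Fin n) (Fin n) E ≃ₐ[K] A ⊗[K] (E ⊗[K] Matrix (Fin n) (Fin n) K) :=
    Algebra.TensorProduct.congr AlgEquiv.refl (matrixEquivTensor (Fin n) K E)
  let e3 : A ⊗[K] (E ⊗[K] Matrix (Fin n) (Fin n) K) ≃ₐ[K] (A ⊗[K] E) ⊗[K] Matrix (Fin n) (Fin n) K :=
    (Algebra.TensorProduct.assoc K K K A E (Matrix (Fin n) (Fin n) K)).symm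
  let e4 : (A ⊗[K] E) ⊗[K] Matrix (Fin n) (Fin n) K ≃ₐ[K] Matrix (Fin n) (Fin n) (A ⊗[K] E) :=
    (matrixEquivTensor (Fin n) K (A ⊗[K] E)).symm
  refine ⟨e4.toRingEquiv.toRingHom.comp (e3.toRingEquiv.toRingHom.comp
    (e2.toRingEquiv.toRingHom.comp e1.toRingHom)), ?_⟩
  exact e4.injective.comp (e3.injective.comp (e2.injective.comp he1))

theorem descC {k R : Type u} [Field k] [Ring R] [Algebra k R] (k₀ : Subfield k) (Y : Set R)
    (h : ∀ (m : ℕ) (v : Fin m → R), (∀ i, v i ∈ Algebra.adjoin k₀ Y) → LinearIndependent k₀ v → LinearIndependent k v)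
    (n : ℕ) (E : Type u) [Field E] [Algebra k₀ E] (φ : Algebra.adjoin k₀ Y →ₐ[k₀] Matrix (Fin n) (Fin n) E)
    (hφ : Function.Injective φ) :
    ∃ (C : Type u) (_ : CommRing C) (ψ : Algebra.adjoin k Y →+* Matrix (Fin n) (Fin n) C), Function.Injective ψ := by
  classical
  obtain ⟨m, hm⟩ : ∃ m : k ⊗[k₀] (Algebra.adjoin k₀ Y) →ₐ[k] R, ∀ c s, m (c ⊗ₜ s) = c • (s : R) := by
    have hcom : ∀ (x : k) (y : Algebra.adjoin k₀ Y), Commute ((Algebra.ofId k R) x)
        ((Algebra.adjoin k₀ Y).val y) := fun c s => Algebra.commutes c _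
    refine ⟨Algebra.TensorProduct.lift (Algebra.ofId k R) (Algebra.adjoin k₀ Y).val hcom, fun c s => ?_⟩
    rw [Algebra.TensorProduct.lift_tmul, Algebra.smul_def]
    rfl
  have hinj : Function.Injective m := by
    rw [injective_iff_map_eq_zero]
    intro x hx
    let b := Module.Basis.ofVectorSpace k₀ (Algebra.adjoin k₀ Y)
    have hbi : LinearIndependent k₀ (fun i => ((b i : Algebra.adjoin k₀ Y) : R)) := by
      have h1 := b.linearIndependent
      exact h1.map' (Algebra.adjoin k₀ Y).val.toLinearMap (by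
        rw [LinearMap.ker_eq_bot]
        exact Subtype.val_injective)
    have hbk : LinearIndependent k (fun i => ((b i : Algebra.adjoin k₀ Y) : R)) :=
      indep_inf k₀ (Algebra.adjoin k₀ Y : Set R) h _ (fun i => (b i).2) hbi
    let B := b.baseChange k
    have hB : ∀ i, m (B i) = ((b i : Algebra.adjoin k₀ Y) : R) := by
      intro i
      rw [Module.Basis.baseChange_apply, hm, one_smul]
    have h2 : m x = Finsupp.linearCombination k (fun i => ((b i : Algebra.adjoin k₀ Y) : R)) (B.repr x) := by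
      conv_lhs => rw [← B.linearCombination_repr x]
      have h3 := Finsupp.apply_linearCombination k m.toLinearMap B (B.repr x)
      rw [AlgHom.toLinearMap_apply] at h3
      rw [h3]
      congr 2
      funext i
      exact hB i
    rw [h2] at hx
    have h4 := linearIndependent_iff.1 hbk _ hx
    exact B.repr.map_eq_zero_iff.1 h4
  have hrange : Algebra.adjoin k Y ≤ m.range := by
    rw [Algebra.adjoin_le_iff]
    intro y hy
    refine ⟨1 ⊗ₜ ⟨y, Algebra.subset_adjoin hy⟩, ?_⟩
    exact (hm _ _).trans (one_smul _ _)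
  obtain ⟨ψ₀, hψ₀⟩ := matInj k₀ k (Algebra.adjoin k₀ Y) E n φ hφ
  let m' := AlgEquiv.ofInjective m hinj
  refine ⟨k ⊗[k₀] E, inferInstance, ψ₀.comp (m'.symm.toRingEquiv.toRingHom.comp
    (Subalgebra.inclusion hrange).toRingHom), ?_⟩
  exact hψ₀.comp (m'.symm.injective.comp (Subalgebra.inclusion_injective hrange))

end Pool.Agent.Work.MP_16d7ed_al.GK
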