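import Pool.Agent.Work.MP_16d7ed_al.GK.Defs2

/-!
# MODULE DescD (M): simplicity of the descended algebra

PROOF of `descSimple`. Let `I ≠ ⊥` be a two sided ideal of `S₀ = adjoin k₀ Y`, suppose `1 ∉ I`. The `k`-span `J` of `I` in `R` is a two sided ideal of `R`: `R` is the `k`-span of `S₀` (as `adjoin k Y = ⊤`), `k` is central. `J ≠ ⊥`, so `1 ∈ J`: `1 = Σ c_i a_i`, `a_i ∈ I`, and we may
take `a_1, .., a_l` `k₀`-independent (a basis of a finite dimensional `k₀`-subspace of `I`). Then `1, a_1, .., a_l` are `k₀`-independent (`1 ∉ I`), hence `k`-independent by `h`: contradiction.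
`S₀` is nontrivial. (`IsSimpleRing` = `IsSimpleOrder (TwoSidedIdeal _)`.)
-/

set_option autoImplicit false

open Polynomial Module

namespace Pool.Agent.Work.MP_16d7ed_al.GK

private theorem indep_cons {k R : Type*} [Field k] [Ring R] [Algebra k R] (k₀ : Subfield k) (S₀ : Set R)
    (h : ∀ (m : ℕ) (v : Fin m → R), (∀ i, v i ∈ S₀) → LinearIndependent k₀ v → LinearIndependent k v)
    (h1 : (1 : R) ∈ S₀) (J : Set R) (hJ : J ⊆ S₀) (hspan : ∀ x ∈ Submodule.span k₀ J, x ∈ J)
    (hx : (1 : R) ∈ Submodule.span k J) : (1 : R) ∈ J := by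
  classical
  obtain ⟨T, hT, h1T⟩ := Submodule.mem_span_finite_of_mem_span hx
  obtain ⟨b, hbT, hbs, hli⟩ := exists_linearIndependent k₀ (T : Set R)
  have hbf : b.Finite := T.finite_toSet.subset hbT
  have h1b : (1 : R) ∈ Submodule.span k b := by
    have h2 : Submodule.span k (T : Set R) ≤ Submodule.span k b := by
      rw [Submodule.span_le]
      intro t ht
      have h3 : t ∈ Submodule.span k₀ b := by
        rw [hbs]
        exact Submodule.subset_span ht
      exact Submodule.span_le_restrictScalars k₀ k b h3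
    exact h2 h1T
  by_contra hcon
  have : Fintype b := hbf.fintype
  have e := (Fintype.equivFin b).symm
  have hv : LinearIndependent k₀ (fun i => ((e i : b) : R)) := hli.comp e e.injective
  have hr : Set.range (fun i => ((e i : b) : R)) = b := by
    ext x
    constructor
    · rintro ⟨i, rfl⟩
      exact (e i).2
    · intro hx
      exact ⟨e.symm ⟨x, hx⟩, by simp⟩
  have hc : LinearIndependent k₀ (Fin.cons (1 : R) (fun i => ((e i : b) : R)) : Fin _ → R) := by
    rw [linearIndependent_finCons]
    refine ⟨hv, ?_⟩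
    rw [hr]
    intro h2
    exact hcon (hspan _ (Submodule.span_mono (hbT.trans hT) h2))
  have hk := h _ _ (by
    intro i
    refine Fin.cases ?_ (fun j => ?_) i
    · exact h1
    · exact hJ (hT (hbT (e j).2))) hc
  rw [linearIndependent_finCons, hr] at hk
  exact hk.2 h1b

theorem descSimple {k R : Type*} [Field k] [Ring R] [Algebra k R] [IsSimpleRing R] (k₀ : Subfield k)
    (Y : Set R) (hY : Algebra.adjoin k Y = ⊤)
    (h : ∀ (m : ℕ) (v : Fin m → R), (∀ i, v i ∈ Algebra.adjoin k₀ Y) → LinearIndependent k₀ v → LinearIndependent k v) :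
    IsSimpleRing (Algebra.adjoin k₀ Y) := by
  have : Nontrivial R := inferInstance
  refine IsSimpleRing.of_eq_bot_or_eq_top fun I => ?_
  rw [or_iff_not_imp_left, ← I.one_mem_iff]
  intro hI
  obtain ⟨x, hx1, hx2⟩ : ∃ x ∈ I, x ≠ 0 := by
    obtain ⟨x, hx1, hx2⟩ := SetLike.exists_of_lt (bot_lt_iff_ne_bot.mpr hI : ⊥ < I)
    exact ⟨x, hx1, hx2⟩
  obtain ⟨J, hJ⟩ : ∃ J : Set R, J = (fun x : Algebra.adjoin k₀ Y => (x : R)) '' {x | x ∈ I} := ⟨_, rfl⟩
  have hmem : ∀ y : Algebra.adjoin k₀ Y, y ∈ I → (y : R) ∈ J := by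
    intro y hy
    rw [hJ]
    exact ⟨y, hy, rfl⟩
  have hJS : J ⊆ (Algebra.adjoin k₀ Y : Set R) := by
    rw [hJ]
    rintro _ ⟨y, _, rfl⟩
    exact y.2
  have hsp : ∀ x ∈ Submodule.span k₀ J, x ∈ J := by
    intro x hx
    induction hx using Submodule.span_induction with
    | mem x hx => exact hx
    | zero =>
      have := hmem 0 I.zero_mem
      simpa using this
    | add x y _ _ hx hy =>
      rw [hJ] at hx hy
      obtain ⟨a, ha, rfl⟩ := hx
      obtain ⟨b, hb, rfl⟩ := hy
      exact hmem (a + b) (I.add_mem ha hb)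
    | smul c x _ hx =>
      rw [hJ] at hx
      obtain ⟨a, ha, rfl⟩ := hx
      have h2 := hmem (algebraMap k₀ _ c * a) (I.mul_mem_left _ _ ha)
      rw [← Algebra.smul_def] at h2
      exact h2
  -- the span over `k` is a two sided ideal
  have hL : ∀ r : R, ∀ x ∈ Submodule.span k J, r * x ∈ Submodule.span k J ∧ x * r ∈ Submodule.span k J := by
    intro r
    have hr : r ∈ Algebra.adjoin k Y := by
      rw [hY]
      trivial
    induction hr using Algebra.adjoin_induction with
    | mem r hr =>
      have hrS : r ∈ Algebra.adjoin k₀ Y := Algebra.subset_adjoin hr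
      intro x hx
      constructor
      · induction hx using Submodule.span_induction with
        | mem x hx =>
          rw [hJ] at hx
          obtain ⟨a, ha, rfl⟩ := hx
          exact Submodule.subset_span (hmem (⟨r, hrS⟩ * a) (I.mul_mem_left _ _ ha))
        | zero => rw [mul_zero]; exact Submodule.zero_mem _
        | add x y _ _ hx hy => rw [mul_add]; exact Submodule.add_mem _ hx hy
        | smul c x _ hx => rw [mul_smul_comm]; exact Submodule.smul_mem _ _ hx
      · induction hx using Submodule.span_induction with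
        | mem x hx =>
          rw [hJ] at hx
          obtain ⟨a, ha, rfl⟩ := hx
          exact Submodule.subset_span (hmem (a * ⟨r, hrS⟩) (I.mul_mem_right _ _ ha))
        | zero => rw [zero_mul]; exact Submodule.zero_mem _
        | add x y _ _ hx hy => rw [add_mul]; exact Submodule.add_mem _ hx hy
        | smul c x _ hx => rw [smul_mul_assoc]; exact Submodule.smul_mem _ _ hx
    | algebraMap c =>
      intro x hx
      rw [← Algebra.commutes, ← Algebra.smul_def]
      exact ⟨Submodule.smul_mem _ _ hx, Submodule.smul_mem _ _ hx⟩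
    | add a b _ _ ha hb =>
      intro x hx
      rw [add_mul, mul_add]
      exact ⟨Submodule.add_mem _ (ha x hx).1 (hb x hx).1, Submodule.add_mem _ (ha x hx).2 (hb x hx).2⟩
    | mul a b _ _ ha hb =>
      intro x hx
      rw [mul_assoc, ← mul_assoc x]
      exact ⟨(ha _ (hb x hx).1).1, (hb _ (ha x hx).2).2⟩
  have h1 : (1 : R) ∈ Submodule.span k J := by
    have h2 := IsSimpleRing.one_mem_of_ne_zero_mem (TwoSidedIdeal.mk' (Submodule.span k J : Set R)
      (Submodule.zero_mem _) (fun hx hy => Submodule.add_mem _ hx hy) (fun hx => Submodule.neg_mem _ hx)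
      (fun {x y} hy => (hL x y hy).1) (fun {x y} hx => (hL y x hx).2)) (x := (x : R)) (by
        intro h3
        exact hx2 (Subtype.ext h3)) (by
        rw [TwoSidedIdeal.mem_mk']
        exact Submodule.subset_span (hmem x hx1))
    rw [TwoSidedIdeal.mem_mk'] at h2
    exact h2
  have h3 := indep_cons k₀ (Algebra.adjoin k₀ Y : Set R) h (one_mem _) J hJS hsp h1
  rw [hJ] at h3
  obtain ⟨a, ha, ha1⟩ := h3
  have h4 : a = 1 := Subtype.ext ha1
  rw [← h4]
  exact ha

end Pool.Agent.Work.MP_16d7ed_al.GK
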