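import Pool.Agent.Work.MP_16d7ed_al.GK.BiK

/-!
# MODULE Eig (M): right multiplications on `Ω ⊗ D`

`K = RatFunc k`, `W = Ω ⊗[K] D` (left structure), `Rr Ω d : W → W` is right multiplication by `d` (`Ω`-linear), `y = yy k D`.
Facts: `Rr (d * d') = Rr d' ∘ Rr d`, `Rr (d + d') = Rr d + Rr d'`, `Rr 1 = id`, `Rr d (1 ⊗ a) = 1 ⊗ (a * d)`, and for `α : k` `Rr (algebraMap k D α)` is
multiplication by `α` (`k` is central in `D` and the scalar towers).

PROOF of `mulList`. Induction on `l` for all `w`. Write `Q = Σ_j C f_j X^j`, so `Σ_j f_j(y) b y^j = 0` (`bi_apply`), hence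
(*) `Σ_j (Rr y)^j (Rr b (Rr (f_j(y)) v)) = 0` for all `v ∈ W`. `l = []`: `w = 0`. `l = μ :: l'`: put `w' = (Rr y - μ) w`; it is killed by the product for `l'`, and so is
`g(Rr y) w'` for every `g ∈ Ω[X]` (commuting). `Rr (f(y)) w = f(Rr y) w`, and `f(Rr y) w - f(μ) w = g(Rr y) w'` with `g = (f - f(μ)) / (X - μ)`. By (*)
`Q(μ, Rr y) (Rr b w) = Σ_j (Rr y)^j Rr b (f_j(μ) w) = - Σ_j (Rr y)^j Rr b (g_j(Rr y) w')`. By the induction hypothesis `Π_{l'} Q(ν, Rr y)` kills each
`Rr b (g_j(Rr y) w')`, and it commutes with `Rr y`. So the product for `l` kills `Rr b w`.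

PROOF of `eigMul`. `w ≠ 0`, `Rr y w = μ w`. `μ` is transcendental over `k`: if `f(μ) = 0`, `0 ≠ f ∈ k[X]`, then `Rr (f(y)) w = f(μ) w = 0`; but `f(y)` is a
unit of `D` (`f(y) = (algebraMap f) • 1 ≠ 0`: `c • 1 = 0` with `c ≠ 0` gives `1 = c⁻¹ • c • 1 = 0`), so `Rr (f(y))` is invertible and `w = 0`. Hence there is a
field homomorphism `τ : RatFunc k → Ω` over `k` with `τ X = μ`. For `c ∈ RatFunc k`: `Rr (c • 1) w = τ(c) w` (for `c = f/g`: `Rr (g(y)) (Rr (c • 1) w) = Rr (f(y)) w`,
as `(c • 1) * g(y) = f(y)`, and `Rr (g(y))` is injective and commutes with...; `Rr (g(y)) (τ(c) w) = τ(c) g(μ) w = f(μ) w`). If `Q = Σ_j C c_j X^j` kills `b`, i.e.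
`Σ_j c_j • (b y^j) = Σ_j (c_j • 1) b y^j = 0`, then `0 = Σ_j (Rr y)^j Rr b Rr (c_j • 1) w = Σ_j τ(c_j) (Rr y)^j Rr b w`.
-/

set_option autoImplicit false

open Polynomial Module

namespace Pool.Agent.Work.MP_16d7ed_al.GK

open scoped TensorProduct

variable {k D : Type*} [Field k] [DivisionRing D] [Algebra k D] [Module (RatFunc k) D]
  [IsScalarTower (RatFunc k) D D] [IsScalarTower k (RatFunc k) D]
  (Ω : Type*) [Field Ω] [Algebra k Ω] [Algebra (RatFunc k) Ω] [IsScalarTower k (RatFunc k) Ω]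

/-- right multiplication by `d` on `Ω ⊗ D` -/
noncomputable def Rr (d : D) : Module.End Ω (Ω ⊗[RatFunc k] D) :=
  (LinearMap.mulRight (RatFunc k) d).baseChange Ω

private theorem rr_tmul (d : D) (z : Ω) (a : D) :
    Rr (k := k) Ω d (z ⊗ₜ[RatFunc k] a) = z ⊗ₜ[RatFunc k] (a * d) := by
  unfold Rr
  rw [LinearMap.baseChange_tmul, LinearMap.mulRight_apply]

private theorem rr_mul (d d' : D) :
    Rr (k := k) Ω (d * d') = Rr (k := k) Ω d' * Rr (k := k) Ω d := by
  refine LinearMap.ext fun w => ?_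
  rw [Module.End.mul_apply]
  induction w using TensorProduct.induction_on with
  | zero => rw [map_zero, map_zero, map_zero]
  | tmul z a => rw [rr_tmul, rr_tmul, rr_tmul, mul_assoc]
  | add x y hx hy => rw [map_add, map_add, map_add, hx, hy]

private theorem rr_add (d d' : D) :
    Rr (k := k) Ω (d + d') = Rr (k := k) Ω d + Rr (k := k) Ω d' := by
  refine LinearMap.ext fun w => ?_
  rw [LinearMap.add_apply]
  induction w using TensorProduct.induction_on with
  | zero => rw [map_zero, map_zero, map_zero, add_zero]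
  | tmul z a => rw [rr_tmul, rr_tmul, rr_tmul, mul_add, TensorProduct.tmul_add]
  | add x y hx hy =>
    rw [map_add, map_add, map_add, hx, hy]
    abel

private theorem rr_one : Rr (k := k) Ω (1 : D) = 1 := by
  refine LinearMap.ext fun w => ?_
  rw [Module.End.one_apply]
  induction w using TensorProduct.induction_on with
  | zero => rw [map_zero]
  | tmul z a => rw [rr_tmul, mul_one]
  | add x y hx hy => rw [map_add, hx, hy]

private noncomputable def rrH : D →+ Module.End Ω (Ω ⊗[RatFunc k] D) where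
  toFun d := Rr (k := k) Ω d
  map_zero' := by
    refine LinearMap.ext fun w => ?_
    rw [LinearMap.zero_apply]
    induction w using TensorProduct.induction_on with
    | zero => rw [map_zero]
    | tmul z a => rw [rr_tmul, mul_zero, TensorProduct.tmul_zero]
    | add x y hx hy => rw [map_add, hx, hy, add_zero]
  map_add' := rr_add Ω

private theorem rr_pow (d : D) (n : ℕ) : Rr (k := k) Ω (d ^ n) = Rr (k := k) Ω d ^ n := by
  induction n with
  | zero => rw [pow_zero, pow_zero, rr_one]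
  | succ n ih => rw [pow_succ', rr_mul, ih, pow_succ]

private theorem rr_alg (α : k) : Rr (k := k) Ω (algebraMap k D α) =
    algebraMap Ω (Module.End Ω (Ω ⊗[RatFunc k] D)) (algebraMap k Ω α) := by
  refine LinearMap.ext fun w => ?_
  rw [Module.algebraMap_end_apply]
  induction w using TensorProduct.induction_on with
  | zero => rw [map_zero, smul_zero]
  | tmul z a =>
    rw [rr_tmul, ← Algebra.commutes, ← Algebra.smul_def, ← algebraMap_smul (RatFunc k) α a,
      ← TensorProduct.smul_tmul, TensorProduct.smul_tmul', algebraMap_smul (RatFunc k) α z,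
      algebraMap_smul Ω α z]
  | add x y hx hy => rw [map_add, hx, hy, smul_add]

private theorem rr_aeval (f : k[X]) : Rr (k := k) Ω (aeval (yy k D) f) =
    aeval (Rr (k := k) Ω (yy k D)) (f.map (algebraMap k Ω)) := by
  induction f using Polynomial.induction_on with
  | C a => rw [aeval_C, rr_alg, Polynomial.map_C, aeval_C]
  | add p q hp hq => rw [map_add, rr_add, hp, hq, Polynomial.map_add, map_add]
  | monomial n a h =>
    rw [pow_succ, ← mul_assoc, map_mul, aeval_X, rr_mul, h,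
      Polynomial.map_mul (p := C a * X ^ n) (q := X) (algebraMap k Ω), Polynomial.map_X,
      mul_comm (Polynomial.map (algebraMap k Ω) (C a * X ^ n)) X, map_mul, aeval_X]

private theorem bi_E (b : D) (Q : k[X][X]) (hb : bi k (yy k D) Q b = 0) :
    ∑ j ∈ Q.support, Rr (k := k) Ω (yy k D) ^ j * (Rr (k := k) Ω b *
      aeval (Rr (k := k) Ω (yy k D)) ((Q.coeff j).map (algebraMap k Ω))) = 0 := by
  have h1 : rrH (k := k) Ω (bi k (yy k D) Q b) = 0 := by rw [hb, map_zero]
  rw [bi_apply, Polynomial.sum_def, map_sum] at h1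
  rw [← h1]
  refine Finset.sum_congr rfl fun j _ => ?_
  show _ = Rr (k := k) Ω _
  rw [rr_mul, rr_mul, rr_pow, rr_aeval]

private theorem step_E (b : D) (Q : k[X][X]) (hb : bi k (yy k D) Q b = 0) (μ : Ω) :
    ∃ g : ℕ → Polynomial Ω, aeval (Rr (k := k) Ω (yy k D))
      (Q.map ((aeval μ : k[X] →ₐ[k] Ω) : k[X] →+* Ω)) * Rr (k := k) Ω b +
      ∑ j ∈ Q.support, Rr (k := k) Ω (yy k D) ^ j * (Rr (k := k) Ω b *
        (aeval (Rr (k := k) Ω (yy k D)) (g j) * aeval (Rr (k := k) Ω (yy k D)) (X - C μ))) = 0 := by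
  have h1 : ∀ j : ℕ, ∃ g : Polynomial Ω, (Q.coeff j).map (algebraMap k Ω) =
      C (aeval μ (Q.coeff j)) + g * (X - C μ) := by
    intro j
    obtain ⟨g, hg⟩ := Polynomial.X_sub_C_dvd_sub_C_eval (a := μ)
      (p := (Q.coeff j).map (algebraMap k Ω))
    refine ⟨g, ?_⟩
    rw [mul_comm g, ← hg, Polynomial.eval_map_algebraMap, add_sub_cancel]
  choose g hg using h1
  refine ⟨g, ?_⟩
  have h2 := bi_E Ω b Q hb
  rw [← h2]
  have h3 : aeval (Rr (k := k) Ω (yy k D)) (Q.map ((aeval μ : k[X] →ₐ[k] Ω) : k[X] →+* Ω)) *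
      Rr (k := k) Ω b = ∑ j ∈ Q.support, Rr (k := k) Ω (yy k D) ^ j * (Rr (k := k) Ω b *
        aeval (Rr (k := k) Ω (yy k D)) (C (aeval μ (Q.coeff j)))) := by
    rw [aeval_def, Polynomial.eval₂_map, Polynomial.eval₂_eq_sum, Polynomial.sum_def,
      Finset.sum_mul]
    refine Finset.sum_congr rfl fun j _ => ?_
    rw [aeval_C, ← Algebra.commutes (aeval μ (Q.coeff j)) (Rr (k := k) Ω b), ← mul_assoc,
      ← Algebra.commutes (aeval μ (Q.coeff j)) (Rr (k := k) Ω (yy k D) ^ j)]
    rfl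
  rw [h3, ← Finset.sum_add_distrib]
  refine Finset.sum_congr rfl fun j _ => ?_
  rw [hg j, map_add, map_mul, mul_add, mul_add]

theorem mulList (b : D) (Q : k[X][X]) (hb : bi k (yy k D) Q b = 0) (l : List Ω) (w : Ω ⊗[RatFunc k] D)
    (hw : aeval (Rr (k := k) Ω (yy k D)) (l.map fun μ => X - C μ).prod w = 0) :
    aeval (Rr (k := k) Ω (yy k D))
      (l.map fun μ => Q.map ((aeval μ : k[X] →ₐ[k] Ω) : k[X] →+* Ω)).prod (Rr (k := k) Ω b w) = 0 := by
  induction l generalizing w with
  | nil =>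
    rw [List.map_nil, List.prod_nil, map_one, Module.End.one_apply] at hw
    rw [hw, map_zero, map_zero]
  | cons μ l ih =>
    rw [List.map_cons, List.prod_cons, mul_comm, map_mul, Module.End.mul_apply] at hw
    obtain ⟨g, hg⟩ := step_E Ω b Q hb μ
    have hg1 := LinearMap.congr_fun hg w
    rw [LinearMap.add_apply, Module.End.mul_apply, LinearMap.zero_apply] at hg1
    rw [List.map_cons, List.prod_cons, mul_comm, map_mul, Module.End.mul_apply,
      eq_neg_of_add_eq_zero_left hg1, map_neg, LinearMap.sum_apply, map_sum, neg_eq_zero]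
    refine Finset.sum_eq_zero fun j _ => ?_
    rw [Module.End.mul_apply, Module.End.mul_apply, Module.End.mul_apply]
    have h1 := ih (aeval (Rr (k := k) Ω (yy k D)) (g j)
      (aeval (Rr (k := k) Ω (yy k D)) (X - C μ) w)) (by
        rw [← Module.End.mul_apply, ← map_mul, mul_comm, map_mul, Module.End.mul_apply, hw,
          map_zero])
    rw [← Module.End.mul_apply (aeval (Rr (k := k) Ω (yy k D)) _),
      ← aeval_X_pow (R := Ω) (Rr (k := k) Ω (yy k D)), ← map_mul, mul_comm, map_mul,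
      Module.End.mul_apply, h1, map_zero]

theorem eigMul (w : Ω ⊗[RatFunc k] D) (hw0 : w ≠ 0) (μ : Ω) (hw : Rr (k := k) Ω (yy k D) w = μ • w) :
    ∃ τ : RatFunc k →+* Ω, ∀ (b : D) (Q : (RatFunc k)[X]),
      aeval (LinearMap.mulRight (RatFunc k) (yy k D)) Q b = 0 →
      aeval (Rr (k := k) Ω (yy k D)) (Q.map τ) (Rr (k := k) Ω b w) = 0 := by
  have hpw : ∀ n : ℕ, (Rr (k := k) Ω (yy k D) ^ n) w = μ ^ n • w := by
    intro n
    induction n with
    | zero => rw [pow_zero, pow_zero, Module.End.one_apply, one_smul]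
    | succ n ih => rw [pow_succ, Module.End.mul_apply, hw, map_smul, ih, smul_smul, pow_succ']
  have hpol : ∀ q : Polynomial Ω, aeval (Rr (k := k) Ω (yy k D)) q w = (q.eval μ) • w := by
    intro q
    rw [aeval_def, Polynomial.eval₂_eq_sum, Polynomial.sum_def, LinearMap.sum_apply,
      Polynomial.eval_eq_sum, Polynomial.sum_def, Finset.sum_smul]
    refine Finset.sum_congr rfl fun j _ => ?_
    rw [Module.End.mul_apply, hpw, Module.algebraMap_end_apply, smul_smul]
  have hfy : ∀ f : k[X], Rr (k := k) Ω (aeval (yy k D) f) w = (aeval μ f : Ω) • w := by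
    intro f
    rw [rr_aeval, hpol, Polynomial.eval_map_algebraMap]
  have hinj : ∀ f : k[X], f ≠ 0 → ∀ v : Ω ⊗[RatFunc k] D,
      Rr (k := k) Ω (aeval (yy k D) f) v = 0 → v = 0 := by
    intro f hf v hv
    have h1 : aeval (yy k D) f ≠ 0 := by
      rw [← aeval_smul_one]
      intro h2
      have h3 : (algebraMap k[X] (RatFunc k) f) ≠ 0 := by
        intro h4
        exact hf ((FaithfulSMul.algebraMap_eq_zero_iff k[X] (RatFunc k)).1 h4)
      have h4 : (1 : D) = 0 := by
        rw [← one_smul (RatFunc k) (1 : D), ← inv_mul_cancel₀ h3, mul_smul, h2, smul_zero]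
      exact one_ne_zero h4
    have h5 : Rr (k := k) Ω (aeval (yy k D) f * (aeval (yy k D) f)⁻¹) v = 0 := by
      rw [rr_mul, Module.End.mul_apply, hv, map_zero]
    rw [mul_inv_cancel₀ h1, rr_one] at h5
    exact h5
  have hμ : ∀ f : k[X], f ≠ 0 → (aeval μ f : Ω) ≠ 0 := by
    intro f hf h1
    exact hw0 (hinj f hf w (by rw [hfy, h1, zero_smul]))
  have hti : Function.Injective ((aeval μ : k[X] →ₐ[k] Ω) : k[X] →+* Ω) := by
    rw [injective_iff_map_eq_zero]
    intro f hf
    by_contra h1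
    exact hμ f h1 hf
  obtain ⟨τ, hτ⟩ : ∃ τ : RatFunc k →+* Ω, ∀ f : k[X],
      τ (algebraMap k[X] (RatFunc k) f) = aeval μ f :=
    ⟨IsFractionRing.lift hti, fun f => IsFractionRing.lift_algebraMap hti f⟩
  have hc : ∀ c : RatFunc k, Rr (k := k) Ω (c • (1 : D)) w = τ c • w := by
    intro c
    obtain ⟨f, g, hg, rfl⟩ := IsFractionRing.div_surjective (A := k[X]) c
    have hg0 : g ≠ 0 := nonZeroDivisors.ne_zero hg
    have hgK : algebraMap k[X] (RatFunc k) g ≠ 0 := by
      intro h4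
      exact hg0 ((FaithfulSMul.algebraMap_eq_zero_iff k[X] (RatFunc k)).1 h4)
    have h1 : ((algebraMap k[X] (RatFunc k) f / algebraMap k[X] (RatFunc k) g) • (1 : D)) *
        aeval (yy k D) g = aeval (yy k D) f := by
      rw [smul_mul_assoc, one_mul, ← aeval_smul_one, ← aeval_smul_one, smul_smul,
        div_mul_cancel₀ _ hgK]
    have h2 := hfy f
    rw [← h1, rr_mul, Module.End.mul_apply] at h2
    have h3 : (aeval μ f : Ω) = τ (algebraMap k[X] (RatFunc k) f / algebraMap k[X] (RatFunc k) g) *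
        aeval μ g := by
      rw [map_div₀, hτ, hτ, div_mul_cancel₀ _ (hμ g hg0)]
    rw [h3, mul_smul, ← hfy g, ← map_smul, ← sub_eq_zero, ← map_sub] at h2
    exact sub_eq_zero.1 (hinj g hg0 _ h2)
  refine ⟨τ, fun b Q hQ => ?_⟩
  have h1 : rrH (k := k) Ω (aeval (LinearMap.mulRight (RatFunc k) (yy k D)) Q b) w = 0 := by
    rw [hQ, map_zero]
    rfl
  rw [aeval_def, Polynomial.eval₂_eq_sum, Polynomial.sum_def, LinearMap.sum_apply, map_sum,
    LinearMap.sum_apply] at h1
  rw [aeval_def, Polynomial.eval₂_map, Polynomial.eval₂_eq_sum, Polynomial.sum_def,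
    LinearMap.sum_apply, ← h1]
  refine Finset.sum_congr rfl fun j _ => ?_
  have h2 : (algebraMap (RatFunc k) (Module.End (RatFunc k) D) (Q.coeff j) *
      LinearMap.mulRight (RatFunc k) (yy k D) ^ j) b = (Q.coeff j • (1 : D)) * (b * yy k D ^ j) := by
    rw [Module.End.mul_apply, Module.algebraMap_end_apply, LinearMap.pow_mulRight,
      LinearMap.mulRight_apply, smul_mul_assoc, one_mul]
  rw [h2]
  show _ = Rr (k := k) Ω _ w
  rw [rr_mul, rr_mul, rr_pow, Module.End.mul_apply, Module.End.mul_apply, hc, map_smul]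
  rfl

end Pool.Agent.Work.MP_16d7ed_al.GK
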