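import Pool.Agent.Work.MP_16d7ed_al.GK.Defs

/-!
# MODULE FinFrac (S-M): fractions of a finite dimensional span

PROOF of `finFrac`. `U = span_K S`. For `0 ≠ r ∈ S` right multiplication by `r` maps `U` into `U` (`(c • s) * r = c • (s r)`), is `K`-linear and injective, hence bijective on the
finite dimensional space `U`; `1 ∈ U`, so there is `e ∈ U` with `e r = 1`, i.e. `r⁻¹ ∈ U`. For `d ∈ D`: `b * d = s ∈ S`, `b ∈ S`, `b ≠ 0`: `d = b⁻¹ s ∈ U * s ⊆ U`.
PROOF of `finBdd`. `1 ∈ W`, so `W^n ⊆ W^(n+1)`; the dimensions are bounded by `C`, so `W^m = W^(m+1) = ..` from some `m` on; `S = ` the subring `⋃ W^n = W^m` (as `Algebra.adjoin Z W` or by hand). Apply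
`finFrac` with `K = Z` (or repeat the argument): `W^m = ⊤`, so `D` is finite dimensional over `Z`.
-/

set_option autoImplicit false

open Polynomial Module

namespace Pool.Agent.Work.MP_16d7ed_al.GK

theorem finFrac {K D : Type*} [Field K] [DivisionRing D] [Module K D] [IsScalarTower K D D] (S : Subring D)
    (hfr : ∀ d : D, ∃ b ∈ S, b ≠ 0 ∧ b * d ∈ S)
    (hfin : FiniteDimensional K (Submodule.span K (S : Set D))) : Submodule.span K (S : Set D) = ⊤ := by
  classical
  have h1U : (1 : D) ∈ Submodule.span K (S : Set D) := Submodule.subset_span S.one_mem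
  have hmul : ∀ r ∈ S, ∀ x ∈ Submodule.span K (S : Set D), x * r ∈ Submodule.span K (S : Set D) := by
    intro r hr x hx
    induction hx using Submodule.span_induction with
    | mem x hx => exact Submodule.subset_span (S.mul_mem hx hr)
    | zero => simp
    | add x y _ _ hx hy => rw [add_mul]; exact Submodule.add_mem _ hx hy
    | smul c x _ hx => rw [smul_mul_assoc]; exact Submodule.smul_mem _ c hx
  have hinv : ∀ r ∈ S, r ≠ 0 → r⁻¹ ∈ Submodule.span K (S : Set D) := by
    intro r hr h0
    let f : Submodule.span K (S : Set D) →ₗ[K] Submodule.span K (S : Set D) :=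
      (LinearMap.mulRight K r).restrict (fun x hx => hmul r hr x hx)
    have hf : Function.Injective f := by
      intro x y hxy
      have h2 : (x : D) * r = y * r := congrArg Subtype.val hxy
      exact Subtype.ext (mul_right_cancel₀ h0 h2)
    have hs : Function.Surjective f := LinearMap.injective_iff_surjective.1 hf
    obtain ⟨e, he⟩ := hs ⟨1, h1U⟩
    have h3 : (e : D) * r = 1 := congrArg Subtype.val he
    rw [← eq_inv_of_mul_eq_one_left h3]
    exact e.2
  rw [eq_top_iff]
  intro d _
  obtain ⟨b, hb, hb0, hbd⟩ := hfr d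
  have h4 : d = b⁻¹ * (b * d) := by rw [inv_mul_cancel_left₀ hb0]
  rw [h4]
  exact hmul _ hbd _ (hinv b hb hb0)

theorem finBdd {Z D : Type*} [Field Z] [DivisionRing D] [Algebra Z D] (W : Submodule Z D) (hW : W.FG)
    (h1 : (1 : D) ∈ W) (C : ℕ) (hC : ∀ n : ℕ, finrank Z (W ^ n : Submodule Z D) ≤ C)
    (hfr : ∀ d : D, ∃ b : D, b ≠ 0 ∧ ∃ n : ℕ, b ∈ W ^ n ∧ b * d ∈ W ^ n) : Module.Finite Z D := by
  classical
  have hone : ∀ n : ℕ, (1 : Submodule Z D) ≤ W ^ n := by
    intro n
    induction n with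
    | zero => rw [pow_zero]
    | succ n ih =>
      rw [pow_succ]
      calc (1 : Submodule Z D) = 1 * 1 := (one_mul 1).symm
        _ ≤ W ^ n * W := mul_le_mul' ih (Submodule.one_le.2 h1)
  have hmono : ∀ m n : ℕ, W ^ n ≤ W ^ (m + n) := by
    intro m n
    rw [pow_add]
    calc W ^ n = 1 * W ^ n := (one_mul _).symm
      _ ≤ W ^ m * W ^ n := mul_le_mul' (hone m) le_rfl
  have hfin : ∀ n : ℕ, FiniteDimensional Z (W ^ n : Submodule Z D) := fun n =>
    Module.Finite.iff_fg.2 (hW.pow n)
  obtain ⟨m, hm⟩ : ∃ m : ℕ, ∀ n : ℕ, finrank Z (W ^ n : Submodule Z D) ≤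
      finrank Z (W ^ m : Submodule Z D) := by
    by_contra hcon
    push Not at hcon
    have hgrow : ∀ j : ℕ, ∃ n : ℕ, j ≤ finrank Z (W ^ n : Submodule Z D) := by
      intro j
      induction j with
      | zero => exact ⟨0, Nat.zero_le _⟩
      | succ j ih =>
        obtain ⟨n, hn⟩ := ih
        obtain ⟨n', hn'⟩ := hcon n
        exact ⟨n', by omega⟩
    obtain ⟨n, hn⟩ := hgrow (C + 1)
    have := hC n
    omega
  have hle : ∀ n : ℕ, W ^ n ≤ W ^ m := by
    intro n
    have h2 : W ^ m = W ^ (n + m) :=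
      Submodule.eq_of_le_of_finrank_le (hmono n m) (hm _)
    rw [h2, add_comm]
    exact hmono m n
  let S : Subring D :=
    { carrier := (W ^ m : Submodule Z D)
      mul_mem' := fun {x y} hx hy => hle (m + m) (by
        rw [pow_add]; exact Submodule.mul_mem_mul hx hy)
      one_mem' := hone m (Submodule.one_le.1 le_rfl)
      add_mem' := fun {x y} hx hy => Submodule.add_mem _ hx hy
      zero_mem' := Submodule.zero_mem _
      neg_mem' := fun {x} hx => Submodule.neg_mem _ hx }
  have hS : Submodule.span Z (S : Set D) = W ^ m := Submodule.span_eq (W ^ m)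
  have h3 := finFrac (K := Z) S (fun d => by
    obtain ⟨b, hb, n, hbn, hbd⟩ := hfr d
    exact ⟨b, hle n hbn, hb, hle n hbd⟩) (by rw [hS]; exact hfin m)
  rw [hS] at h3
  rw [Module.finite_def, ← h3]
  exact hW.pow m

end Pool.Agent.Work.MP_16d7ed_al.GK
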