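import Pool.Agent.Work.MP_16d7ed_al.GK.Defs

/-!
# MODULE NotSimple (M-L): noncommutative Artin-Tate and Zariski's lemma

PROOF. (1) `algebraMap Z D c ∈ S` for all `c ∈ Z`: by `hfr` there is `0 ≠ b ∈ S` with `b c ∈ S`. `I = {r ∈ S : r c ∈ S}` is a two sided ideal of `S` (`(r' r) c = r' (r c)`, `(r r') c = (r c) r'` as `c` is
central), nonzero, so `1 ∈ I` by simplicity, i.e. `c ∈ S`. (2) So `S` is a `Z`-subspace of `D`, finite dimensional, closed under multiplication. Let `e_1, .., e_n` be a `Z`-basis of `S` (or just a spanning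
set; include `1` or not), `g_1, .., g_m` generators of the `k`-algebra `S`: `e_i e_j = Σ_l c_ijl e_l`, `g_a = Σ_i c_ai e_i`, `1 = Σ_i c_i e_i`, all coefficients in `Z`. Let `Z₀ ⊆ Z` be the `k`-subalgebra generated by the
(finitely many) coefficients: a finitely generated commutative `k`-algebra, noetherian. `Σ Z₀ e_i` contains `1`, the `g_a`, and is closed under multiplication, so it is `S`. So `S` is a finite
`Z₀`-module, and `Z`, embedded in `S` by (1), is a `Z₀`-submodule, hence finite over `Z₀`; so `Z` is a finitely generated `k`-algebra (`Algebra.FiniteType`, transitivity). (3) By Zariski's lemma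
(`finite_of_finite_type_of_isJacobsonRing` or similar in Mathlib) the field `Z` is finite over `k`, so `z` is algebraic: contradiction.
-/

set_option autoImplicit false

open Polynomial Module

namespace Pool.Agent.Work.MP_16d7ed_al.GK

section aux

variable {k Z D : Type*} [Field k] [Field Z] [Algebra k Z] [DivisionRing D] [Algebra k D] [Algebra Z D]
    [IsScalarTower k Z D]

private theorem central_mem (S : Subalgebra k D)
    (hfr : ∀ d : D, ∃ b ∈ S, b ≠ 0 ∧ b * d ∈ S) (hsim : IsSimpleRing S) (c : Z) : algebraMap Z D c ∈ S := by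
  let I : TwoSidedIdeal S := TwoSidedIdeal.mk' {r : S | (r : D) * algebraMap Z D c ∈ S}
    (by
      show ((0 : S) : D) * algebraMap Z D c ∈ S
      rw [ZeroMemClass.coe_zero, zero_mul]
      exact zero_mem S)
    (by
      intro x y hx hy
      show ((x + y : S) : D) * algebraMap Z D c ∈ S
      rw [Subalgebra.coe_add, add_mul]
      exact add_mem hx hy)
    (by
      intro x hx
      show ((-x : S) : D) * algebraMap Z D c ∈ S
      rw [NegMemClass.coe_neg, neg_mul]
      exact neg_mem hx)
    (by
      intro x y hy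
      show ((x * y : S) : D) * algebraMap Z D c ∈ S
      rw [Subalgebra.coe_mul, mul_assoc]
      exact mul_mem x.2 hy)
    (by
      intro x y hx
      show ((x * y : S) : D) * algebraMap Z D c ∈ S
      rw [Subalgebra.coe_mul, mul_assoc, ← Algebra.commutes, ← mul_assoc]
      exact mul_mem hx y.2)
  have hI : ∀ x : S, x ∈ I ↔ (x : D) * algebraMap Z D c ∈ S := fun x => TwoSidedIdeal.mem_mk' _ _ _ _ _ _ x
  obtain ⟨b, hbS, hb, hbc⟩ := hfr (algebraMap Z D c)
  have hne : I ≠ ⊥ := by
    intro h0
    have h1 : (⟨b, hbS⟩ : S) ∈ I := (hI _).2 hbc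
    rw [h0, TwoSidedIdeal.mem_bot] at h1
    exact hb (congrArg Subtype.val h1)
  have htop : I = ⊤ := (hsim.simple.eq_bot_or_eq_top I).resolve_left hne
  have h1 : (1 : S) ∈ I := by
    rw [htop]
    trivial
  have h2 := (hI 1).1 h1
  rwa [Subalgebra.coe_one, one_mul] at h2

end aux

theorem notSimple {k Z D : Type*} [Field k] [Field Z] [Algebra k Z] [DivisionRing D] [Algebra k D] [Algebra Z D]
    [IsScalarTower k Z D] [Module.Finite Z D] (z : Z) (hz : Transcendental k z) (S : Subalgebra k D) (hS : S.FG)
    (hfr : ∀ d : D, ∃ b ∈ S, b ≠ 0 ∧ b * d ∈ S) (hsim : IsSimpleRing S) : False := by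
  classical
  have hZS : ∀ c : Z, algebraMap Z D c ∈ S := central_mem S hfr hsim
  -- `S` as a `Z`-subspace
  let W : Submodule Z D :=
    { carrier := S
      zero_mem' := zero_mem S
      add_mem' := fun ha hb => add_mem ha hb
      smul_mem' := fun c x hx => by
        show c • x ∈ S
        rw [Algebra.smul_def]
        exact mul_mem (hZS c) hx }
  have hWmem : ∀ x, x ∈ W ↔ x ∈ S := fun x => Iff.rfl
  have hW : W.FG := IsNoetherian.noetherian W
  obtain ⟨n, e, he⟩ := Submodule.fg_iff_exists_fin_generating_family.1 hW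
  have hexp : ∀ x ∈ S, ∃ c : Fin n → Z, ∑ i, c i • e i = x := by
    intro x hx
    have : x ∈ Submodule.span Z (Set.range e) := by
      rw [he]
      exact (hWmem x).2 hx
    exact (Submodule.mem_span_range_iff_exists_fun Z).1 this
  have heS : ∀ i, e i ∈ S := by
    intro i
    apply (hWmem _).1
    rw [← he]
    exact Submodule.subset_span ⟨i, rfl⟩
  obtain ⟨t, ht⟩ := hS
  have htS : ∀ g ∈ t, g ∈ S := by
    intro g hg
    rw [← ht]
    exact Algebra.subset_adjoin hg
  choose cm hcm using fun p : Fin n × Fin n => hexp (e p.1 * e p.2) (mul_mem (heS _) (heS _))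
  choose cg hcg using fun g : t => hexp (g : D) (htS g g.2)
  obtain ⟨c1, hc1⟩ := hexp 1 (one_mem S)
  let F : Set Z := (Set.range fun p : (Fin n × Fin n) × Fin n => cm p.1 p.2) ∪
    (Set.range fun p : t × Fin n => cg p.1 p.2) ∪ Set.range c1
  have hF : F.Finite := ((Set.finite_range _).union (Set.finite_range _)).union (Set.finite_range _)
  let Z₀ : Subalgebra k Z := Algebra.adjoin k F
  have hZ₀ : Z₀.FG := Subalgebra.fg_adjoin_finset hF.toFinset |> fun h => by
    rwa [Set.Finite.coe_toFinset] at h
  have hft : Algebra.FiniteType k Z₀ := Subalgebra.fg_iff_finiteType Z₀ |>.1 hZ₀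
  have hnoeth : IsNoetherianRing Z₀ := Algebra.FiniteType.isNoetherianRing k Z₀
  have hFmem : ∀ f ∈ F, f ∈ Z₀ := fun f hf => Algebra.subset_adjoin hf
  let M₀ : Submodule Z₀ D := Submodule.span Z₀ (Set.range e)
  have hcomb : ∀ c : Fin n → Z, (∀ i, c i ∈ Z₀) → ∑ i, c i • e i ∈ M₀ := by
    intro c hc
    apply Submodule.sum_mem
    intro i _
    have : c i • e i = (⟨c i, hc i⟩ : Z₀) • e i := rfl
    rw [this]
    exact Submodule.smul_mem _ _ (Submodule.subset_span ⟨i, rfl⟩)
  have hmulM : ∀ a ∈ M₀, ∀ b ∈ M₀, a * b ∈ M₀ := by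
    intro a ha b hb
    induction ha using Submodule.span_induction with
    | mem a ha =>
      obtain ⟨i, rfl⟩ := ha
      induction hb using Submodule.span_induction with
      | mem b hb =>
        obtain ⟨j, rfl⟩ := hb
        rw [← hcm (i, j)]
        exact hcomb _ fun l => hFmem _ (Or.inl (Or.inl ⟨((i, j), l), rfl⟩))
      | zero => rw [mul_zero]; exact Submodule.zero_mem _
      | add b b' _ _ h h' => rw [mul_add]; exact Submodule.add_mem _ h h'
      | smul c b _ h =>
        have : e i * (c • b) = c • (e i * b) := by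
          have h3 : ∀ x : D, c • x = (c : Z) • x := fun x => rfl
          rw [h3, h3, mul_smul_comm]
        rw [this]
        exact Submodule.smul_mem _ _ h
    | zero => rw [zero_mul]; exact Submodule.zero_mem _
    | add b b' _ _ h h' => rw [add_mul]; exact Submodule.add_mem _ h h'
    | smul c a _ h =>
      have : (c • a) * b = c • (a * b) := by
        have h3 : ∀ x : D, c • x = (c : Z) • x := fun x => rfl
        rw [h3, h3, smul_mul_assoc]
      rw [this]
      exact Submodule.smul_mem _ _ h
  have hone : (1 : D) ∈ M₀ := by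
    rw [← hc1]
    exact hcomb _ fun i => hFmem _ (Or.inr ⟨i, rfl⟩)
  have hSM : ∀ x ∈ S, x ∈ M₀ := by
    intro x hx
    rw [← ht] at hx
    induction hx using Algebra.adjoin_induction with
    | mem g hg =>
      have h5 : ∑ i, cg ⟨g, hg⟩ i • e i = g := hcg ⟨g, hg⟩
      rw [← h5]
      exact hcomb _ fun i => hFmem _ (Or.inl (Or.inr ⟨(⟨g, hg⟩, i), rfl⟩))
    | algebraMap c =>
      have : algebraMap k D c = (algebraMap k Z₀ c) • (1 : D) := by
        have h3 : ∀ (c : Z₀) (x : D), c • x = (c : Z) • x := fun _ _ => rfl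
        rw [h3, Algebra.smul_def, mul_one]
        exact IsScalarTower.algebraMap_apply k Z D c
      rw [this]
      exact Submodule.smul_mem _ _ hone
    | add x y _ _ h h' => exact Submodule.add_mem _ h h'
    | mul x y _ _ h h' => exact hmulM _ h _ h'
  -- `Z` is finite over `Z₀`
  have hM₀ : Module.Finite Z₀ M₀ := Module.Finite.span_of_finite _ (Set.finite_range e)
  have : IsNoetherian Z₀ M₀ := isNoetherian_of_isNoetherianRing_of_finite Z₀ M₀
  let φ : Z →ₗ[Z₀] M₀ :=
    { toFun := fun c => ⟨algebraMap Z D c, hSM _ (hZS c)⟩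
      map_add' := fun a b => Subtype.ext (map_add _ a b)
      map_smul' := fun a b => Subtype.ext (by
        show algebraMap Z D (a • b) = a • algebraMap Z D b
        have h3 : ∀ (c : Z₀) (x : D), c • x = (c : Z) • x := fun _ _ => rfl
        have h4 : a • b = (a : Z) * b := rfl
        rw [h3, h4, map_mul, Algebra.smul_def]) }
  have hφ : Function.Injective φ := by
    intro a b hab
    exact (algebraMap Z D).injective (congrArg Subtype.val hab)
  have hfinZ : Module.Finite Z₀ Z := Module.Finite.of_injective φ hφ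
  have hftZ : Algebra.FiniteType k Z := Algebra.FiniteType.trans hft inferInstance
  have hfin : Module.Finite k Z := finite_of_finite_type_of_isJacobsonRing k Z
  exact hz (Algebra.IsAlgebraic.isAlgebraic z)

end Pool.Agent.Work.MP_16d7ed_al.GK
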