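import Pool.Agent.Work.MP_16d7ed_al.GK.Defs

/-!
# MODULE OreF (S-M): the division ring of left fractions

PROOF of `oreFrac`. `h` gives an `OreLocalization.OreSet (nonZeroDivisors S)` (data: choose `oreNum`, `oreDenom` by choice; `ore_right_cancel` is trivial in a domain).
`D = OreLocalization (nonZeroDivisors S) S` is a division ring (Mathlib), a `k`-algebra, `f = OreLocalization.numeratorHom` is an injective algebra map, and every
element of `D` is `s /ₒ b`, `f b * (s /ₒ b) = f s`.
-/

set_option autoImplicit false

open Polynomial Module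

namespace Pool.Agent.Work.MP_16d7ed_al.GK

universe u

theorem oreFrac {k S : Type u} [Field k] [Ring S] [NoZeroDivisors S] [Nontrivial S] [Algebra k S]
    (h : ∀ a b : S, b ≠ 0 → ∃ u v : S, u ≠ 0 ∧ u * a = v * b) :
    ∃ (D : Type u) (_ : DivisionRing D) (_ : Algebra k D) (f : S →ₐ[k] D), Function.Injective f ∧
      ∀ d : D, ∃ b s : S, b ≠ 0 ∧ f b * d = f s := by
  classical
  choose u v hu huv using h
  let O : OreLocalization.OreSet (nonZeroDivisors S) :=
    { ore_right_cancel := fun r₁ r₂ s hs => ⟨1, by
        have := mul_right_cancel₀ (nonZeroDivisors.ne_zero s.2) hs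
        simp [this]⟩
      oreNum := fun r s => v r s (nonZeroDivisors.ne_zero s.2)
      oreDenom := fun r s => ⟨u r s (nonZeroDivisors.ne_zero s.2),
        mem_nonZeroDivisors_of_ne_zero (hu r s (nonZeroDivisors.ne_zero s.2))⟩
      ore_eq := fun r s => huv r s (nonZeroDivisors.ne_zero s.2) }
  refine ⟨OreLocalization (nonZeroDivisors S) S, inferInstance, inferInstance,
    { OreLocalization.numeratorRingHom with commutes' := fun r => ?_ }, ?_, ?_⟩
  · rfl
  · exact OreLocalization.numeratorHom_inj inf_le_left
  · intro d
    induction d using OreLocalization.ind with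
    | c r s =>
      refine ⟨s, r, nonZeroDivisors.ne_zero s.2, ?_⟩
      exact OreLocalization.mul_cancel (s := s) (t := 1) (r := r)

end Pool.Agent.Work.MP_16d7ed_al.GK
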