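import Pool.Agent.Work.MP_16d7ed_al.GK.Defs

/-!
# MODULE OreG (M): a domain of subexponential growth is left Ore

PROOF of `oreGrow`. If `a = 0` take `u = 1`, `v = 0`. Let `a ≠ 0`, `b ≠ 0` and suppose there are no `u ≠ 0`, `v` with `u a = v b`. Then `u a + v b = 0` implies `u = 0`, and then `v = 0` (`b ≠ 0`). Claim: for each `n` the
`2^n` words of length `n` in `a, b` are `k`-independent: induction on `n`: `0 = Σ_w c_w w` over words of length `n+1` ending in `a` or `b`: `0 = (Σ c_{w'a} w') a + (Σ c_{w'b} w') b`, so both sums vanish. If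
`a, b ∈ V^c` (they lie in some power, as `V` generates and `1 ∈ V`), the words of length `n` lie in `V^(c n)`, so `2^n ≤ finrank V^(c n) ≤ (c n)^3` for large `n` by `hg`: contradiction (`2^n` beats
every polynomial). (One may index the words by `Fin n → Bool` or `List.Vector`.)
-/

set_option autoImplicit false

open Polynomial Module

namespace Pool.Agent.Work.MP_16d7ed_al.GK

section aux

variable {k S : Type*} [Field k] [Ring S] [NoZeroDivisors S] [Nontrivial S] [Algebra k S]

/-- words of length `n` in `a`, `b` -/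
private def wd (a b : S) : (n : ℕ) → (Fin n → Bool) → S
  | 0, _ => 1
  | n + 1, g => wd a b n (Fin.tail g) * (if g 0 then a else b)

private theorem wd_mem (V : Submodule k S) (a b : S) (c : ℕ) (ha : a ∈ V ^ c) (hb : b ∈ V ^ c) :
    ∀ (n : ℕ) (g : Fin n → Bool), wd a b n g ∈ V ^ (c * n)
  | 0, _ => by
    rw [mul_zero, pow_zero]
    exact Submodule.one_le.1 le_rfl
  | n + 1, g => by
    rw [mul_add, mul_one, pow_add]
    refine Submodule.mul_mem_mul (wd_mem V a b c ha hb n (Fin.tail g)) ?_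
    split_ifs
    · exact ha
    · exact hb

private theorem wd_indep (a b : S) (h : ∀ u v : S, u * a + v * b = 0 → u = 0 ∧ v = 0) :
    ∀ n : ℕ, LinearIndependent k (wd a b n)
  | 0 => by
    rw [Fintype.linearIndependent_iff]
    intro g hg i
    have h1 : (∑ j, g j • wd a b 0 j) = g i • (1 : S) := by
      rw [Fintype.sum_eq_single i (fun j hj => absurd (Subsingleton.elim j i) hj)]
      rfl
    rw [h1, smul_eq_zero] at hg
    exact hg.resolve_right one_ne_zero
  | n + 1 => by
    have ih := Fintype.linearIndependent_iff.1 (wd_indep a b h n)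
    rw [Fintype.linearIndependent_iff]
    intro g hg
    have h1 : ∑ j, g j • wd a b (n + 1) j =
        (∑ i, g (Fin.cons true i) • wd a b n i) * a + (∑ i, g (Fin.cons false i) • wd a b n i) * b := by
      rw [← Fintype.sum_equiv (Fin.consEquiv fun _ : Fin (n + 1) => Bool)
        (fun p => g (Fin.cons p.1 p.2) • wd a b (n + 1) (Fin.cons p.1 p.2)) (fun j => g j • wd a b (n + 1) j)
        (fun p => rfl), Fintype.sum_prod_type, Fintype.sum_bool, Finset.sum_mul, Finset.sum_mul]
      congr 1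
      · refine Finset.sum_congr rfl fun i _ => ?_
        rw [smul_mul_assoc]
        rfl
      · refine Finset.sum_congr rfl fun i _ => ?_
        rw [smul_mul_assoc]
        rfl
    rw [h1] at hg
    obtain ⟨h2, h3⟩ := h _ _ hg
    have h4 := ih _ h2
    have h5 := ih _ h3
    intro j
    rw [← Fin.cons_self_tail j]
    cases j 0
    · exact h5 _
    · exact h4 _

private theorem mem_pow_of_adjoin (V : Submodule k S) (h1 : (1 : S) ∈ V) (x : S)
    (hx : x ∈ Algebra.adjoin k (V : Set S)) : ∃ n : ℕ, x ∈ V ^ n := by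
  have hmono : ∀ a b : ℕ, a ≤ b → V ^ a ≤ V ^ b := by
    intro a b hab
    obtain ⟨c, rfl⟩ := Nat.exists_eq_add_of_le hab
    rw [pow_add]
    intro x hx
    have h2 : (1 : S) ∈ V ^ c := by
      have := Submodule.pow_mem_pow V h1 c
      rwa [one_pow] at this
    have := Submodule.mul_mem_mul hx h2
    rwa [mul_one] at this
  induction hx using Algebra.adjoin_induction with
  | mem x hx => exact ⟨1, by rwa [pow_one]⟩
  | algebraMap r =>
    refine ⟨0, ?_⟩
    rw [pow_zero]
    exact Submodule.algebraMap_mem r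
  | add x y _ _ hx hy =>
    obtain ⟨n, hn⟩ := hx
    obtain ⟨m, hm⟩ := hy
    exact ⟨max n m, Submodule.add_mem _ (hmono _ _ (le_max_left _ _) hn) (hmono _ _ (le_max_right _ _) hm)⟩
  | mul x y _ _ hx hy =>
    obtain ⟨n, hn⟩ := hx
    obtain ⟨m, hm⟩ := hy
    refine ⟨n + m, ?_⟩
    rw [pow_add]
    exact Submodule.mul_mem_mul hn hm

private theorem exp_beats (c N : ℕ) : ∃ n : ℕ, N ≤ n ∧ (c * n) ^ 3 < 2 ^ n := by
  have h := isLittleO_pow_const_const_pow_of_one_lt (R := ℝ) 3 (r := 2) (by norm_num)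
  have h2 := h.bound (c := 1 / (2 * ((c : ℝ) ^ 3 + 1))) (by positivity)
  obtain ⟨n, hn, hnN⟩ := (h2.and (Filter.eventually_ge_atTop N)).exists
  refine ⟨n, hnN, ?_⟩
  have h3 : (n : ℝ) ^ 3 ≤ 1 / (2 * ((c : ℝ) ^ 3 + 1)) * 2 ^ n := by
    have e1 : ‖(n : ℝ) ^ 3‖ = (n : ℝ) ^ 3 := by
      rw [Real.norm_eq_abs, abs_of_nonneg (by positivity)]
    have e2 : ‖(2 : ℝ) ^ n‖ = (2 : ℝ) ^ n := by
      rw [Real.norm_eq_abs, abs_of_nonneg (by positivity)]
    rw [← e1, ← e2]
    exact hn
  have h4 : ((c * n : ℕ) : ℝ) ^ 3 < 2 ^ n := by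
    have hp : (0 : ℝ) < 2 ^ n := by positivity
    have hc : (0 : ℝ) ≤ (c : ℝ) ^ 3 := by positivity
    have h5 : (2 * ((c : ℝ) ^ 3 + 1)) * (n : ℝ) ^ 3 ≤ 2 ^ n := by
      have := mul_le_mul_of_nonneg_left h3 (by positivity : (0 : ℝ) ≤ 2 * ((c : ℝ) ^ 3 + 1))
      rwa [← mul_assoc, mul_one_div_cancel (by positivity), one_mul] at this
    have hn3 : (0 : ℝ) ≤ (n : ℝ) ^ 3 := by positivity
    push_cast
    rw [mul_pow]
    nlinarith [mul_nonneg hc hn3]
  exact_mod_cast h4

end aux

theorem oreGrow {k S : Type*} [Field k] [Ring S] [NoZeroDivisors S] [Nontrivial S] [Algebra k S]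
    (V : Submodule k S) (hV : V.FG) (h1 : (1 : S) ∈ V) (hgen : Algebra.adjoin k (V : Set S) = ⊤)
    (hg : SubCubic k V) (a b : S) (hb : b ≠ 0) : ∃ u v : S, u ≠ 0 ∧ u * a = v * b := by
  by_contra hcon
  push Not at hcon
  have key : ∀ u v : S, u * a + v * b = 0 → u = 0 ∧ v = 0 := by
    intro u v huv
    have hu : u = 0 := by
      by_contra hu
      apply hcon u (-v) hu
      rw [neg_mul]
      exact eq_neg_of_add_eq_zero_left huv
    refine ⟨hu, ?_⟩
    rw [hu, zero_mul, zero_add] at huv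
    exact (mul_eq_zero.1 huv).resolve_right hb
  have hmono : ∀ a b : ℕ, a ≤ b → V ^ a ≤ V ^ b := by
    intro a b hab
    obtain ⟨c, rfl⟩ := Nat.exists_eq_add_of_le hab
    rw [pow_add]
    intro x hx
    have h2 : (1 : S) ∈ V ^ c := by
      have := Submodule.pow_mem_pow V h1 c
      rwa [one_pow] at this
    have := Submodule.mul_mem_mul hx h2
    rwa [mul_one] at this
  obtain ⟨n₁, hn₁⟩ := mem_pow_of_adjoin V h1 a (by rw [hgen]; trivial)
  obtain ⟨n₂, hn₂⟩ := mem_pow_of_adjoin V h1 b (by rw [hgen]; trivial)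
  set c := n₁ + n₂ + 1 with hc
  have ha' : a ∈ V ^ c := hmono _ _ (by omega) hn₁
  have hb' : b ∈ V ^ c := hmono _ _ (by omega) hn₂
  obtain ⟨N, hN⟩ := hg 1
  obtain ⟨n, hnN, hn⟩ := exp_beats c N
  have h2 := hN (c * n) (by nlinarith)
  rw [one_mul] at h2
  have : Module.Finite k (V ^ (c * n) : Submodule k S) := Module.Finite.of_fg (hV.pow _)
  let v : (Fin n → Bool) → (V ^ (c * n) : Submodule k S) := fun g => ⟨wd a b n g, wd_mem V a b c ha' hb' n g⟩
  have h3 : LinearIndependent k v := LinearIndependent.of_comp (Submodule.subtype _) (wd_indep a b key n)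
  have h4 := h3.fintype_card_le_finrank
  rw [Fintype.card_fun, Fintype.card_bool, Fintype.card_fin] at h4
  omega

end Pool.Agent.Work.MP_16d7ed_al.GK
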