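import Pool.Agent.Work.MP_16d7ed_al.GK.CentLin
import Pool.Agent.Work.MP_16d7ed_al.GK.CaseTr

/-!
# MODULE PiThm (S-M): a central transcendental element implies finite dimension over the centre

PROOF. Every element of `adjoin k V` lies in some `V^n` (`1 ∈ V`), so `hfr` has the form needed in `centLin`: `b ≠ 0`, `b, b d ∈ V^n` (take the maximum of the exponents). Let `W = span_Z V` (finitely generated,
contains `1`, `V^n ⊆ W^n` as sets), `C` from `centLin`. If every `w ∈ adjoin k V` is algebraic over `Z`: `finBdd`. Otherwise some `w ∈ adjoin k V` is transcendental over `Z`, `w ∈ V^n ⊆ W^n`: `caseTr`.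
-/

set_option autoImplicit false

open Polynomial Module

namespace Pool.Agent.Work.MP_16d7ed_al.GK

private theorem mono_pow {Z D : Type*} [Field Z] [Ring D] [Algebra Z D] (V : Submodule Z D) (h1 : (1 : D) ∈ V)
    {a b : ℕ} (hab : a ≤ b) : V ^ a ≤ V ^ b := by
  obtain ⟨c, rfl⟩ := Nat.exists_eq_add_of_le hab
  rw [pow_add]
  intro x hx
  have h2 : (1 : D) ∈ V ^ c := by
    have := Submodule.pow_mem_pow V h1 c
    rwa [one_pow] at this
  have := Submodule.mul_mem_mul hx h2
  rwa [mul_one] at this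

private theorem mem_pow_of_adjoin {Z D : Type*} [Field Z] [Ring D] [Algebra Z D] (V : Submodule Z D)
    (h1 : (1 : D) ∈ V) (x : D) (hx : x ∈ Algebra.adjoin Z (V : Set D)) : ∃ n : ℕ, x ∈ V ^ n := by
  induction hx using Algebra.adjoin_induction with
  | mem x hx => exact ⟨1, by rwa [pow_one]⟩
  | algebraMap r =>
    refine ⟨0, ?_⟩
    rw [pow_zero]
    exact Submodule.algebraMap_mem r
  | add x y _ _ hx hy =>
    obtain ⟨n, hn⟩ := hx
    obtain ⟨m, hm⟩ := hy
    exact ⟨max n m, Submodule.add_mem _ (mono_pow V h1 (le_max_left _ _) hn)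
      (mono_pow V h1 (le_max_right _ _) hm)⟩
  | mul x y _ _ hx hy =>
    obtain ⟨n, hn⟩ := hx
    obtain ⟨m, hm⟩ := hy
    refine ⟨n + m, ?_⟩
    rw [pow_add]
    exact Submodule.mul_mem_mul hn hm

theorem piThm {k Z D : Type*} [Field k] [Field Z] [Algebra k Z] [DivisionRing D] [Algebra k D] [Algebra Z D]
    [IsScalarTower k Z D] (hZ : ∀ c ∈ Subring.center D, c ∈ Set.range (algebraMap Z D))
    (z : Z) (hz : Transcendental k z) (V : Submodule k D) (hV : V.FG) (h1 : (1 : D) ∈ V)
    (hfr : ∀ d : D, ∃ b ∈ Algebra.adjoin k (V : Set D), b ≠ 0 ∧ b * d ∈ Algebra.adjoin k (V : Set D))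
    (hg : SubCubic k V) : Module.Finite Z D := by
  classical
  have hfr' : ∀ d : D, ∃ b : D, b ≠ 0 ∧ ∃ n : ℕ, b ∈ V ^ n ∧ b * d ∈ V ^ n := by
    intro d
    obtain ⟨b, hb, hb0, hbd⟩ := hfr d
    obtain ⟨n, hn⟩ := mem_pow_of_adjoin V h1 b hb
    obtain ⟨m, hm⟩ := mem_pow_of_adjoin V h1 _ hbd
    exact ⟨b, hb0, max n m, mono_pow V h1 (le_max_left _ _) hn, mono_pow V h1 (le_max_right _ _) hm⟩
  set W : Submodule Z D := Submodule.span Z (V : Set D) with hW
  have h1W : (1 : D) ∈ W := Submodule.subset_span h1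
  have hVW : ∀ (n : ℕ) (x : D), x ∈ V ^ n → x ∈ W ^ n := by
    intro n
    induction n with
    | zero =>
      intro x hx
      rw [pow_zero] at hx ⊢
      obtain ⟨c, rfl⟩ := Submodule.mem_one.1 hx
      rw [IsScalarTower.algebraMap_apply k Z D]
      exact Submodule.algebraMap_mem _
    | succ n ih =>
      intro x hx
      rw [pow_succ] at hx ⊢
      induction hx using Submodule.mul_induction_on' with
      | mem_mul_mem a ha b hb => exact Submodule.mul_mem_mul (ih a ha) (Submodule.subset_span hb)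
      | add a _ b _ h h' => exact Submodule.add_mem _ h h'
  have hWfg : W.FG := by
    obtain ⟨t, ht⟩ := hV
    refine ⟨t, ?_⟩
    apply le_antisymm
    · apply Submodule.span_mono
      intro x hx
      have : x ∈ Submodule.span k (t : Set D) := Submodule.subset_span hx
      rwa [ht] at this
    · rw [hW, Submodule.span_le]
      intro x hx
      have hx' : x ∈ Submodule.span k (t : Set D) := by
        rw [ht]
        exact hx
      exact Submodule.span_le_restrictScalars k Z (t : Set D) hx'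
  have hfrW : ∀ d : D, ∃ b : D, b ≠ 0 ∧ ∃ n : ℕ, b ∈ W ^ n ∧ b * d ∈ W ^ n := by
    intro d
    obtain ⟨b, hb, n, h2, h3⟩ := hfr' d
    exact ⟨b, hb, n, hVW n _ h2, hVW n _ h3⟩
  obtain ⟨C, hC, halg⟩ := centLin z hz V hV h1 hfr' hg
  by_cases hall : ∀ w ∈ Algebra.adjoin k (V : Set D), IsAlgebraic Z w
  · obtain ⟨C', hC'⟩ := halg hall
    exact finBdd W hWfg h1W C' hC' hfrW
  · push Not at hall
    obtain ⟨w, hw, hwt⟩ := hall
    obtain ⟨n, hn⟩ := mem_pow_of_adjoin V h1 w hw
    exact caseTr hZ W hWfg h1W C hC hfrW w hwt ⟨n, hVW n w hn⟩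

end Pool.Agent.Work.MP_16d7ed_al.GK
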