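import Pool.Agent.Work.MP_16d7ed_al.GK.Uniform
import Pool.Agent.Work.MP_16d7ed_al.GK.CenEl
import Pool.Agent.Work.MP_16d7ed_al.GK.CenField
import Pool.Agent.Work.MP_16d7ed_al.GK.PiThm
import Pool.Agent.Work.MP_16d7ed_al.GK.NotSimple
import Pool.Agent.Work.MP_16d7ed_al.GK.OreG
import Pool.Agent.Work.MP_16d7ed_al.GK.OreF

/-!
# MODULE FinMain (M): the main theorem over a finite field

PROOF. `V` generates `S` (it contains `y` and `X`). By `oreGrow`, `oreFrac` get `D`, `f : S → D`. Let `S' = f.range`, `y' = f y`, `X' = f '' X`, `V' = V.map f`: finitely generated, contains `1, y', X'`, `V'^n = (V^n).map f`, so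
`SubCubic k V'`; `adjoin k (insert y' X') = S'`; `bi k y' P (f x) = f (bi k y P x)` (`bi_apply`); `y'` is transcendental. By `uniform` there is `H ≠ 0` killing `S'`; fractions: `∀ d, ∃ b ∈ S', b ≠ 0 ∧ b * d ∈ S'`. By
`cenEl` there is a central transcendental `z`; `cenField` gives `Z`; `piThm` (`adjoin k V' = S'`) gives `Module.Finite Z D`.
(1) `D` acts on the finite dimensional `Z`-space `D` by left multiplication: `D → End_Z D ≅ Matrix (Fin n) (Fin n) Z` (`Algebra.leftMulMatrix` of a basis `Module.finBasis Z D`, injective `Algebra.leftMulMatrix_injective`), `Z`-linear, hence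
`k`-linear; compose with `f`. `E = Z`.
(2) If `S` were simple, so would be `S' ≅ S`; `S'` is finitely generated; `notSimple` gives a contradiction.
-/

set_option autoImplicit false

open Polynomial Module

namespace Pool.Agent.Work.MP_16d7ed_al.GK

universe u

theorem finMain {k S : Type u} [Field k] [Finite k] [Ring S] [NoZeroDivisors S] [Nontrivial S] [Algebra k S]
    (y : S) (hy : Transcendental k y) (X : Set S) (hX : X.Finite)
    (hal : ∀ x ∈ X, ∃ P : k[X][X], P ≠ 0 ∧ bi k y P x = 0)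
    (hgen : Algebra.adjoin k (insert y X) = ⊤)
    (V : Submodule k S) (hV : V.FG) (h1 : (1 : S) ∈ V) (hyV : y ∈ V) (hXV : X ⊆ (V : Set S))
    (hg : SubCubic k V) :
    (∃ (n : ℕ) (E : Type u) (_ : Field E) (_ : Algebra k E) (φ : S →ₐ[k] Matrix (Fin n) (Fin n) E),
      Function.Injective φ) ∧ ¬ IsSimpleRing S := by
  classical
  have hgenV : Algebra.adjoin k (V : Set S) = ⊤ := by
    rw [eq_top_iff, ← hgen]
    exact Algebra.adjoin_mono (Set.insert_subset hyV hXV)
  obtain ⟨D, _, _, f, hf, hfr⟩ := oreFrac (k := k) (S := S)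
    (fun a b hb => oreGrow V hV h1 hgenV hg a b hb)
  have hbi : ∀ (P : k[X][X]) (x : S), bi k (f y) P (f x) = f (bi k y P x) := by
    intro P x
    rw [bi_apply, bi_apply, Polynomial.sum_def, Polynomial.sum_def, map_sum]
    refine Finset.sum_congr rfl fun j _ => ?_
    rw [map_mul, map_mul, map_pow, aeval_algHom_apply]
  have hy' : Transcendental k (f y) := by
    rintro ⟨p, hp, h0⟩
    refine hy ⟨p, hp, hf ?_⟩
    rw [← aeval_algHom_apply, h0, map_zero]
  have hpow : ∀ n : ℕ, (V.map f.toLinearMap) ^ n = (V ^ n).map f.toLinearMap := fun n =>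
    (Submodule.map_pow V f n).symm
  have hV' : (V.map f.toLinearMap).FG := hV.map _
  have h1' : (1 : D) ∈ V.map f.toLinearMap := ⟨1, h1, map_one f⟩
  have hg' : SubCubic k (V.map f.toLinearMap) := by
    intro c
    obtain ⟨N, hN⟩ := hg c
    refine ⟨N, fun n hn => le_trans (Nat.mul_le_mul_left c ?_) (hN n hn)⟩
    rw [hpow]
    have : Module.Finite k (V ^ n : Submodule k S) := Module.Finite.iff_fg.2 (hV.pow n)
    exact Submodule.finrank_map_le _ _
  have hadj : Algebra.adjoin k (insert (f y) (f '' X)) = f.range := by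
    rw [← Set.image_insert_eq]
    rw [← AlgHom.map_adjoin, hgen, Algebra.map_top]
  have hadjV : Algebra.adjoin k ((V.map f.toLinearMap : Submodule k D) : Set D) = f.range := by
    have : ((V.map f.toLinearMap : Submodule k D) : Set D) = f '' (V : Set S) := rfl
    rw [this, ← AlgHom.map_adjoin, hgenV, Algebra.map_top]
  have hfr' : ∀ d : D, ∃ b ∈ f.range, b ≠ 0 ∧ b * d ∈ f.range := by
    intro d
    obtain ⟨b, s, hb, hbs⟩ := hfr d
    refine ⟨f b, ⟨b, rfl⟩, ?_, ?_⟩
    · intro h
      exact hb (hf (by rw [h, map_zero]))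
    · rw [hbs]
      exact ⟨s, rfl⟩
  obtain ⟨H, hH, hHa⟩ := uniform (f y) hy' (f '' X) (hX.image f) (by
    rintro _ ⟨x, hx, rfl⟩
    obtain ⟨P, hP, h0⟩ := hal x hx
    exact ⟨P, hP, by rw [hbi, h0, map_zero]⟩) (V.map f.toLinearMap) hV' h1' ⟨y, hyV, rfl⟩
    (by rintro _ ⟨x, hx, rfl⟩; exact ⟨x, hXV hx, rfl⟩) hg'
  rw [hadj] at hHa
  obtain ⟨z, hz, hzt⟩ := cenEl f.range hfr' (f y) hy' H hH hHa
  obtain ⟨Z, _, _, _, _, hZ, z', hz'⟩ := cenField z hz hzt
  have hfin : Module.Finite Z D := piThm hZ z' hz' (V.map f.toLinearMap) hV' h1'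
    (by rw [hadjV]; exact hfr') hg'
  refine ⟨⟨finrank Z D, Z, inferInstance, inferInstance,
    ((Algebra.leftMulMatrix (Module.finBasis Z D)).restrictScalars k).comp f, ?_⟩, ?_⟩
  · intro a b hab
    exact hf (Algebra.leftMulMatrix_injective (Module.finBasis Z D) hab)
  · intro hS
    have e : S ≃ₐ[k] f.range := AlgEquiv.ofInjective f hf
    have hS' : IsSimpleRing f.range := IsSimpleRing.of_ringEquiv e.toRingEquiv hS
    refine notSimple z' hz' f.range ?_ hfr' hS'
    rw [← hadj]
    exact ⟨(((hX.image f).insert (f y))).toFinset, by simp⟩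

end Pool.Agent.Work.MP_16d7ed_al.GK
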