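import Pool.Agent.Work.MP_16d7ed_al.GK.Defs

/-!
# MODULE FrobTwist (M): passing from `y` to `y^(p^e)`

PROOF of `frobTwist`. Let `Q₀` be the radical of `Q` in the UFD `k[X][X]` (the product of the non-associated irreducible factors; `UniqueFactorizationMonoid.radical` or by
hand); it is squarefree, and `Q ∣ Q₀^m` for all `m ≥` some `m₀`. Let `e₀` satisfy `p^e₀ ≥ m₀`. For `e ≥ e₀`, `q = p^e`: `Q ∣ Q₀^q`, so `bi y (Q₀^q) x = 0`. In characteristic `p`, for
`Q₀ = Σ c_ij s^i t^j`, `Q₀^q = Σ c_ij^q s^(q i) t^(q j)`. Let `Q'` be `Q₀` with coefficients raised to the power `q`: `Q' = Q₀.map (mapRingHom σ)`, `σ = ` Frobenius^e of `k`, an automorphism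
since `k` is finite. Then `bi (y^q) Q' x = Σ c_ij^q y^(q i) x y^(q j) = bi y (Q₀^q) x = 0`, and `Q'` is squarefree since `Q₀ ↦ Q'` is a ring automorphism of `k[X][X]`.
PROOF of `bi_pow`. `H' = H(s^q, t^q)`: `H' = expand in both variables`; injective for `q ≥ 1`. `bi y H' a = Σ c_ij y^(q i) a y^(q j) = bi (y^q) H a`.
-/

set_option autoImplicit false

open Polynomial Module

namespace Pool.Agent.Work.MP_16d7ed_al.GK

private theorem ft_rad {M : Type*} [CommMonoidWithZero M] [UniqueFactorizationMonoid M] (a : M) (ha : a ≠ 0) :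
    ∃ b : M, Squarefree b ∧ ∃ n : ℕ, a ∣ b ^ n := by
  classical
  haveI : Nontrivial M := ⟨a, 0, ha⟩
  letI : StrongNormalizationMonoid M := UniqueFactorizationMonoid.normalizationMonoid
  exact ⟨UniqueFactorizationMonoid.radical a, UniqueFactorizationMonoid.squarefree_radical,
    UniqueFactorizationMonoid.exists_dvd_radical_self_pow ha⟩

private theorem ft_sq {M : Type*} [Monoid M] (e : M ≃* M) {a : M} (h : Squarefree a) :
    Squarefree (e a) := by
  intro x hx
  have h1 : e.symm x * e.symm x ∣ a := by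
    rw [← map_mul]
    have h2 := map_dvd e.symm hx
    rwa [MulEquiv.symm_apply_apply] at h2
  have h3 := (h (e.symm x) h1).map e
  rwa [MulEquiv.apply_symm_apply] at h3

theorem frobTwist {k D : Type*} [Field k] [Finite k] [Ring D] [Algebra k D] (p : ℕ) [Fact p.Prime] [CharP k p]
    (y x : D) (Q : k[X][X]) (hQ : Q ≠ 0) (h : bi k y Q x = 0) :
    ∃ e₀ : ℕ, ∀ e ≥ e₀, ∃ Q' : k[X][X], Squarefree Q' ∧ bi k (y ^ p ^ e) Q' x = 0 := by
  obtain ⟨Q₀, hsq, m₀, hm⟩ := ft_rad Q hQ
  have hp : 1 < p := (Fact.out : p.Prime).one_lt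
  refine ⟨m₀, fun e he => ?_⟩
  have hme : m₀ ≤ p ^ e := he.trans (Nat.lt_pow_self hp).le
  obtain ⟨R, hR⟩ := hm.trans (pow_dvd_pow Q₀ hme)
  have h0 : bi k y (Q₀ ^ p ^ e) x = 0 := by
    rw [hR, mul_comm, bi_mul, h, map_zero]
  have hhom : (bi k (y ^ p ^ e)).comp (mapRingHom (mapRingHom (iterateFrobenius k p e))) =
      (bi k y).comp (iterateFrobenius k[X][X] p e) := by
    apply Polynomial.ringHom_ext'
    · apply Polynomial.ringHom_ext'
      · refine RingHom.ext fun r => LinearMap.ext fun a => ?_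
        simp only [RingHom.comp_apply, coe_mapRingHom, map_C, iterateFrobenius_def]
        rw [← C_pow, ← C_pow, bi_C, bi_C, aeval_C, aeval_C]
      · refine LinearMap.ext fun a => ?_
        simp only [RingHom.comp_apply, coe_mapRingHom, map_C, map_X, iterateFrobenius_def]
        rw [← C_pow, bi_C, bi_C, aeval_X, map_pow, aeval_X]
    · refine LinearMap.ext fun a => ?_
      simp only [RingHom.comp_apply, coe_mapRingHom, map_X, iterateFrobenius_def]
      rw [bi_X, map_pow]
      have h1 : bi k y (X : k[X][X]) = LinearMap.mulRight k y := by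
        refine LinearMap.ext fun b => ?_
        rw [bi_X, LinearMap.mulRight_apply]
      rw [h1, LinearMap.pow_mulRight, LinearMap.mulRight_apply]
  have hσ : Polynomial.mapEquiv (Polynomial.mapEquiv (iterateFrobeniusEquiv k p e)) Q₀ =
      mapRingHom (mapRingHom (iterateFrobenius k p e)) Q₀ := rfl
  refine ⟨Polynomial.mapEquiv (Polynomial.mapEquiv (iterateFrobeniusEquiv k p e)) Q₀, ?_, ?_⟩
  · exact ft_sq (Polynomial.mapEquiv (Polynomial.mapEquiv (iterateFrobeniusEquiv k p e))).toMulEquiv hsq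
  · rw [hσ]
    have h2 := RingHom.congr_fun hhom Q₀
    rw [RingHom.comp_apply, RingHom.comp_apply, iterateFrobenius_def] at h2
    rw [h2]
    exact h0

theorem bi_pow {k D : Type*} [Field k] [Ring D] [Algebra k D] (y : D) (q : ℕ) (hq : 1 ≤ q) (H : k[X][X])
    (hH : H ≠ 0) : ∃ H' : k[X][X], H' ≠ 0 ∧ ∀ a : D, bi k y H' a = bi k (y ^ q) H a := by
  have hhom : (bi k y).comp (((expand k[X] q : k[X][X] →ₐ[k[X]] k[X][X]) : k[X][X] →+* k[X][X]).comp
      (mapRingHom ((expand k q : k[X] →ₐ[k] k[X]) : k[X] →+* k[X]))) = bi k (y ^ q) := by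
    apply Polynomial.ringHom_ext'
    · apply Polynomial.ringHom_ext'
      · refine RingHom.ext fun r => LinearMap.ext fun a => ?_
        simp only [RingHom.comp_apply, coe_mapRingHom, map_C, RingHom.coe_coe, expand_C]
        rw [bi_C, bi_C, aeval_C, aeval_C]
      · refine LinearMap.ext fun a => ?_
        simp only [RingHom.comp_apply, coe_mapRingHom, map_C, RingHom.coe_coe, expand_C, expand_X]
        rw [bi_C, bi_C, map_pow, aeval_X, aeval_X]
    · refine LinearMap.ext fun a => ?_
      simp only [RingHom.comp_apply, coe_mapRingHom, map_X, RingHom.coe_coe, expand_X]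
      rw [bi_X, map_pow]
      have h1 : bi k y (X : k[X][X]) = LinearMap.mulRight k y := by
        refine LinearMap.ext fun b => ?_
        rw [bi_X, LinearMap.mulRight_apply]
      rw [h1, LinearMap.pow_mulRight, LinearMap.mulRight_apply]
  refine ⟨expand k[X] q (H.map ((expand k q : k[X] →ₐ[k] k[X]) : k[X] →+* k[X])), ?_, fun a => ?_⟩
  · intro h
    have h1 : H.map ((expand k q : k[X] →ₐ[k] k[X]) : k[X] →+* k[X]) = 0 :=
      expand_injective (Nat.lt_of_lt_of_le Nat.zero_lt_one hq) (by rw [h, map_zero])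
    have h2 : H.map ((expand k q : k[X] →ₐ[k] k[X]) : k[X] →+* k[X]) =
        (0 : k[X][X]).map ((expand k q : k[X] →ₐ[k] k[X]) : k[X] →+* k[X]) := by
      rw [h1, Polynomial.map_zero]
    exact hH (map_injective _ (expand_injective (Nat.lt_of_lt_of_le Nat.zero_lt_one hq)) h2)
  · have h2 := RingHom.congr_fun hhom H
    rw [← h2]
    rfl

end Pool.Agent.Work.MP_16d7ed_al.GK
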