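import Pool.Agent.Work.MP_16d7ed_al.GK.Defs

/-!
# MODULE FtA (M-L): field theory I

`P(ν, ρ) = 0` where `P(s, t)`, `P.map (aeval ν)` substitutes `s = ν`, `eval ρ` substitutes `t = ρ`. `k` is finite, hence perfect.

PROOF. (1) `ρ` is transcendental over `k`. Otherwise consider `P(s, ρ) ∈ k(ρ)[s]`. If it is nonzero, its root `ν` is algebraic over `k(ρ)`, hence over `k`:
contradiction. If it is zero, write `P = Σ_i s^i g_i(t)` (`swap P`), all `g_i(ρ) = 0`, so the minimal polynomial `m(t)` of `ρ` over `k` divides all `g_i`,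
so `m(t)` divides `P`, and `P = unit * m(t)` as `P` is irreducible; but `m' ≠ 0` since `k` is perfect (`PerfectField`, separable), contradiction to
`derivative P = 0`.
(2) As `derivative P = 0` and `char k = p`, `P = P̃(s, t^p)` (`Polynomial.expand_contract`), `P̃` is irreducible in `k[s][t]` (`expand` is an injective ring
homomorphism preserving non-units: `Polynomial.of_irreducible_expand`). `P̃(ν, ρ^p) = 0`. View `P̃` as a polynomial in `s` over `k[t]` (`swap P̃`). Its degree
in `s` is positive: otherwise `P̃ ∈ k[t]`, nonzero, and `P̃(ρ^p) = 0`, contradiction to (1). Its derivative in `s` is nonzero: otherwise all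
exponents of `s` in `P̃` are multiples of `p`, so all exponents of `s` and of `t` in `P` are multiples of `p` and, `k` being perfect, `P` is a
`p`-th power, contradiction to irreducibility. By Gauss' lemma (`swap P̃` is irreducible in `k[t][s]` of positive degree, hence primitive and irreducible
over the fraction field of `k[t]`) and `k(t) ≅ k(ρ^p) = F` (`ρ^p` is transcendental) the polynomial `P̃(s, ρ^p) ∈ F[s]` is irreducible with nonzero
derivative, so it is separable, and `ν` is a root. Hence `ν` is separable over `F = IntermediateField.adjoin k {ρ^p}` (`IsSeparable`: `minpoly F ν` divides it).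
-/

set_option autoImplicit false

open Polynomial Module

namespace Pool.Agent.Work.MP_16d7ed_al.GK

private theorem fa_swap {k Ω : Type*} [Field k] [Field Ω] [Algebra k Ω] (x y : Ω) (P : k[X][X]) :
    ((Bivariate.swap P).map ((aeval x : k[X] →ₐ[k] Ω) : k[X] →+* Ω)).eval y =
      (P.map ((aeval y : k[X] →ₐ[k] Ω) : k[X] →+* Ω)).eval x := by
  induction P using Polynomial.induction_on' with
  | add p q hp hq => rw [map_add, Polynomial.map_add, eval_add, hp, hq, Polynomial.map_add, eval_add]
  | monomial n f =>
    induction f using Polynomial.induction_on' with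
    | add p q hp hq =>
      rw [map_add, map_add, Polynomial.map_add, eval_add, hp, hq, Polynomial.map_add, eval_add]
    | monomial m r =>
      rw [Bivariate.swap_monomial_monomial, map_monomial, map_monomial, eval_monomial,
        eval_monomial, RingHom.coe_coe, RingHom.coe_coe, aeval_monomial, aeval_monomial]
      ring

private theorem fa_exp {k : Type*} [Field k] (p : ℕ) (Q : k[X][X]) :
    Bivariate.swap (expand k[X] p Q) =
      (Bivariate.swap Q).map ((expand k p : k[X] →ₐ[k] k[X]) : k[X] →+* k[X]) := by
  induction Q using Polynomial.induction_on' with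
  | add a b ha hb => rw [map_add, map_add, ha, hb, map_add, Polynomial.map_add]
  | monomial n f =>
    induction f using Polynomial.induction_on' with
    | add a b ha hb =>
      rw [map_add, map_add, map_add, ha, hb, map_add, Polynomial.map_add]
    | monomial m r =>
      rw [expand_monomial, Bivariate.swap_monomial_monomial, Bivariate.swap_monomial_monomial,
        map_monomial, RingHom.coe_coe, expand_monomial]

private theorem fa_pow {k : Type*} [Field k] [Finite k] (p : ℕ) [Fact p.Prime] [CharP k p]
    (W : k[X][X]) : ∃ H : k[X][X],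
      expand k[X] p (W.map ((expand k p : k[X] →ₐ[k] k[X]) : k[X] →+* k[X])) = H ^ p := by
  have hb : Function.Bijective (frobenius k p) :=
    ⟨frobenius_inj k p, Finite.injective_iff_surjective.1 (frobenius_inj k p)⟩
  obtain ⟨σ, hσ⟩ : ∃ σ : k →+* k, (frobenius k p).comp σ = RingHom.id k :=
    ⟨(RingEquiv.ofBijective (frobenius k p) hb).symm.toRingHom, RingHom.ext fun a =>
      (RingEquiv.ofBijective (frobenius k p) hb).apply_symm_apply a⟩
  refine ⟨W.map (mapRingHom σ), ?_⟩
  rw [← map_frobenius_expand p, map_expand, Polynomial.map_map]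
  congr 2
  refine RingHom.ext fun c => ?_
  rw [RingHom.comp_apply, coe_mapRingHom, frobenius_def, ← map_frobenius_expand p, ← map_expand,
    Polynomial.map_map, hσ, Polynomial.map_id]
  rfl

private theorem fa_trans {k Ω : Type*} [Field k] [Finite k] [Field Ω] [Algebra k Ω]
    (P : k[X][X]) (hP : Irreducible P) (hd : derivative P = 0) (ν ρ : Ω) (hν : Transcendental k ν)
    (h : (P.map ((aeval ν : k[X] →ₐ[k] Ω) : k[X] →+* Ω)).eval ρ = 0) :
    Transcendental k ρ := by
  intro hρ
  have hint : IsIntegral k ρ := hρ.isIntegral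
  rw [← fa_swap] at h
  by_cases h0 : (Bivariate.swap P).map ((aeval ρ : k[X] →ₐ[k] Ω) : k[X] →+* Ω) = 0
  · have h1 : ∀ i, minpoly k ρ ∣ (Bivariate.swap P).coeff i := by
      intro i
      apply minpoly.dvd
      have h2 := congrArg (fun f : Polynomial Ω => f.coeff i) h0
      simp only [coeff_map, coeff_zero, RingHom.coe_coe] at h2
      exact h2
    obtain ⟨u, hu⟩ := (C_dvd_iff_dvd_coeff _ _).2 h1
    have h3 : P = (minpoly k ρ).map C * Bivariate.swap u := by
      rw [← Bivariate.swap_swap_apply P, hu, map_mul, Bivariate.swap_C]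
    have h4 : ¬ IsUnit ((minpoly k ρ).map (C : k →+* k[X])) := by
      intro h5
      have h6 := Polynomial.natDegree_eq_zero_of_isUnit h5
      rw [Polynomial.natDegree_map] at h6
      exact (minpoly.natDegree_pos hint).ne' h6
    have h5 := (hP.isUnit_or_isUnit h3).resolve_left h4
    obtain ⟨r, hr, hr2⟩ := Polynomial.isUnit_iff.1 h5
    rw [h3, ← hr2, derivative_mul, derivative_C, mul_zero, add_zero] at hd
    have h7 : derivative ((minpoly k ρ).map (C : k →+* k[X])) = 0 := by
      refine (mul_eq_zero.1 hd).resolve_right ?_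
      rw [hr2]
      exact h5.ne_zero
    rw [derivative_map] at h7
    have h8 := (Polynomial.map_eq_zero_iff (C_injective (R := k))).1 h7
    have h9 : (minpoly k ρ).Separable :=
      PerfectField.separable_of_irreducible (minpoly.irreducible hint)
    exact (separable_iff_derivative_ne_zero (minpoly.irreducible hint)).1 h9 h8
  · have halg : Algebra.IsAlgebraic k (IntermediateField.adjoin k {ρ}) :=
      IntermediateField.isAlgebraic_adjoin_simple hint
    obtain ⟨φ, hφ⟩ : ∃ φ : k[X] →+* IntermediateField.adjoin k {ρ},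
        (algebraMap (IntermediateField.adjoin k {ρ}) Ω).comp φ =
          ((aeval ρ : k[X] →ₐ[k] Ω) : k[X] →+* Ω) := by
      refine ⟨((aeval (IntermediateField.AdjoinSimple.gen k ρ) :
        k[X] →ₐ[k] IntermediateField.adjoin k {ρ}) : k[X] →+* _), RingHom.ext fun f => ?_⟩
      rw [RingHom.comp_apply, RingHom.coe_coe, RingHom.coe_coe, ← aeval_algebraMap_apply,
        IntermediateField.AdjoinSimple.algebraMap_gen]
    have h1 : IsAlgebraic (IntermediateField.adjoin k {ρ}) ν := by
      refine ⟨(Bivariate.swap P).map φ, ?_, ?_⟩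
      · intro h2
        apply h0
        rw [← hφ, ← Polynomial.map_map, h2, Polynomial.map_zero]
      · rw [← Polynomial.eval_map_algebraMap, Polynomial.map_map, hφ]
        exact h
    exact hν (h1.restrictScalars k)

theorem ftA {k Ω : Type*} [Field k] [Finite k] [Field Ω] [Algebra k Ω] (p : ℕ) [Fact p.Prime] [CharP k p]
    (P : k[X][X]) (hP : Irreducible P) (hd : derivative P = 0) (ν ρ : Ω) (hν : Transcendental k ν)
    (h : (P.map ((aeval ν : k[X] →ₐ[k] Ω) : k[X] →+* Ω)).eval ρ = 0) :
    Transcendental k ρ ∧ IsSeparable (IntermediateField.adjoin k {ρ ^ p}) ν := by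
  have hp0 : p ≠ 0 := (Fact.out : p.Prime).ne_zero
  have hρ : Transcendental k ρ := fa_trans P hP hd ν ρ hν h
  refine ⟨hρ, ?_⟩
  have hρp : Transcendental k (ρ ^ p) := hρ.pow (Nat.pos_of_ne_zero hp0)
  have hexp : expand k[X] p (contract p P) = P := expand_contract p hd hp0
  have hirr1 : Irreducible (contract p P) := of_irreducible_expand hp0 (by rw [hexp]; exact hP)
  obtain ⟨Q, hQ⟩ : ∃ Q, Q = Bivariate.swap (contract p P) := ⟨_, rfl⟩
  have hQirr : Irreducible Q := by
    rw [hQ]
    exact (MulEquiv.irreducible_iff (Bivariate.swap (R := k))).2 hirr1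
  have hQe : (Q.map ((aeval (ρ ^ p) : k[X] →ₐ[k] Ω) : k[X] →+* Ω)).eval ν = 0 := by
    rw [hQ, fa_swap, ← expand_eval, ← map_expand, hexp]
    exact h
  have hQdeg : Q.natDegree ≠ 0 := by
    intro h0
    obtain ⟨f, hf⟩ := Polynomial.natDegree_eq_zero.1 h0
    rw [← hf, map_C, eval_C, RingHom.coe_coe] at hQe
    have h1 : f = 0 := by
      by_contra h2
      exact hρp ⟨f, h2, hQe⟩
    rw [h1, C_0] at hf
    exact hQirr.ne_zero hf.symm
  have hQd : derivative Q ≠ 0 := by
    intro h0
    have h1 : expand k[X] p (contract p Q) = Q := expand_contract p h0 hp0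
    obtain ⟨H, hH⟩ := fa_pow p (Bivariate.swap (contract p Q))
    rw [← fa_exp, h1, hQ, Bivariate.swap_swap_apply, hexp] at hH
    rw [hH] at hP
    exact not_irreducible_pow (Fact.out : p.Prime).ne_one hP
  have hprim := hQirr.isPrimitive hQdeg
  have hirrK : Irreducible (Q.map (algebraMap k[X] (RatFunc k))) :=
    hprim.irreducible_iff_irreducible_map_fraction_map.1 hQirr
  have hsepK : (Q.map (algebraMap k[X] (RatFunc k))).Separable := by
    rw [separable_iff_derivative_ne_zero hirrK, derivative_map]
    intro h0
    exact hQd ((Polynomial.map_eq_zero_iff (IsFractionRing.injective k[X] (RatFunc k))).1 h0)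
  obtain ⟨ψ, hψ⟩ : ∃ ψ : k[X] →+* IntermediateField.adjoin k {ρ ^ p},
      (algebraMap (IntermediateField.adjoin k {ρ ^ p}) Ω).comp ψ =
        ((aeval (ρ ^ p) : k[X] →ₐ[k] Ω) : k[X] →+* Ω) := by
    refine ⟨((aeval (IntermediateField.AdjoinSimple.gen k (ρ ^ p)) :
      k[X] →ₐ[k] IntermediateField.adjoin k {ρ ^ p}) : k[X] →+* _), RingHom.ext fun f => ?_⟩
    rw [RingHom.comp_apply, RingHom.coe_coe, RingHom.coe_coe, ← aeval_algebraMap_apply,
      IntermediateField.AdjoinSimple.algebraMap_gen]
  have hψi : Function.Injective ψ := by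
    have h1 : Function.Injective ((aeval (ρ ^ p) : k[X] →ₐ[k] Ω) : k[X] →+* Ω) :=
      transcendental_iff_injective.1 hρp
    rw [← hψ, RingHom.coe_comp] at h1
    exact Function.Injective.of_comp h1
  have hsepF : (Q.map ψ).Separable := by
    have h1 := hsepK.map (f := IsFractionRing.lift hψi)
    have h2 : (IsFractionRing.lift hψi : RatFunc k →+* _).comp (algebraMap k[X] (RatFunc k)) = ψ :=
      RingHom.ext fun x => IsFractionRing.lift_algebraMap hψi x
    rw [Polynomial.map_map, h2] at h1
    exact h1
  refine hsepF.of_dvd (minpoly.dvd _ _ ?_)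
  rw [← Polynomial.eval_map_algebraMap, Polynomial.map_map, hψ]
  exact hQe

end Pool.Agent.Work.MP_16d7ed_al.GK
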