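import Pool.Agent.Work.MP_16d7ed_al.GK.Defs

/-!
# MODULE FtB (M): field theory II: composition

`En k p η n ρ`: `ρ` is transcendental over `k` and `η` is separable over `k(ρ^(p^n))`.

PROOF of `en_succ`. `F₁ = k(ρ^(p^(n+1)))`. (1) `ν^(p^n)` is separable over `F₁`: let `m` be the minimal polynomial of `ν` over `k(ρ^p)`, separable. The `n`-th power of
Frobenius `x ↦ x^(p^n)` is an injective ring endomorphism `σ` of `Ω`, which maps `k` into `k` and `ρ^p` to `ρ^(p^(n+1))`, so it maps `k(ρ^p)` into `F₁`; `m.map σ`
is a separable polynomial over `F₁` with root `ν^(p^n)`. (2) Let `E` be the set of elements of `Ω` which are separable over `F₁`; it is an intermediate field of `Ω / F₁`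
(`separableClosure F₁ Ω`), it contains `k` and `ν^(p^n)`, hence `k(ν^(p^n))`. So `η` is separable over `E` (the minimal polynomial over a bigger field divides the one over the smaller field),
and then separable over `F₁` (transitivity: `separableClosure` of `separableClosure` is trivial: `separableClosure.separableClosure_eq_bot`, or
`IsSeparable.of_algebra_isSeparable_of_isSeparable`).
-/

set_option autoImplicit false

open Polynomial Module

namespace Pool.Agent.Work.MP_16d7ed_al.GK

private theorem fb_map {F E Ω : Type*} [Field F] [Field E] [Field Ω] [Algebra F Ω] [Algebra E Ω]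
    (φ : F →+* E) (σ : Ω →+* Ω) (h : (algebraMap E Ω).comp φ = σ.comp (algebraMap F Ω)) {x : Ω}
    (hx : IsSeparable F x) : IsSeparable E (σ x) := by
  have h1 : (minpoly F x).Separable := hx
  have h2 : aeval (σ x) ((minpoly F x).map φ) = 0 := by
    rw [aeval_def, Polynomial.eval₂_map, h, ← Polynomial.hom_eval₂, ← aeval_def, minpoly.aeval,
      map_zero]
  exact h1.map.of_dvd (minpoly.dvd E (σ x) h2)

theorem en_succ {k Ω : Type*} [Field k] [Finite k] [Field Ω] [Algebra k Ω] (p : ℕ) [Fact p.Prime] [CharP k p]
    (η ν ρ : Ω) (n : ℕ) (h : En k p η n ν) (hρ : Transcendental k ρ)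
    (hν : IsSeparable (IntermediateField.adjoin k {ρ ^ p}) ν) : En k p η (n + 1) ρ := by
  obtain ⟨hνt, hηs⟩ := h
  refine ⟨hρ, ?_⟩
  have hcΩ : CharP Ω p := charP_of_injective_algebraMap (algebraMap k Ω).injective p
  have heΩ : ExpChar Ω p := ExpChar.prime Fact.out
  have hσ : ∀ x ∈ IntermediateField.adjoin k {ρ ^ p},
      x ^ p ^ n ∈ IntermediateField.adjoin k {ρ ^ p ^ (n + 1)} := by
    intro x hx
    induction hx using IntermediateField.adjoin_induction with
    | mem x hx =>
      rw [Set.mem_singleton_iff] at hx
      rw [hx, ← pow_mul, ← pow_succ']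
      exact IntermediateField.mem_adjoin_simple_self k _
    | algebraMap a =>
      rw [← map_pow]
      exact IntermediateField.algebraMap_mem _ _
    | add x y _ _ hx hy =>
      rw [add_pow_char_pow]
      exact add_mem hx hy
    | inv x _ hx =>
      rw [inv_pow]
      exact inv_mem hx
    | mul x y _ _ hx hy =>
      rw [mul_pow]
      exact mul_mem hx hy
  have h1 : IsSeparable (IntermediateField.adjoin k {ρ ^ p ^ (n + 1)}) (ν ^ p ^ n) := by
    have h2 := fb_map (((iterateFrobenius Ω p n).comp
      (algebraMap (IntermediateField.adjoin k {ρ ^ p}) Ω)).codRestrict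
        (IntermediateField.adjoin k {ρ ^ p ^ (n + 1)}) (fun x => by
          rw [RingHom.comp_apply, iterateFrobenius_def]
          exact hσ x x.2)) (iterateFrobenius Ω p n) rfl hν
    rw [iterateFrobenius_def] at h2
    exact h2
  have h3 : ∀ x ∈ IntermediateField.adjoin k {ν ^ p ^ n},
      x ∈ separableClosure (IntermediateField.adjoin k {ρ ^ p ^ (n + 1)}) Ω := by
    intro x hx
    induction hx using IntermediateField.adjoin_induction with
    | mem x hx =>
      rw [Set.mem_singleton_iff] at hx
      rw [hx]
      exact mem_separableClosure_iff.2 h1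
    | algebraMap a =>
      exact (separableClosure (IntermediateField.adjoin k {ρ ^ p ^ (n + 1)}) Ω).algebraMap_mem
        (algebraMap k (IntermediateField.adjoin k {ρ ^ p ^ (n + 1)}) a)
    | add x y _ _ hx hy => exact add_mem hx hy
    | inv x _ hx => exact inv_mem hx
    | mul x y _ _ hx hy => exact mul_mem hx hy
  have h4 : IsSeparable (separableClosure (IntermediateField.adjoin k {ρ ^ p ^ (n + 1)}) Ω) η := by
    have h5 := fb_map ((algebraMap (IntermediateField.adjoin k {ν ^ p ^ n}) Ω).codRestrict
      (separableClosure (IntermediateField.adjoin k {ρ ^ p ^ (n + 1)}) Ω)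
        (fun x => h3 x x.2)) (RingHom.id Ω) rfl hηs
    exact h5
  exact IsSeparable.of_algebra_isSeparable_of_isSeparable _ h4

end Pool.Agent.Work.MP_16d7ed_al.GK
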