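import Pool.Agent.Work.MP_16d7ed_al.GK.Defs

/-!
# MODULE FtC (M): field theory III: the degree

`En k p η n ρ`: `ρ` is transcendental over `k` and `η` is separable over `k(ρ^(p^n))`.

PROOF of `en_degree`. `K = RatFunc k`, `η` = image of `RatFunc.X`. Let `m = minpoly K ρ` (`ρ` is algebraic over `K` by `A`), `natDegree m ≤ natDegree A`. By
`Irreducible.hasSeparableContraction` `m = B(T^(p^e))`, `B` separable. If `e ≥ n`: `natDegree m = p^e natDegree B ≥ p^n`. Suppose `e < n`. `τ = ρ^(p^e)` is a root of `B`,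
so it is separable over `K`, i.e. over `k(η)`, the image of `K`. `η` is separable over `F₁ = k(ρ^(p^n))`, so `separableClosure F₁ Ω` contains `k(η)`, `τ` is separable over
`separableClosure F₁ Ω`, hence over `F₁` (transitivity, e.g. `separableClosure.separableClosure_eq_bot`). Also `τ^(p^(n-e)) = ρ^(p^n) ∈ F₁`. So `minpoly F₁ τ`
is separable and divides `T^q - τ^q = (T - τ)^q`, `q = p^(n-e)`; so it is `T - τ` and `τ ∈ F₁ = k(τ^q)`, `q ≥ 2`. But `τ` is transcendental over `k` (as `ρ` is):
`τ * g(τ^q) = f(τ^q)` with polynomials `g ≠ 0` is impossible (degrees modulo `q`). Contradiction.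
-/

set_option autoImplicit false

open Polynomial Module

namespace Pool.Agent.Work.MP_16d7ed_al.GK

private theorem fc_notmem {k Ω : Type*} [Field k] [Field Ω] [Algebra k Ω] {τ : Ω}
    (hτ : Transcendental k τ) {q : ℕ} (hq : 2 ≤ q) (h : τ ∈ IntermediateField.adjoin k {τ ^ q}) :
    False := by
  obtain ⟨r, s, hrs⟩ := (IntermediateField.mem_adjoin_simple_iff k τ).1 h
  have hτ0 : τ ≠ 0 := by
    rintro rfl
    exact hτ isAlgebraic_zero
  have hs0 : aeval (τ ^ q) s ≠ 0 := by
    intro h0
    rw [h0, div_zero] at hrs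
    exact hτ0 hrs
  have h1 : aeval τ (Polynomial.X * expand k q s - expand k q r) = 0 := by
    rw [map_sub, map_mul, aeval_X, expand_aeval, expand_aeval, sub_eq_zero]
    rw [eq_div_iff hs0] at hrs
    exact hrs
  have h2 : Polynomial.X * expand k q s - expand k q r = 0 := by
    by_contra h0
    exact hτ ⟨_, h0, h1⟩
  have hq0 : 0 < q := by omega
  have h3 : s = 0 := by
    ext j
    have h4 := congrArg (fun f : k[X] => f.coeff (q * j + 1)) h2
    simp only [coeff_sub, coeff_X_mul, coeff_zero] at h4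
    rw [coeff_expand_mul' hq0, coeff_expand hq0, if_neg, sub_zero] at h4
    · rw [h4, coeff_zero]
    · intro h5
      have h6 : q ∣ 1 := (Nat.dvd_add_right (dvd_mul_right q j)).1 h5
      have := Nat.le_of_dvd one_pos h6
      omega
  rw [h3, map_zero] at hs0
  exact hs0 rfl

theorem en_degree {k Ω : Type*} [Field k] [Finite k] [Field Ω] [Algebra k Ω] [Algebra (RatFunc k) Ω]
    [IsScalarTower k (RatFunc k) Ω] (p : ℕ) [Fact p.Prime] [CharP k p] (n : ℕ) (ρ : Ω)
    (h : En k p (algebraMap (RatFunc k) Ω RatFunc.X) n ρ) (A : (RatFunc k)[X]) (hA : A ≠ 0)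
    (hr : aeval ρ A = 0) : p ^ n ≤ A.natDegree := by
  classical
  obtain ⟨hρt, hηs⟩ := h
  have hint : IsIntegral (RatFunc k) ρ :=
    IsAlgebraic.isIntegral (⟨A, hA, hr⟩ : IsAlgebraic (RatFunc k) ρ)
  have hirr := minpoly.irreducible hint
  have hcK : CharP (RatFunc k) p :=
    charP_of_injective_algebraMap (algebraMap k (RatFunc k)).injective p
  have heK : ExpChar (RatFunc k) p := ExpChar.prime Fact.out
  obtain ⟨B, hBs, e, hBe⟩ := hirr.hasSeparableContraction p
  have hdeg : (minpoly (RatFunc k) ρ).natDegree = B.natDegree * p ^ e := by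
    rw [← hBe, natDegree_expand]
  refine le_trans ?_ (natDegree_le_of_dvd (minpoly.dvd _ _ hr) hA)
  by_contra hcon
  have hp0 : 0 < p := (Fact.out : p.Prime).pos
  have hp2 : 2 ≤ p := (Fact.out : p.Prime).two_le
  have hpos : 0 < (minpoly (RatFunc k) ρ).natDegree := minpoly.natDegree_pos hint
  have hB1 : 1 ≤ B.natDegree := by
    rw [hdeg] at hpos
    exact Nat.pos_of_mul_pos_right hpos
  have hen : e < n := by
    by_contra h1
    apply hcon
    rw [hdeg]
    calc p ^ n ≤ p ^ e := Nat.pow_le_pow_right hp0 (not_lt.1 h1)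
      _ = 1 * p ^ e := (one_mul _).symm
      _ ≤ _ := Nat.mul_le_mul_right _ hB1
  have hBτ : aeval (ρ ^ p ^ e) B = 0 := by
    rw [← expand_aeval, hBe, minpoly.aeval]
  obtain ⟨S, hS⟩ : ∃ S, S = separableClosure (IntermediateField.adjoin k {ρ ^ p ^ n}) Ω :=
    ⟨_, rfl⟩
  have hkS : ∀ f : k[X], (aeval (algebraMap (RatFunc k) Ω RatFunc.X) f : Ω) ∈ S := by
    intro f
    have hη : algebraMap (RatFunc k) Ω RatFunc.X ∈ S := by
      rw [hS]
      exact mem_separableClosure_iff.2 hηs
    induction f using Polynomial.induction_on with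
    | C a =>
      rw [aeval_C]
      exact S.algebraMap_mem (algebraMap k (IntermediateField.adjoin k {ρ ^ p ^ n}) a)
    | add f g hf hg =>
      rw [map_add]
      exact S.add_mem hf hg
    | monomial m a hm =>
      rw [pow_succ, ← mul_assoc, map_mul, aeval_X]
      exact S.mul_mem hm hη
  have halg : ∀ f : k[X], (aeval (algebraMap (RatFunc k) Ω RatFunc.X) f : Ω) =
      algebraMap (RatFunc k) Ω (algebraMap k[X] (RatFunc k) f) := by
    intro f
    rw [aeval_algebraMap_apply]
    congr 1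
    induction f using Polynomial.induction_on' with
    | add p q hp hq => rw [map_add, map_add, hp, hq]
    | monomial n a =>
      rw [← Polynomial.C_mul_X_pow_eq_monomial, map_mul, map_pow, aeval_X, aeval_C, map_mul,
        map_pow, RatFunc.algebraMap_X]
      congr 1
  have hKS : ∀ c : RatFunc k, algebraMap (RatFunc k) Ω c ∈ S := by
    intro c
    obtain ⟨f, g, _, rfl⟩ := IsFractionRing.div_surjective (A := k[X]) c
    rw [map_div₀, ← halg, ← halg]
    exact S.div_mem (hkS f) (hkS g)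
  have hτS : ρ ^ p ^ e ∈ S := by
    have h1 : aeval (ρ ^ p ^ e) (B.map ((algebraMap (RatFunc k) Ω).codRestrict S hKS)) = 0 := by
      rw [aeval_def, Polynomial.eval₂_map]
      exact hBτ
    have h2 : IsSeparable S (ρ ^ p ^ e) := hBs.map.of_dvd (minpoly.dvd _ _ h1)
    rw [hS] at h2 ⊢
    exact mem_separableClosure_iff.2
      (IsSeparable.of_algebra_isSeparable_of_isSeparable _ h2)
  have hcF : CharP (IntermediateField.adjoin k {ρ ^ p ^ n}) p :=
    charP_of_injective_algebraMap
      (algebraMap k (IntermediateField.adjoin k {ρ ^ p ^ n})).injective p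
  have heF : ExpChar (IntermediateField.adjoin k {ρ ^ p ^ n}) p := ExpChar.prime Fact.out
  have hτP : ρ ^ p ^ e ∈ perfectClosure (IntermediateField.adjoin k {ρ ^ p ^ n}) Ω := by
    rw [mem_perfectClosure_iff_pow_mem p]
    refine ⟨n - e, ⟨⟨ρ ^ p ^ n, IntermediateField.mem_adjoin_simple_self k _⟩, ?_⟩⟩
    show ρ ^ p ^ n = _
    rw [← pow_mul, ← pow_add, Nat.add_sub_cancel' hen.le]
  have hτb : ρ ^ p ^ e ∈ (⊥ : IntermediateField (IntermediateField.adjoin k {ρ ^ p ^ n}) Ω) := by
    rw [← separableClosure_inf_perfectClosure]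
    rw [hS] at hτS
    exact ⟨hτS, hτP⟩
  obtain ⟨z, hz⟩ := IntermediateField.mem_bot.1 hτb
  have hτF : ρ ^ p ^ e ∈ IntermediateField.adjoin k {(ρ ^ p ^ e) ^ p ^ (n - e)} := by
    rw [← pow_mul, ← pow_add, Nat.add_sub_cancel' hen.le, ← hz]
    exact z.2
  refine fc_notmem (hρt.pow (pow_pos hp0 e)) ?_ hτF
  calc 2 ≤ p := hp2
    _ = p ^ 1 := (pow_one p).symm
    _ ≤ _ := Nat.pow_le_pow_right hp0 (by omega)

end Pool.Agent.Work.MP_16d7ed_al.GK
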