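import Pool.Agent.Work.MP_16d7ed_al.GK.Nw
import Pool.Agent.Work.MP_16d7ed_al.GK.CombA
import Pool.Agent.Work.MP_16d7ed_al.GK.CombB
import Pool.Agent.Work.MP_16d7ed_al.GK.Gr

/-!
# GapCore: subcubic growth bounds the number of normal words of every length

Common part of `GapT` and `CentLin`.
-/

set_option autoImplicit false

open Polynomial Module

namespace Pool.Agent.Work.MP_16d7ed_al.GK

theorem pow_mono_of_one {k D : Type*} [Field k] [Ring D] [Algebra k D] (V : Submodule k D) (h1 : (1 : D) ∈ V)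
    {a b : ℕ} (hab : a ≤ b) : V ^ a ≤ V ^ b := by
  obtain ⟨c, rfl⟩ := Nat.exists_eq_add_of_le hab
  rw [pow_add]
  intro x hx
  have h2 : (1 : D) ∈ V ^ c := by
    have := Submodule.pow_mem_pow V h1 c
    rwa [one_pow] at this
  have := Submodule.mul_mem_mul hx h2
  rwa [mul_one] at this

theorem word_mem_pow {k D : Type*} [Field k] [Ring D] [Algebra k D] (V : Submodule k D) (c : ℕ) {r : ℕ}
    (s : Fin r → D) (hs : ∀ a, s a ∈ V ^ c) (u : List (Fin r)) : word s u ∈ V ^ (c * u.length) := by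
  induction u with
  | nil =>
    have h0 : word s ([] : List (Fin r)) = 1 := by simp [word]
    rw [h0, List.length_nil, mul_zero, pow_zero]
    exact Submodule.one_le.1 le_rfl
  | cons a u ih =>
    have h1 : word s (a :: u) = s a * word s u := by simp [word]
    rw [h1, List.length_cons, mul_add, mul_one, add_comm, pow_add]
    exact Submodule.mul_mem_mul (hs a) ih

private theorem count_step {r : ℕ} (N : Set (List (Fin r))) (n : ℕ) :
    {u | u ∈ N ∧ u.length ≤ n + 1}.ncard =
      {u | u ∈ N ∧ u.length ≤ n}.ncard + {u | u ∈ N ∧ u.length = n + 1}.ncard := by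
  have h1 : {u | u ∈ N ∧ u.length ≤ n + 1} = {u | u ∈ N ∧ u.length ≤ n} ∪ {u | u ∈ N ∧ u.length = n + 1} := by
    ext u
    constructor
    · rintro ⟨h1, h2⟩
      rcases Nat.lt_or_ge u.length (n + 1) with h3 | h3
      · exact Or.inl ⟨h1, by omega⟩
      · exact Or.inr ⟨h1, by omega⟩
    · rintro (⟨h1, h2⟩ | ⟨h1, h2⟩)
      · exact ⟨h1, by omega⟩
      · exact ⟨h1, by omega⟩
  have h2 : {u | u ∈ N ∧ u.length ≤ n}.Finite := (List.finite_length_le (Fin r) n).subset fun _ hu => hu.2
  have h3 : {u | u ∈ N ∧ u.length = n + 1}.Finite :=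
    (List.finite_length_eq (Fin r) (n + 1)).subset fun _ hu => hu.2
  have h4 : Disjoint {u | u ∈ N ∧ u.length ≤ n} {u | u ∈ N ∧ u.length = n + 1} := by
    rw [Set.disjoint_left]
    rintro u ⟨_, h2⟩ ⟨_, h3⟩
    omega
  rw [h1, Set.ncard_union_eq h4 h2 h3]

theorem nrm_fin {K D : Type*} [DivisionRing K] [Ring D] [Module K D] {r : ℕ} (s : Fin r → D) (n : ℕ) :
    {u | u ∈ Nrm K s ∧ u.length ≤ n}.Finite :=
  (List.finite_length_le (Fin r) n).subset fun _ hu => hu.2

/-- the dimension of the span of the words of length at most `n` is at most `C (n + 1)` if there are at most `C` normal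
words of every length -/
theorem count_le {r : ℕ} (N : Set (List (Fin r))) (C : ℕ) (h : ∀ m, {u | u ∈ N ∧ u.length = m}.ncard ≤ C) (n : ℕ) :
    {u | u ∈ N ∧ u.length ≤ n}.ncard ≤ C * (n + 1) := by
  induction n with
  | zero =>
    have h1 : {u | u ∈ N ∧ u.length ≤ 0} = {u | u ∈ N ∧ u.length = 0} := by
      ext u
      simp
    rw [h1]
    simpa using h 0
  | succ n ih =>
    rw [count_step]
    have := h (n + 1)
    calc _ ≤ C * (n + 1) + C := Nat.add_le_add ih this
      _ = C * (n + 1 + 1) := by ring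

theorem gapCore {k K D : Type*} [Field k] [Field K] [Algebra k K] [DivisionRing D] [Algebra k D]
    [Module K D] [IsScalarTower K D D] [IsScalarTower k K D]
    (V : Submodule k D) (hV : V.FG) (h1 : (1 : D) ∈ V) (hg : SubCubic k V)
    (T : K) (hT : Transcendental k T) (b : D) (hb : b ≠ 0) (c₀ : ℕ)
    (h : ∀ N j m, j ≤ N → ∀ w ∈ V ^ m, b ^ N * (T ^ j • w) ∈ V ^ (c₀ * N + m))
    {r : ℕ} (s : Fin r → D) (c : ℕ) (hc : 1 ≤ c) (hsV : ∀ a, s a ∈ V ^ c)
    (hs : ∀ a (e : K), s a * (e • (1 : D)) ∈ Submodule.span K (Set.range s)) :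
    (∃ C : ℕ, ∀ m, {u | u ∈ Nrm K s ∧ u.length = m}.ncard ≤ C) ∧
    ((∀ m, ∃ u ∈ Nrm K s, m ≤ u.length) →
      ∃ v : List (Fin r), v ≠ [] ∧ ∀ n, (List.replicate n v).flatten ∈ Nrm K s) := by
  classical
  have hfac : ∀ u v w, u ++ v ++ w ∈ Nrm K s → v ∈ Nrm K s := nrm_factor s hs
  obtain ⟨d, hd, hpd⟩ : ∃ d, 1 ≤ d ∧ {u | u ∈ Nrm K s ∧ u.length = d}.ncard ≤ d := by
    by_contra hcon
    push Not at hcon
    have hcount : ∀ n, n ^ 2 + 3 * n ≤ 2 * {u | u ∈ Nrm K s ∧ u.length ≤ n}.ncard := by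
      intro n
      induction n with
      | zero => simp
      | succ n ih =>
        rw [count_step]
        have h2 := hcon (n + 1) (by omega)
        nlinarith
    have hgrow : ∀ n, (n + 1) * {u | u ∈ Nrm K s ∧ u.length ≤ n}.ncard ≤
        finrank k (V ^ (c₀ * n + c * n) : Submodule k D) := by
      intro n
      have hfin := nrm_fin (K := K) s n
      set F := hfin.toFinset with hF
      have hFc : {u | u ∈ Nrm K s ∧ u.length ≤ n}.ncard = F.card := Set.ncard_eq_toFinset_card _ hfin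
      rw [hFc]
      let e := F.equivFin.symm
      have hmem : ∀ i, ((e i : List (Fin r)) ∈ Nrm K s ∧ (e i : List (Fin r)).length ≤ n) := fun i =>
        hfin.mem_toFinset.1 (e i).2
      refine growth_indep V hV T hT b hb c₀ h (c * n) F.card (fun i => word s (e i : List (Fin r))) ?_ ?_ n
      · intro i
        exact pow_mono_of_one V h1 (Nat.mul_le_mul_left c (hmem i).2) (word_mem_pow V c s hsV _)
      · refine (nrm_indep (K := K) s).comp (fun i => (⟨(e i : List (Fin r)), (hmem i).1⟩ : Nrm K s)) ?_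
        intro i j hij
        have : (e i : List (Fin r)) = e j := congrArg (fun x : Nrm K s => (x : List (Fin r))) hij
        exact e.injective (Subtype.ext this)
    obtain ⟨N₀, hN₀⟩ := hg (4 * (c₀ + c) ^ 3)
    set n := max N₀ 1 with hn
    have hn1 : 1 ≤ n := le_max_right _ _
    have hnN : N₀ ≤ n := le_max_left _ _
    have e1 := hN₀ (c₀ * n + c * n) (by nlinarith)
    have e2 := hgrow n
    have e3 := hcount n
    set f := finrank k (V ^ (c₀ * n + c * n) : Submodule k D) with hf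
    set l := {u | u ∈ Nrm K s ∧ u.length ≤ n}.ncard with hl
    have e4 : 4 * f ≤ n ^ 3 := by
      have e5 : (c₀ + c) ^ 3 * (4 * f) ≤ (c₀ + c) ^ 3 * n ^ 3 := by
        calc (c₀ + c) ^ 3 * (4 * f) = 4 * (c₀ + c) ^ 3 * f := by ring
          _ ≤ (c₀ * n + c * n) ^ 3 := e1
          _ = (c₀ + c) ^ 3 * n ^ 3 := by ring
      exact Nat.le_of_mul_le_mul_left e5 (by positivity)
    have e6 : (n + 1) * (n ^ 2 + 3 * n) ≤ (n + 1) * (2 * l) := Nat.mul_le_mul_left _ e3
    have e7 : (n + 1) * (2 * l) = 2 * ((n + 1) * l) := by ring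
    have e8 : 0 < n ^ 2 := by positivity
    nlinarith
  exact combB _ hfac d fun w hw hl => combA _ hfac d hd hpd w hw hl

end Pool.Agent.Work.MP_16d7ed_al.GK
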