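import Pool.Agent.Work.MP_16d7ed_al.GK.GapT

/-!
# MODULE GapI (S-M): the gap theorem in terms of an embedding `ι : RatFunc k → D`; linear degree bound

PROOF. (a) `gapI`: `letI : Module (RatFunc k) D := Module.compHom D (ι : RatFunc k →+* D)` (so `c • d = ι c * d`), the two scalar towers are
`mul_assoc` and `ι (a • c) = a • ι c`; `yy k D = ι X`, `BT X = BI ι X`. Apply `gapT`.
(b) `linDeg`: induction on `n`: for `a ∈ BI ι X ^ (n+2)` take `P` with `bi P a ∈ BI ι X ^ (n+1)` and `P'` killing `bi P a`; `P' * P` kills `a`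
(`bi_mul`), `natDegree ≤ C + C (n+1)`.
-/

set_option autoImplicit false

open Polynomial Module

namespace Pool.Agent.Work.MP_16d7ed_al.GK

variable {k D : Type*} [Field k] [DivisionRing D] [Algebra k D]

theorem gapI (ι : RatFunc k →ₐ[k] D)
    (X : Set D) (hX : X.Finite) (h : ∀ x ∈ X, ∃ P : k[X][X], P ≠ 0 ∧ bi k (ι RatFunc.X) P x = 0)
    (V : Submodule k D) (hV : V.FG) (h1 : (1 : D) ∈ V) (hy : ι RatFunc.X ∈ V) (hXV : X ⊆ (V : Set D))
    (hg : SubCubic k V) :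
    ∃ C : ℕ, (∀ a ∈ BI ι X, ∃ P : k[X][X], P ≠ 0 ∧ P.natDegree ≤ C ∧ bi k (ι RatFunc.X) P a = 0) ∧
      ∀ n : ℕ, ∀ a ∈ BI ι X ^ (n + 2), ∃ P : k[X][X], P ≠ 0 ∧ P.natDegree ≤ C ∧
        bi k (ι RatFunc.X) P a ∈ BI ι X ^ (n + 1) := by
  letI : Module (RatFunc k) D := Module.compHom D (ι : RatFunc k →+* D)
  have hsm : ∀ (c : RatFunc k) (d : D), c • d = ι c * d := fun _ _ => rfl
  haveI : IsScalarTower (RatFunc k) D D := ⟨fun c a b => by
    rw [hsm, hsm, smul_eq_mul, smul_eq_mul, mul_assoc]⟩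
  haveI : IsScalarTower k (RatFunc k) D := ⟨fun a c d => by
    rw [hsm, hsm, map_smul, smul_mul_assoc]⟩
  have hyy : yy k D = ι RatFunc.X := by
    rw [yy, hsm, mul_one]
  have hBT : BT (k := k) X = BI ι X := by
    have e1 : (Set.range fun c : RatFunc k => c • (1 : D)) = Set.range fun c : RatFunc k => ι c := by
      congr 1
      funext c
      rw [hsm, mul_one]
    have e2 : {d : D | ∃ x ∈ X, ∃ c c' : RatFunc k, d = c • (x * (c' • (1 : D)))} =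
        {d : D | ∃ x ∈ X, ∃ c c' : RatFunc k, d = ι c * (x * ι c')} := by
      ext d
      simp only [Set.mem_setOf_eq, hsm, mul_one]
    unfold BT BI
    rw [e1, e2]
  have hmain := gapT (k := k) (D := D) X hX (by rw [hyy]; exact h) V hV h1 (by rw [hyy]; exact hy)
    hXV hg
  rw [hyy, hBT] at hmain
  exact hmain

theorem linDeg (ι : RatFunc k →ₐ[k] D) (X : Set D) (C : ℕ)
    (hC : (∀ a ∈ BI ι X, ∃ P : k[X][X], P ≠ 0 ∧ P.natDegree ≤ C ∧ bi k (ι RatFunc.X) P a = 0) ∧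
      ∀ n : ℕ, ∀ a ∈ BI ι X ^ (n + 2), ∃ P : k[X][X], P ≠ 0 ∧ P.natDegree ≤ C ∧
        bi k (ι RatFunc.X) P a ∈ BI ι X ^ (n + 1)) :
    ∀ n : ℕ, ∀ a ∈ BI ι X ^ (n + 1), ∃ P : k[X][X], P ≠ 0 ∧ P.natDegree ≤ C * (n + 1) ∧
      bi k (ι RatFunc.X) P a = 0 := by
  intro n
  induction n with
  | zero =>
    intro a ha
    rw [zero_add, pow_one] at ha
    obtain ⟨P, hP0, hP1, hP2⟩ := hC.1 a ha
    exact ⟨P, hP0, by omega, hP2⟩
  | succ n ih =>
    intro a ha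
    obtain ⟨P, hP0, hP1, hP2⟩ := hC.2 n a ha
    obtain ⟨P', hP'0, hP'1, hP'2⟩ := ih _ hP2
    refine ⟨P' * P, mul_ne_zero hP'0 hP0, ?_, ?_⟩
    · rw [natDegree_mul hP'0 hP0]
      have h1 : C * (n + 1 + 1) = C * (n + 1) + C := by ring
      omega
    · rw [bi_mul, hP'2]

end Pool.Agent.Work.MP_16d7ed_al.GK
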