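import Pool.Agent.Work.MP_16d7ed_al.GK.GapCore
import Pool.Agent.Work.MP_16d7ed_al.GK.BiK

/-!
# MODULE WordSet (M-L): the bimodule `M = K + Σ K x K` has finite left dimension

`K = RatFunc k` acts on the left of the division ring `D`; write `ι c = c • 1` (a ring homomorphism: `(c • 1) * (c' • 1) = (c c') • 1`,
`ι c * d = c • d`), `y = yy k D = ι X`, `R` = right multiplication by `y` (it is `K`-linear for the left structure).

PROOF. Let `x ∈ X`, `P ≠ 0`, `bi k y P x = 0`, `d = P.natDegree`, `P = Σ_j f_j(s) t^j`. So `Σ_j f_j(y) x y^j = 0`, and `f_d(y) = ι (f_d)` is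
invertible (`f_d ≠ 0` and `ι` is injective; note `aeval y f = ι (algebraMap f) = (algebraMap f) • 1`). Let
`N_x = span_K {x y^j : j < d}` (left span). Then `x y^d ∈ N_x`, `N_x` is stable under `R`, hence under right multiplication by
every `f(y)`, `f ∈ k[X]`. For `f ≠ 0` right multiplication by `f(y)` is a `K`-linear injective endomorphism of the finite
dimensional space `N_x`, hence surjective, so `N_x f(y)⁻¹ ⊆ N_x`. Every `c ∈ K` is `f / g` so `N_x * ι c ⊆ N_x`. If `d = 0` then `x = 0`
and `N_x = 0`; in all cases `x ∈ N_x` and `K x K = N_x`.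
Let `s : Fin r → D` enumerate all `x y^j`, `x ∈ X`, `j < d_x` (a finite set), `c` a common bound `≥ 1` for `j + 1` (`x y^j ∈ V^(j+1) ⊆ V^c` as
`1 ∈ V`). Then `s a * ι e ∈ span_K (range s)`. `BT X = span_K ({1} ∪ range s)` as sets = span of the words of length `≤ 1`.
By induction `BT X ^ (n+1)` = span of the words of length `≤ n+1`: `⊇`: clear (`BT X ^ n * BT X`, and `K * BT X ⊆ BT X`);
`⊆`: `(e • word u) * (e' • t) = e • (word u * ι e') * t` with `t ∈ {1} ∪ range s`, and `word u * ι e'` is in the span of the words of
the same length. (`Submodule.pow` of `k`-submodules: use `Submodule.mul_le`, `Submodule.pow_succ`; show equality of sets by two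
inclusions, with `Submodule.span_induction`.)
-/

set_option autoImplicit false

open Polynomial Module

namespace Pool.Agent.Work.MP_16d7ed_al.GK

section gen

variable {K D : Type*} [DivisionRing K] [Ring D] [Module K D] [IsScalarTower K D D] {r : ℕ}

private theorem word_append (s : Fin r → D) (u v : List (Fin r)) : word s (u ++ v) = word s u * word s v := by
  simp [word]

private theorem word_cons (s : Fin r → D) (a : Fin r) (u : List (Fin r)) : word s (a :: u) = s a * word s u := by
  simp [word]

private theorem smul_eq (c : K) (x : D) : c • x = (c • (1 : D)) * x := by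
  rw [smul_mul_assoc, one_mul]

private theorem stepA (s : Fin r → D)
    (hs : ∀ a (c : K), s a * (c • (1 : D)) ∈ Submodule.span K (Set.range s)) (u : List (Fin r)) (c : K) :
    word s u * (c • (1 : D)) ∈ Submodule.span K (word s '' {x | x.length = u.length}) := by
  induction u generalizing c with
  | nil =>
    have : word s ([] : List (Fin r)) * (c • (1 : D)) = c • word s [] := by simp [word]
    rw [this]
    exact Submodule.smul_mem _ _ (Submodule.subset_span ⟨[], rfl, rfl⟩)
  | cons a u ih =>
    rw [word_cons, mul_assoc]
    have key : ∀ z ∈ Submodule.span K (word s '' {x | x.length = u.length}), ∀ e : K,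
        s a * (e • z) ∈ Submodule.span K (word s '' {x | x.length = (a :: u).length}) := by
      intro z hz
      induction hz using Submodule.span_induction with
      | mem z hz =>
        obtain ⟨x, hx, rfl⟩ := hz
        intro e
        rw [smul_eq, ← mul_assoc]
        have h1 := hs a e
        have h2 : ∀ q ∈ Submodule.span K (Set.range s), q * word s x ∈
            Submodule.span K (word s '' {x | x.length = (a :: u).length}) := by
          intro q hq
          induction hq using Submodule.span_induction with
          | mem q hq =>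
            obtain ⟨b, rfl⟩ := hq
            rw [← word_cons]
            refine Submodule.subset_span ⟨b :: x, ?_, rfl⟩
            show (b :: x).length = (a :: u).length
            have hx' : x.length = u.length := hx
            simp [hx']
          | zero => rw [zero_mul]; exact Submodule.zero_mem _
          | add q q' _ _ h h' => rw [add_mul]; exact Submodule.add_mem _ h h'
          | smul c q _ h => rw [smul_mul_assoc]; exact Submodule.smul_mem _ _ h
        exact h2 _ h1
      | zero => intro e; rw [smul_zero, mul_zero]; exact Submodule.zero_mem _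
      | add z z' _ _ h h' =>
        intro e
        rw [smul_add, mul_add]
        exact Submodule.add_mem _ (h e) (h' e)
      | smul c z _ h =>
        intro e
        rw [smul_smul]
        exact h _
    have := key _ (ih c) 1
    rwa [one_smul] at this

private theorem mulL (s : Fin r → D)
    (hs : ∀ a (c : K), s a * (c • (1 : D)) ∈ Submodule.span K (Set.range s)) (m l : ℕ) (a z : D)
    (ha : a ∈ Submodule.span K (word s '' {u | u.length ≤ m}))
    (hz : z ∈ Submodule.span K (word s '' {u | u.length ≤ l})) :
    a * z ∈ Submodule.span K (word s '' {u | u.length ≤ m + l}) := by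
  have key : ∀ u : List (Fin r), u.length ≤ m → ∀ z ∈ Submodule.span K (word s '' {u | u.length ≤ l}), ∀ e : K,
      word s u * (e • z) ∈ Submodule.span K (word s '' {u | u.length ≤ m + l}) := by
    intro u hu z hz
    induction hz using Submodule.span_induction with
    | mem z hz =>
      obtain ⟨x, hx, rfl⟩ := hz
      intro e
      rw [smul_eq, ← mul_assoc]
      have h2 : ∀ q ∈ Submodule.span K (word s '' {x | x.length = u.length}), q * word s x ∈
          Submodule.span K (word s '' {u | u.length ≤ m + l}) := by
        intro q hq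
        induction hq using Submodule.span_induction with
        | mem q hq =>
          obtain ⟨x', hx', rfl⟩ := hq
          rw [← word_append]
          refine Submodule.subset_span ⟨x' ++ x, ?_, rfl⟩
          have e1 : x'.length = u.length := hx'
          have e2 : x.length ≤ l := hx
          show (x' ++ x).length ≤ m + l
          rw [List.length_append]
          omega
        | zero => rw [zero_mul]; exact Submodule.zero_mem _
        | add q q' _ _ h h' => rw [add_mul]; exact Submodule.add_mem _ h h'
        | smul c q _ h => rw [smul_mul_assoc]; exact Submodule.smul_mem _ _ h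
      exact h2 _ (stepA s hs u e)
    | zero => intro e; rw [smul_zero, mul_zero]; exact Submodule.zero_mem _
    | add z z' _ _ h h' =>
      intro e
      rw [smul_add, mul_add]
      exact Submodule.add_mem _ (h e) (h' e)
    | smul c z _ h =>
      intro e
      rw [smul_smul]
      exact h _
  induction ha using Submodule.span_induction with
  | mem a ha =>
    obtain ⟨u, hu, rfl⟩ := ha
    have := key u hu z hz 1
    rwa [one_smul] at this
  | zero => rw [zero_mul]; exact Submodule.zero_mem _
  | add a a' _ _ h h' => rw [add_mul]; exact Submodule.add_mem _ h h'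
  | smul c a _ h => rw [smul_mul_assoc]; exact Submodule.smul_mem _ _ h

end gen

section aux

variable {k D : Type*} [Field k] [DivisionRing D] [Algebra k D] [Module (RatFunc k) D]
    [IsScalarTower (RatFunc k) D D] [IsScalarTower k (RatFunc k) D]

private theorem smul_one_ne (c : RatFunc k) (hc : c ≠ 0) : c • (1 : D) ≠ 0 := by
  intro h
  have : c⁻¹ • (c • (1 : D)) = 0 := by rw [h, smul_zero]
  rw [smul_smul, inv_mul_cancel₀ hc, one_smul] at this
  exact one_ne_zero this

/-- the left space spanned by `x y^j`, `j < d` -/
private noncomputable def NN (x : D) (d : ℕ) : Submodule (RatFunc k) D :=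
  Submodule.span (RatFunc k) (Set.range fun j : Fin d => x * yy k D ^ (j : ℕ))

private theorem NN_top (x : D) (P : k[X][X]) (hP : P ≠ 0) (h : bi k (yy k D) P x = 0) :
    x * yy k D ^ P.natDegree ∈ NN (k := k) x P.natDegree := by
  have hinj : Function.Injective (algebraMap k[X] (RatFunc k)) := IsFractionRing.injective _ _
  set A := P.map (algebraMap k[X] (RatFunc k)) with hA
  have hAd : A.natDegree = P.natDegree := Polynomial.natDegree_map_eq_of_injective hinj P
  have hA0 : A ≠ 0 := (Polynomial.map_ne_zero_iff hinj).2 hP
  have h1 : aeval (LinearMap.mulRight (RatFunc k) (yy k D)) A x = 0 := by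
    rw [hA, biK, h]
  have h2 : aeval (LinearMap.mulRight (RatFunc k) (yy k D)) A x =
      ∑ i ∈ Finset.range P.natDegree, A.coeff i • (x * yy k D ^ i) +
        A.leadingCoeff • (x * yy k D ^ P.natDegree) := by
    rw [Polynomial.aeval_eq_sum_range, LinearMap.sum_apply, Finset.sum_range_succ, hAd,
      Polynomial.leadingCoeff, hAd]
    simp [LinearMap.pow_mulRight]
  rw [h1] at h2
  have hl : A.leadingCoeff ≠ 0 := Polynomial.leadingCoeff_ne_zero.2 hA0
  have h3 : x * yy k D ^ P.natDegree =
      A.leadingCoeff⁻¹ • (-∑ i ∈ Finset.range P.natDegree, A.coeff i • (x * yy k D ^ i)) := by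
    have h4 : A.leadingCoeff • (x * yy k D ^ P.natDegree) =
        -∑ i ∈ Finset.range P.natDegree, A.coeff i • (x * yy k D ^ i) := by
      rw [eq_neg_iff_add_eq_zero, add_comm]
      exact h2.symm
    rw [← h4, smul_smul, inv_mul_cancel₀ hl, one_smul]
  rw [h3]
  apply Submodule.smul_mem
  apply Submodule.neg_mem
  apply Submodule.sum_mem
  intro i hi
  apply Submodule.smul_mem
  exact Submodule.subset_span ⟨⟨i, Finset.mem_range.1 hi⟩, rfl⟩

private theorem NN_y (x : D) (d : ℕ) (hd : x * yy k D ^ d ∈ NN (k := k) x d) (z : D) (hz : z ∈ NN (k := k) x d) :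
    z * yy k D ∈ NN (k := k) x d := by
  unfold NN at hz
  induction hz using Submodule.span_induction with
  | mem z hz =>
    obtain ⟨j, rfl⟩ := hz
    show x * yy k D ^ (j : ℕ) * yy k D ∈ _
    rw [mul_assoc, ← pow_succ]
    rcases Nat.lt_or_ge (j + 1) d with h1 | h1
    · exact Submodule.subset_span ⟨⟨j + 1, h1⟩, rfl⟩
    · have : (j : ℕ) + 1 = d := by omega
      rw [this]
      exact hd
  | zero => rw [zero_mul]; exact Submodule.zero_mem _
  | add q q' _ _ h h' => rw [add_mul]; exact Submodule.add_mem _ h h'
  | smul c q _ h => rw [smul_mul_assoc]; exact Submodule.smul_mem _ _ h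

private theorem NN_f (x : D) (d : ℕ) (hd : x * yy k D ^ d ∈ NN (k := k) x d) (f : k[X]) (z : D)
    (hz : z ∈ NN (k := k) x d) : z * aeval (yy k D) f ∈ NN (k := k) x d := by
  have hpow : ∀ j : ℕ, z * yy k D ^ j ∈ NN (k := k) x d := by
    intro j
    induction j with
    | zero => simpa using hz
    | succ j ih => rw [pow_succ, ← mul_assoc]; exact NN_y x d hd _ ih
  induction f using Polynomial.induction_on' with
  | add f g hf hg => rw [map_add, mul_add]; exact Submodule.add_mem _ hf hg
  | monomial n c =>
    rw [Polynomial.aeval_monomial, ← Algebra.smul_def, mul_smul_comm,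
      ← algebraMap_smul (RatFunc k) c (z * yy k D ^ n)]
    exact Submodule.smul_mem _ _ (hpow n)

private theorem NN_K (x : D) (d : ℕ) (hd : x * yy k D ^ d ∈ NN (k := k) x d) (c : RatFunc k) (z : D)
    (hz : z ∈ NN (k := k) x d) : z * (c • (1 : D)) ∈ NN (k := k) x d := by
  obtain ⟨f, g, hg, hc⟩ := IsFractionRing.div_surjective (A := k[X]) c
  have hg0 : (algebraMap k[X] (RatFunc k) g) ≠ 0 := by
    intro h0
    have : g = 0 := (IsFractionRing.injective k[X] (RatFunc k)) (by rw [h0, map_zero])
    exact nonZeroDivisors.ne_zero hg this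
  have hgy : aeval (yy k D) g ≠ 0 := by
    rw [← aeval_smul_one]
    exact smul_one_ne _ hg0
  have : FiniteDimensional (RatFunc k) (NN (k := k) x d) :=
    FiniteDimensional.span_of_finite _ (Set.finite_range _)
  let R : NN (k := k) x d →ₗ[RatFunc k] NN (k := k) x d :=
    (LinearMap.mulRight (RatFunc k) (aeval (yy k D) g)).restrict fun z hz => NN_f x d hd g z hz
  have hR : Function.Injective R := by
    intro a b hab
    have h1 : (a : D) * aeval (yy k D) g = (b : D) * aeval (yy k D) g := congrArg Subtype.val hab
    exact Subtype.ext (mul_right_cancel₀ hgy h1)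
  have hRs : Function.Surjective R := LinearMap.injective_iff_surjective.1 hR
  obtain ⟨z', hz'⟩ := hRs ⟨z, hz⟩
  have h2 : (z' : D) * aeval (yy k D) g = z := congrArg Subtype.val hz'
  have h3 : aeval (yy k D) g * (c • (1 : D)) = aeval (yy k D) f := by
    rw [← aeval_smul_one, ← aeval_smul_one, ← smul_eq, smul_smul, ← hc, mul_div_cancel₀ _ hg0]
  rw [← h2, mul_assoc, h3]
  exact NN_f x d hd f _ z'.2

private theorem NN_self (x : D) (d : ℕ) (hd : x * yy k D ^ d ∈ NN (k := k) x d) : x ∈ NN (k := k) x d := by
  rcases Nat.eq_zero_or_pos d with h0 | h0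
  · subst h0
    simpa using hd
  · exact Submodule.subset_span ⟨⟨0, h0⟩, by simp⟩

end aux

theorem wordSet {k D : Type*} [Field k] [DivisionRing D] [Algebra k D] [Module (RatFunc k) D]
    [IsScalarTower (RatFunc k) D D] [IsScalarTower k (RatFunc k) D]
    (X : Set D) (hX : X.Finite) (h : ∀ x ∈ X, ∃ P : k[X][X], P ≠ 0 ∧ bi k (yy k D) P x = 0)
    (V : Submodule k D) (h1 : (1 : D) ∈ V) (hy : yy k D ∈ V) (hXV : X ⊆ (V : Set D)) :
    ∃ (r : ℕ) (s : Fin r → D) (c : ℕ), 1 ≤ c ∧ (∀ a, s a ∈ V ^ c) ∧
      (∀ a (e : RatFunc k), s a * (e • (1 : D)) ∈ Submodule.span (RatFunc k) (Set.range s)) ∧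
      ∀ n : ℕ, ((BT (k := k) X ^ (n + 1) : Submodule k D) : Set D) =
        (Submodule.span (RatFunc k) (word s '' {u | u.length ≤ n + 1}) : Set D) := by
  classical
  have hex : ∀ x : D, ∃ d : ℕ, x ∈ X → x * yy k D ^ d ∈ NN (k := k) x d := by
    intro x
    by_cases hx : x ∈ X
    · obtain ⟨P, hP, hPx⟩ := h x hx
      exact ⟨P.natDegree, fun _ => NN_top x P hP hPx⟩
    · exact ⟨0, fun hx' => absurd hx' hx⟩
  choose d hd using hex
  let T : Set D := ⋃ x ∈ X, Set.range fun j : Fin (d x) => x * yy k D ^ (j : ℕ)
  have hT : T.Finite := hX.biUnion fun x _ => Set.finite_range _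
  let e := hT.toFinset.equivFin.symm
  let s : Fin hT.toFinset.card → D := fun i => (e i : D)
  have hrange : Set.range s = T := by
    ext t
    constructor
    · rintro ⟨i, rfl⟩
      exact hT.mem_toFinset.1 (e i).2
    · intro ht
      exact ⟨e.symm ⟨t, hT.mem_toFinset.2 ht⟩, by simp [s]⟩
  have hNT : ∀ x ∈ X, NN (k := k) x (d x) ≤ Submodule.span (RatFunc k) (Set.range s) := by
    intro x hx
    rw [hrange]
    apply Submodule.span_mono
    exact Set.subset_biUnion_of_mem (u := fun x => Set.range fun j : Fin (d x) => x * yy k D ^ (j : ℕ)) hx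
  have hs : ∀ a (e : RatFunc k), s a * (e • (1 : D)) ∈ Submodule.span (RatFunc k) (Set.range s) := by
    intro a c
    have ha : s a ∈ T := by
      rw [← hrange]
      exact ⟨a, rfl⟩
    obtain ⟨x, hx, j, hj⟩ : ∃ x ∈ X, ∃ j : Fin (d x), x * yy k D ^ (j : ℕ) = s a := by
      simpa [T] using ha
    apply hNT x hx
    apply NN_K x (d x) (hd x hx)
    rw [← hj]
    exact Submodule.subset_span ⟨j, rfl⟩
  have hV : ∀ a, ∃ c : ℕ, s a ∈ V ^ c := by
    intro a
    have ha : s a ∈ T := by
      rw [← hrange]
      exact ⟨a, rfl⟩
    obtain ⟨x, hx, j, hj⟩ : ∃ x ∈ X, ∃ j : Fin (d x), x * yy k D ^ (j : ℕ) = s a := by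
      simpa [T] using ha
    refine ⟨1 + j, ?_⟩
    rw [← hj, pow_add, pow_one]
    exact Submodule.mul_mem_mul (hXV hx) (Submodule.pow_mem_pow V hy j)
  choose cc hcc using hV
  refine ⟨hT.toFinset.card, s, (∑ a, cc a) + 1, by omega, ?_, hs, ?_⟩
  · intro a
    refine pow_mono_of_one V h1 ?_ (hcc a)
    exact (Finset.single_le_sum (f := cc) (fun _ _ => Nat.zero_le _) (Finset.mem_univ a)).trans (Nat.le_succ _)
  · -- the equality
    have hone : (1 : D) ∈ BT (k := k) X := by
      apply Submodule.mem_sup_left
      apply Submodule.subset_span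
      exact ⟨1, one_smul _ _⟩
    have hsmul : ∀ c : RatFunc k, ∀ a ∈ BT (k := k) X, c • a ∈ BT (k := k) X := by
      intro c a ha
      have h2 : BT (k := k) X ≤ Submodule.comap (LinearMap.mulLeft k (c • (1 : D))) (BT (k := k) X) := by
        conv_lhs => rw [BT]
        rw [sup_le_iff, Submodule.span_le, Submodule.span_le]
        constructor
        · rintro _ ⟨c', rfl⟩
          show (c • (1 : D)) * (c' • (1 : D)) ∈ BT (k := k) X
          rw [← smul_eq, smul_smul]
          exact Submodule.mem_sup_left (Submodule.subset_span ⟨_, rfl⟩)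
        · rintro _ ⟨x, hx, c', c'', rfl⟩
          show (c • (1 : D)) * (c' • (x * (c'' • (1 : D)))) ∈ BT (k := k) X
          rw [← smul_eq, smul_smul]
          exact Submodule.mem_sup_right (Submodule.subset_span ⟨x, hx, _, _, rfl⟩)
      have h3 := h2 ha
      have h4 : (c • (1 : D)) * a ∈ BT (k := k) X := h3
      rwa [← smul_eq] at h4
    have hsmul' : ∀ n : ℕ, ∀ c : RatFunc k, ∀ a ∈ BT (k := k) X ^ (n + 1), c • a ∈ BT (k := k) X ^ (n + 1) := by
      intro n c a ha
      rw [pow_succ'] at ha ⊢
      induction ha using Submodule.mul_induction_on' with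
      | mem_mul_mem a ha b hb =>
        rw [← smul_mul_assoc]
        exact Submodule.mul_mem_mul (hsmul c a ha) hb
      | add a _ b _ h h' => rw [smul_add]; exact Submodule.add_mem _ h h'
    have hyj : ∀ j : ℕ, (RatFunc.X : RatFunc k) ^ j • (1 : D) = yy k D ^ j := by
      intro j
      induction j with
      | zero => simp
      | succ j ih => rw [pow_succ', pow_succ', mul_smul, ih, smul_eq]
    have hsB : ∀ a, s a ∈ BT (k := k) X ^ 1 := by
      intro a
      rw [pow_one]
      have ha : s a ∈ T := by
        rw [← hrange]
        exact ⟨a, rfl⟩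
      obtain ⟨x, hx, j, hj⟩ : ∃ x ∈ X, ∃ j : Fin (d x), x * yy k D ^ (j : ℕ) = s a := by
        simpa [T] using ha
      rw [← hj, ← hyj]
      refine Submodule.mem_sup_right (Submodule.subset_span ⟨x, hx, 1, RatFunc.X ^ (j : ℕ), ?_⟩)
      rw [one_smul]
    have hsub : ∀ n : ℕ, ∀ a ∈ BT (k := k) X ^ (n + 1),
        a ∈ Submodule.span (RatFunc k) (word s '' {u | u.length ≤ n + 1}) := by
      have hbase : ∀ a ∈ BT (k := k) X, a ∈ Submodule.span (RatFunc k) (word s '' {u | u.length ≤ 1}) := by
        have hnil : (1 : D) ∈ Submodule.span (RatFunc k) (word s '' {u | u.length ≤ 1}) :=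
          Submodule.subset_span ⟨[], by simp, by simp [word]⟩
        have hle : Submodule.span (RatFunc k) (Set.range s) ≤
            Submodule.span (RatFunc k) (word s '' {u | u.length ≤ 1}) := by
          rw [Submodule.span_le]
          rintro _ ⟨a, rfl⟩
          exact Submodule.subset_span ⟨[a], by simp, by simp [word]⟩
        have h2 : BT (k := k) X ≤
            (Submodule.span (RatFunc k) (word s '' {u | u.length ≤ 1})).restrictScalars k := by
          rw [BT, sup_le_iff, Submodule.span_le, Submodule.span_le]
          constructor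
          · rintro _ ⟨c', rfl⟩
            exact Submodule.smul_mem _ _ hnil
          · rintro _ ⟨x, hx, c', c'', rfl⟩
            refine Submodule.smul_mem _ _ (hle (hNT x hx ?_))
            exact NN_K x (d x) (hd x hx) _ _ (NN_self x (d x) (hd x hx))
        exact fun a ha => h2 ha
      intro n
      induction n with
      | zero =>
        intro a ha
        rw [zero_add, pow_one] at ha
        exact hbase a ha
      | succ n ih =>
        intro a ha
        rw [pow_succ] at ha
        induction ha using Submodule.mul_induction_on' with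
        | mem_mul_mem a ha b hb => exact mulL s hs (n + 1) 1 a b (ih a ha) (hbase b hb)
        | add a _ b _ h h' => exact Submodule.add_mem _ h h'
    intro n
    apply Set.Subset.antisymm
    · intro a ha
      exact hsub n a ha
    · have key : ∀ a ∈ Submodule.span (RatFunc k) (word s '' {u | u.length ≤ n + 1}),
          a ∈ BT (k := k) X ^ (n + 1) := by
        intro a ha
        induction ha using Submodule.span_induction with
        | mem a ha =>
          obtain ⟨u, hu, rfl⟩ := ha
          have h2 := word_mem_pow (BT (k := k) X) 1 s hsB u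
          rw [one_mul] at h2
          exact pow_mono_of_one _ hone hu h2
        | zero => exact Submodule.zero_mem _
        | add a a' _ _ h h' => exact Submodule.add_mem _ h h'
        | smul c a _ h => exact hsmul' n c a h
      exact fun a ha => key a ha

end Pool.Agent.Work.MP_16d7ed_al.GK
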