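import Pool.Agent.Work.MP_16d7ed_al.GK.GapCore
import Pool.Agent.Work.MP_16d7ed_al.GK.BiK
import Pool.Agent.Work.MP_16d7ed_al.GK.WordSet

/-!
# MODULE GapT (M-L): Bergman gap for `M^n`: bounded left increments

PROOF. Take `r, s, c` from `wordSet`; `N = Nrm K s`, `K = RatFunc k`, is factor closed (`nrm_factor`); `p m` = number of words of
length `m` in `N`. Claim: there is `d ≥ 1` with `p d ≤ d`. Suppose `p m ≥ m + 1` for all `m ≥ 1`. Then for every `n` there are
`l ≥ n^2 / 2` normal words of length `≤ n` (`Σ_{m=1}^n (m+1) ≥ n^2/2`), they are `K`-independent (`nrm_indep`) and lie in `V^(c n)`.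
`growth_indep` with `T = RatFunc.X` (`RatFunc.transcendental_X`), `b = 1`, its constant `c` equal to `1` (`X^j • w = y^j * w ∈ V^(N+m)` for `j ≤ N`,
as `1, y ∈ V`), `N = n`, `m = c n`: `(n + 1) l ≤ finrank V^(n + c n)`, so `n^3 ≤ 2 (n+1) l ≤ 2 finrank (V^((c+1) n))`. By `hg` with the constant
`4 (c+1)^3`: for large `n`, `4 (c+1)^3 finrank (V^((c+1)n)) ≤ (c+1)^3 n^3`, so `4 n^3 ≤ 2 n^3`: contradiction for `n ≥ 1`.
By `combA`, `combB` there is `C₀` with `p m ≤ C₀` for all `m`. Let `L_n` = left `K`-span of the words of length `≤ n` =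
span of the normal ones (`nrm_span`); `L_{n+1} / L_n` has dimension `≤ C₀`, `L_1` has dimension `≤ 1 + C₀`. For `a ∈ L_{n+2} =
BT X ^ (n+2)` the `C₀ + 1` elements `a y^j`, `j ≤ C₀`, are in `L_{n+2}` (`L_{n+2} y ⊆ L_{n+2}`: `BT X ^ (n+2) * ι c ⊆ BT X ^ (n+2)`, from
`hs` for words, or from the definition of `BT X`), so there are `p_j ∈ K` not all zero with `Σ p_j • a y^j ∈ L_{n+1}`
(a family of `C₀ + 1` vectors in a quotient of dimension `≤ C₀`; the quotient is spanned by the images of at most `C₀` words).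
Clearing denominators (`L_{n+1}` is a left `K`-space; `IsLocalization.exist_integer_multiples` or multiply by the product of the
denominators) we may take `p_j = f_j ∈ k[X]`, so `P = Σ C f_j * X^j ≠ 0`, `natDegree ≤ C₀` and `bi k y P a = Σ f_j(y) a y^j ∈ L_{n+1}`.
Likewise for `a ∈ BT X = L_1` with `C₀ + 2` vectors. `C = C₀ + 1`.
-/

set_option autoImplicit false

open Polynomial Module

namespace Pool.Agent.Work.MP_16d7ed_al.GK

section aux

variable {k D : Type*} [Field k] [DivisionRing D] [Algebra k D] [Module (RatFunc k) D]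
    [IsScalarTower (RatFunc k) D D] [IsScalarTower k (RatFunc k) D]

private theorem smul_eq (c : RatFunc k) (x : D) : c • x = (c • (1 : D)) * x := by
  rw [smul_mul_assoc, one_mul]

private theorem clear (L : Submodule (RatFunc k) D) (n : ℕ) (g : Fin (n + 1) → RatFunc k) (hg : ∃ i, g i ≠ 0)
    (a : D) (h : ∑ j, g j • (a * yy k D ^ (j : ℕ)) ∈ L) :
    ∃ P : k[X][X], P ≠ 0 ∧ P.natDegree ≤ n ∧ bi k (yy k D) P a ∈ L := by
  classical
  obtain ⟨b, hb⟩ := IsLocalization.exist_integer_multiples_of_finite (nonZeroDivisors k[X]) g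
  choose f hf using hb
  have hb0 : (algebraMap k[X] (RatFunc k) (b : k[X])) ≠ 0 := by
    intro h0
    have : (b : k[X]) = 0 := (IsFractionRing.injective k[X] (RatFunc k)) (by rw [h0, map_zero])
    exact nonZeroDivisors.coe_ne_zero b this
  have hf' : ∀ j, algebraMap k[X] (RatFunc k) (f j) = algebraMap k[X] (RatFunc k) (b : k[X]) * g j := by
    intro j
    rw [hf j, Algebra.smul_def]
  have hcoeff : ∀ j : Fin (n + 1), (∑ j : Fin (n + 1), C (f j) * X ^ (j : ℕ) : k[X][X]).coeff (j : ℕ) = f j := by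
    intro j
    rw [Polynomial.finsetSum_coeff]
    rw [Finset.sum_eq_single j]
    · simp
    · intro i _ hij
      rw [Polynomial.coeff_C_mul_X_pow, if_neg]
      intro h
      exact hij (Fin.ext h.symm)
    · intro h
      exact absurd (Finset.mem_univ _) h
  refine ⟨∑ j : Fin (n + 1), C (f j) * X ^ (j : ℕ), ?_, ?_, ?_⟩
  · intro h0
    obtain ⟨i, hi⟩ := hg
    have h1 := hcoeff i
    rw [h0, Polynomial.coeff_zero] at h1
    have h2 := hf' i
    rw [← h1, map_zero] at h2
    rcases mul_eq_zero.1 h2.symm with h3 | h3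
    · exact hb0 h3
    · exact hi h3
  · apply Polynomial.natDegree_sum_le_of_forall_le
    intro i _
    exact (Polynomial.natDegree_C_mul_X_pow_le _ _).trans (by omega)
  · have h1 : bi k (yy k D) (∑ j : Fin (n + 1), C (f j) * X ^ (j : ℕ)) a =
        (algebraMap k[X] (RatFunc k) (b : k[X])) • ∑ j, g j • (a * yy k D ^ (j : ℕ)) := by
      rw [map_sum, LinearMap.sum_apply, Finset.smul_sum]
      refine Finset.sum_congr rfl fun j _ => ?_
      have hX : ∀ m : ℕ, ∀ d : D, bi k (yy k D) (X ^ m) d = d * yy k D ^ m := by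
        intro m
        induction m with
        | zero => intro d; simp
        | succ m ih =>
          intro d
          rw [pow_succ, bi_mul, bi_X, ih, pow_succ', mul_assoc]
      rw [bi_mul, bi_C, hX, ← aeval_smul_one, ← smul_eq, hf' j, mul_smul]
    rw [h1]
    exact L.smul_mem _ h

private theorem rel (L : Submodule (RatFunc k) D) (S : Set D) (hS : S.Finite) (n : ℕ) (hn : S.ncard ≤ n) (a : D)
    (ha : ∀ j : ℕ, a * yy k D ^ j ∈ L ⊔ Submodule.span (RatFunc k) S) :
    ∃ P : k[X][X], P ≠ 0 ∧ P.natDegree ≤ n ∧ bi k (yy k D) P a ∈ L := by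
  classical
  let Q : Submodule (RatFunc k) (D ⧸ L) := Submodule.span (RatFunc k) (L.mkQ '' S)
  have hQfin : (L.mkQ '' S).Finite := hS.image _
  have : Module.Finite (RatFunc k) Q := Module.Finite.span_of_finite _ hQfin
  have hQ : finrank (RatFunc k) Q ≤ n := by
    have h1 : finrank (RatFunc k) Q ≤ hQfin.toFinset.card := by
      have h2 := finrank_span_finset_le_card (R := RatFunc k) hQfin.toFinset
      rwa [Set.Finite.coe_toFinset] at h2
    refine h1.trans ?_
    rw [← Set.ncard_eq_toFinset_card _ hQfin]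
    exact (Set.ncard_image_le hS).trans hn
  have hmem : ∀ j : ℕ, L.mkQ (a * yy k D ^ j) ∈ Q := by
    intro j
    obtain ⟨x, hx, z, hz, hxz⟩ := Submodule.mem_sup.1 (ha j)
    rw [← hxz, map_add]
    have h1 : L.mkQ x = 0 := by
      rw [Submodule.mkQ_apply, Submodule.Quotient.mk_eq_zero]
      exact hx
    rw [h1, zero_add]
    have h2 : Submodule.map L.mkQ (Submodule.span (RatFunc k) S) = Q := Submodule.map_span _ _
    rw [← h2]
    exact Submodule.mem_map_of_mem hz
  let v : Fin (n + 1) → Q := fun j => ⟨L.mkQ (a * yy k D ^ (j : ℕ)), hmem j⟩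
  have hnot : ¬ LinearIndependent (RatFunc k) v := by
    intro hli
    have h1 := hli.fintype_card_le_finrank
    rw [Fintype.card_fin] at h1
    omega
  obtain ⟨g, hg, hg'⟩ := Fintype.not_linearIndependent_iff.1 hnot
  refine clear L n g hg' a ?_
  have h2 : L.mkQ (∑ j, g j • (a * yy k D ^ (j : ℕ))) = 0 := by
    have h3 := congrArg (Submodule.subtype Q) hg
    rw [map_sum] at h3
    rw [map_sum]
    simpa [v] using h3
  rwa [Submodule.mkQ_apply, Submodule.Quotient.mk_eq_zero] at h2

private theorem BT_mul_y (X : Set D) (a : D) (ha : a ∈ BT (k := k) X) : a * yy k D ∈ BT (k := k) X := by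
  have key : BT (k := k) X ≤ Submodule.comap (LinearMap.mulRight k (yy k D)) (BT (k := k) X) := by
    conv_lhs => rw [BT]
    rw [sup_le_iff, Submodule.span_le, Submodule.span_le]
    constructor
    · rintro _ ⟨c, rfl⟩
      show (c • (1 : D)) * yy k D ∈ BT (k := k) X
      have h1 : (c • (1 : D)) * yy k D = (c * RatFunc.X) • (1 : D) := by
        rw [← smul_eq, yy, smul_smul]
      rw [h1]
      exact Submodule.mem_sup_left (Submodule.subset_span ⟨_, rfl⟩)
    · rintro _ ⟨x, hx, c, c', rfl⟩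
      show (c • (x * (c' • (1 : D)))) * yy k D ∈ BT (k := k) X
      have h1 : (c • (x * (c' • (1 : D)))) * yy k D = c • (x * ((c' * RatFunc.X) • (1 : D))) := by
        rw [smul_mul_assoc, mul_assoc, ← smul_eq, yy, smul_smul]
      rw [h1]
      exact Submodule.mem_sup_right (Submodule.subset_span ⟨x, hx, c, _, rfl⟩)
  exact key ha

private theorem BTpow_mul_y (X : Set D) (n : ℕ) (a : D) (ha : a ∈ BT (k := k) X ^ (n + 1)) :
    a * yy k D ∈ BT (k := k) X ^ (n + 1) := by
  rw [pow_succ] at ha ⊢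
  induction ha using Submodule.mul_induction_on' with
  | mem_mul_mem a ha b hb =>
    rw [mul_assoc]
    exact Submodule.mul_mem_mul ha (BT_mul_y X b hb)
  | add a _ b _ h h' => rw [add_mul]; exact Submodule.add_mem _ h h'

private theorem BTpow_mul_ypow (X : Set D) (n : ℕ) (a : D) (ha : a ∈ BT (k := k) X ^ (n + 1)) (j : ℕ) :
    a * yy k D ^ j ∈ BT (k := k) X ^ (n + 1) := by
  induction j with
  | zero => simpa using ha
  | succ j ih => rw [pow_succ (yy k D), ← mul_assoc]; exact BTpow_mul_y X n _ ih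

end aux

theorem gapT {k D : Type*} [Field k] [DivisionRing D] [Algebra k D] [Module (RatFunc k) D]
    [IsScalarTower (RatFunc k) D D] [IsScalarTower k (RatFunc k) D]
    (X : Set D) (hX : X.Finite) (h : ∀ x ∈ X, ∃ P : k[X][X], P ≠ 0 ∧ bi k (yy k D) P x = 0)
    (V : Submodule k D) (hV : V.FG) (h1 : (1 : D) ∈ V) (hy : yy k D ∈ V) (hXV : X ⊆ (V : Set D))
    (hg : SubCubic k V) :
    ∃ C : ℕ, (∀ a ∈ BT (k := k) X, ∃ P : k[X][X], P ≠ 0 ∧ P.natDegree ≤ C ∧ bi k (yy k D) P a = 0) ∧
      ∀ n : ℕ, ∀ a ∈ BT (k := k) X ^ (n + 2), ∃ P : k[X][X], P ≠ 0 ∧ P.natDegree ≤ C ∧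
        bi k (yy k D) P a ∈ BT (k := k) X ^ (n + 1) := by
  classical
  obtain ⟨r, s, c, hc1, hsV, hs, hBT⟩ := wordSet X hX h V h1 hy hXV
  have hyy : ∀ j : ℕ, (RatFunc.X : RatFunc k) ^ j • (1 : D) = yy k D ^ j := by
    intro j
    induction j with
    | zero => simp
    | succ j ih => rw [pow_succ', pow_succ', mul_smul, ih, smul_eq]
  have hcond : ∀ N j m : ℕ, j ≤ N → ∀ w ∈ V ^ m,
      (1 : D) ^ N * ((RatFunc.X : RatFunc k) ^ j • w) ∈ V ^ (1 * N + m) := by
    intro N j m hj w hw
    rw [one_pow, one_mul, smul_eq, hyy, one_mul, pow_add]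
    exact Submodule.mul_mem_mul (pow_mono_of_one V h1 hj (Submodule.pow_mem_pow V hy j)) hw
  obtain ⟨⟨C₀, hC₀⟩, -⟩ := gapCore V hV h1 hg (RatFunc.X : RatFunc k) RatFunc.transcendental_X (1 : D)
    one_ne_zero 1 hcond s c hc1 hsV hs
  have hfinN : ∀ m, {u | u ∈ Nrm (RatFunc k) s ∧ u.length = m}.Finite := fun m =>
    (List.finite_length_eq (Fin r) m).subset fun _ hu => hu.2
  have hspan : ∀ n, Submodule.span (RatFunc k) (word s '' {u | u.length ≤ n + 1}) ≤
      Submodule.span (RatFunc k) (word s '' {u | u.length ≤ n}) ⊔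
        Submodule.span (RatFunc k) (word s '' {u | u ∈ Nrm (RatFunc k) s ∧ u.length = n + 1}) := by
    intro n
    rw [nrm_span, Submodule.span_le]
    rintro _ ⟨u, ⟨hu1, hu2⟩, rfl⟩
    rcases Nat.lt_or_ge u.length (n + 1) with h3 | h3
    · exact Submodule.mem_sup_left (Submodule.subset_span ⟨u, (show u.length ≤ n by omega), rfl⟩)
    · exact Submodule.mem_sup_right (Submodule.subset_span ⟨u, ⟨hu1, by omega⟩, rfl⟩)
  refine ⟨2 * C₀, ?_, ?_⟩
  · intro a ha
    have hfin := nrm_fin (K := RatFunc k) s 1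
    obtain ⟨P, hP1, hP2, hP3⟩ := rel (k := k) (⊥ : Submodule (RatFunc k) D)
      (word s '' {u | u ∈ Nrm (RatFunc k) s ∧ u.length ≤ 1}) (hfin.image _) (2 * C₀) (by
        refine (Set.ncard_image_le hfin).trans ?_
        have := count_le (Nrm (RatFunc k) s) C₀ hC₀ 1
        omega) a (by
        intro j
        rw [bot_sup_eq, ← nrm_span]
        have h2 := BTpow_mul_ypow (k := k) X 0 a (by simpa using ha) j
        have h3 : a * yy k D ^ j ∈ ((BT (k := k) X ^ (0 + 1) : Submodule k D) : Set D) := h2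
        rw [hBT 0] at h3
        exact h3)
    exact ⟨P, hP1, hP2, (Submodule.mem_bot _).1 hP3⟩
  · intro n a ha
    obtain ⟨P, hP1, hP2, hP3⟩ := rel (k := k) (Submodule.span (RatFunc k) (word s '' {u | u.length ≤ n + 1}))
      (word s '' {u | u ∈ Nrm (RatFunc k) s ∧ u.length = n + 2}) ((hfinN _).image _) (2 * C₀) (by
        refine (Set.ncard_image_le (hfinN _)).trans ?_
        have := hC₀ (n + 2)
        omega) a (by
        intro j
        apply hspan (n + 1)
        have h2 := BTpow_mul_ypow (k := k) X (n + 1) a ha j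
        have h3 : a * yy k D ^ j ∈ ((BT (k := k) X ^ (n + 1 + 1) : Submodule k D) : Set D) := h2
        rw [hBT (n + 1)] at h3
        exact h3)
    refine ⟨P, hP1, hP2, ?_⟩
    have h3 : bi k (yy k D) P a ∈
        (Submodule.span (RatFunc k) (word s '' {u | u.length ≤ n + 1}) : Set D) := hP3
    rw [← hBT n] at h3
    exact h3

end Pool.Agent.Work.MP_16d7ed_al.GK
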