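import Pool.Agent.Work.MP_16d7ed_al.GK.Defs

/-!
# MODULE GcdArg (M): a common divisor kills

PROOF. `k[X][X]` is a UFD; let `G = gcd P Q` (`UniqueFactorizationMonoid`, e.g. `letI := UniqueFactorizationMonoid.toGCDMonoid`, or take a divisor
`G` of both of largest degree...), `P = G P'`, `Q = G Q'`, `P', Q'` without common non-unit factor, `G ≠ 0`. Then there are `A, B ∈ k[X][X]` and
`0 ≠ f ∈ k[X]` with `A P' + B Q' = C f`: in `K[X]`, `K = RatFunc k` (or `FractionRing k[X]`), `P'` and `Q'` are coprime: otherwise they have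
a common factor of positive degree in `K[X]`, which may be taken primitive in `k[X][X]` (clear denominators, take the primitive
part), and then by Gauss' lemma (`Polynomial.IsPrimitive.dvd_of_fraction_map_dvd_fraction_map`) it divides `P'` and `Q'` in `k[X][X]`:
contradiction. Clear denominators in a Bezout relation. Hence `f(y) * bi G a = bi (C f * G) a = bi (A P) a + bi (B Q) a
= bi A (bi P a) + bi B (bi Q a) ∈ N` (`N` is stable under `bi`, from `hN`), and multiplication by `ι (1/f)` on the left (in `N` by `hN`) gives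
`bi G a ∈ N`; note `aeval (ι X) f = ι f` is nonzero as `ι` is injective. Degrees: `G ∣ P` so `natDegree G ≤ natDegree P`
(`Polynomial.natDegree_le_of_dvd`), `swap G ∣ swap Q`.
-/

set_option autoImplicit false

open Polynomial Module

namespace Pool.Agent.Work.MP_16d7ed_al.GK

section aux

open nonZeroDivisors IsLocalization

private theorem ga_coprime {R K : Type*} [CommRing R] [IsDomain R] [IsGCDMonoid R] [Field K]
    [Algebra R K] [IsFractionRing R K] {P Q : R[X]} (hP : P ≠ 0) (h : IsRelPrime P Q) :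
    IsCoprime (P.map (algebraMap R K)) (Q.map (algebraMap R K)) := by
  classical
  let : NormalizedGCDMonoid R := Nonempty.some inferInstance
  apply IsRelPrime.isCoprime
  intro d hdP hdQ
  have hinj := IsFractionRing.injective R K
  have hd0 : d ≠ 0 := by
    rintro rfl
    rw [zero_dvd_iff] at hdP
    exact hP (map_injective (algebraMap R K) hinj (by rw [hdP, Polynomial.map_zero]))
  obtain ⟨b, hb, hbd⟩ := integerNormalization_spec R⁰ d
  have hb0 : algebraMap R K b ≠ 0 := by
    intro hh
    exact nonZeroDivisors.ne_zero hb (hinj (by rw [hh, map_zero]))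
  have hprim : (integerNormalization R⁰ d).primPart.IsPrimitive := isPrimitive_primPart _
  have hdvd : (integerNormalization R⁰ d).primPart.map (algebraMap R K) ∣ d := by
    have h1 : (integerNormalization R⁰ d).primPart.map (algebraMap R K) ∣
        C (algebraMap R K b) * d := by
      refine ⟨C (algebraMap R K (integerNormalization R⁰ d).content), ?_⟩
      have h2 : C (algebraMap R K b) * d = (integerNormalization R⁰ d).map (algebraMap R K) := by
        rw [hbd, Algebra.smul_def, Polynomial.algebraMap_apply]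
      rw [h2]
      conv_lhs => rw [(integerNormalization R⁰ d).eq_C_content_mul_primPart]
      rw [Polynomial.map_mul, map_C, mul_comm]
    exact (IsUnit.dvd_mul_left (isUnit_C.2 (isUnit_iff_ne_zero.2 hb0))).1 h1
  apply isUnit_or_eq_zero_of_isUnit_integerNormalization_primPart (R := R) hd0
  exact h (hprim.dvd_of_fraction_map_dvd_fraction_map (hdvd.trans hdP))
    (hprim.dvd_of_fraction_map_dvd_fraction_map (hdvd.trans hdQ))

private theorem ga_bezout {R : Type*} [CommRing R] [IsDomain R] [IsGCDMonoid R] {P Q : R[X]}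
    (hP : P ≠ 0) (h : IsRelPrime P Q) :
    ∃ (A B : R[X]) (f : R), f ≠ 0 ∧ A * P + B * Q = C f := by
  obtain ⟨u, v, huv⟩ := ga_coprime (K := FractionRing R) hP h
  obtain ⟨b, hb, hbu⟩ := integerNormalization_spec R⁰ u
  obtain ⟨c, hc, hcv⟩ := integerNormalization_spec R⁰ v
  refine ⟨C c * integerNormalization R⁰ u, C b * integerNormalization R⁰ v, b * c,
    mul_ne_zero (nonZeroDivisors.ne_zero hb) (nonZeroDivisors.ne_zero hc), ?_⟩
  apply map_injective (algebraMap R (FractionRing R)) (IsFractionRing.injective _ _)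
  rw [Algebra.smul_def, Polynomial.algebraMap_apply] at hbu hcv
  rw [Polynomial.map_add, Polynomial.map_mul, Polynomial.map_mul, Polynomial.map_mul,
    Polynomial.map_mul, hbu, hcv, map_C, map_C, map_C, map_mul, C_mul]
  linear_combination (C (algebraMap R (FractionRing R) b) * C (algebraMap R (FractionRing R) c)) * huv

end aux

section aux2

variable {k D : Type*} [Field k] [DivisionRing D] [Algebra k D]

private theorem ga_aeval (ι : RatFunc k →ₐ[k] D) (f : k[X]) :
    aeval (ι RatFunc.X) f = ι (aeval RatFunc.X f) := by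
  rw [Polynomial.aeval_algHom_apply]

private theorem ga_bi (ι : RatFunc k →ₐ[k] D) (N : Submodule k D)
    (hN : ∀ c : RatFunc k, ∀ a ∈ N, ι c * a ∈ N) (hN' : ∀ c : RatFunc k, ∀ a ∈ N, a * ι c ∈ N)
    (P : k[X][X]) {a : D} (ha : a ∈ N) : bi k (ι RatFunc.X) P a ∈ N := by
  rw [bi_apply, Polynomial.sum_def]
  refine Submodule.sum_mem _ fun j _ => ?_
  rw [ga_aeval, ← map_pow]
  exact hN' _ _ (hN _ _ ha)

end aux2

open Polynomial.Bivariate in
theorem gcdArg {k D : Type*} [Field k] [DivisionRing D] [Algebra k D] (ι : RatFunc k →ₐ[k] D)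
    (N : Submodule k D) (hN : ∀ c : RatFunc k, ∀ a ∈ N, ι c * a ∈ N) (hN' : ∀ c : RatFunc k, ∀ a ∈ N, a * ι c ∈ N)
    (a : D) (P Q : k[X][X]) (hP : P ≠ 0) (hQ : Q ≠ 0)
    (hPa : bi k (ι RatFunc.X) P a ∈ N) (hQa : bi k (ι RatFunc.X) Q a ∈ N) :
    ∃ G : k[X][X], G ≠ 0 ∧ G.natDegree ≤ P.natDegree ∧ (swap G).natDegree ≤ (swap Q).natDegree ∧
      bi k (ι RatFunc.X) G a ∈ N := by
  obtain ⟨P', Q', G, hrel, hGP, hGQ⟩ := UniqueFactorizationMonoid.exists_reduced_factors P hP Q
  have hG0 : G ≠ 0 := by
    rintro rfl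
    exact hP (by rw [← hGP, zero_mul])
  have hP'0 : P' ≠ 0 := by
    rintro rfl
    exact hP (by rw [← hGP, mul_zero])
  obtain ⟨A, B, f, hf, hAB⟩ := ga_bezout hP'0 hrel
  refine ⟨G, hG0, natDegree_le_of_dvd ⟨P', hGP.symm⟩ hP, ?_, ?_⟩
  · refine natDegree_le_of_dvd ⟨swap Q', by rw [← hGQ, map_mul]⟩ ?_
    intro h
    exact hQ (by rw [← swap_swap_apply Q, h, map_zero])
  · have h1 : bi k (ι RatFunc.X) (C f * G) a ∈ N := by
      have h2 : C f * G = A * P + B * Q := by
        rw [← hAB, ← hGP, ← hGQ]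
        ring
      rw [h2, map_add, LinearMap.add_apply, bi_mul, bi_mul]
      exact N.add_mem (ga_bi ι N hN hN' A hPa) (ga_bi ι N hN hN' B hQa)
    rw [bi_mul, bi_C, ga_aeval] at h1
    have hf0 : (aeval (RatFunc.X : RatFunc k) f) ≠ 0 := by
      have h3 : aeval (RatFunc.X : RatFunc k) f = algebraMap k[X] (RatFunc k) f := by
        rw [← RatFunc.algebraMap_X, Polynomial.aeval_algebraMap_apply, Polynomial.aeval_X_left_apply]
      rw [h3]
      exact (map_ne_zero_iff _ (IsFractionRing.injective k[X] (RatFunc k))).2 hf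
    have h4 := hN (aeval (RatFunc.X : RatFunc k) f)⁻¹ _ h1
    rw [← mul_assoc, ← map_mul, inv_mul_cancel₀ hf0, map_one, one_mul] at h4
    exact h4

end Pool.Agent.Work.MP_16d7ed_al.GK
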