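import Pool.Agent.Work.MP_16d7ed_al.GK.Eig
import Pool.Agent.Work.MP_16d7ed_al.GK.BcDesc
import Pool.Agent.Work.MP_16d7ed_al.GK.FtA
import Pool.Agent.Work.MP_16d7ed_al.GK.FtB
import Pool.Agent.Work.MP_16d7ed_al.GK.FtC

/-!
# MODULE Insep (M): an inseparable type forces exponential left degrees

PROOF. `K = RatFunc k`, `Ω = AlgebraicClosure K`, `η` = image of `RatFunc.X`, `R = Rr Ω (yy k D)`. Claim: for all `n` there is a list `l` of elements `μ` of `Ω` with
`En k p η n μ` such that `Π (X - μ)` evaluated at `R` kills `1 ⊗ v^n`. `n = 0`: `l = [η]`: `R (1 ⊗ 1) = 1 ⊗ y = 1 ⊗ (X • 1) = η • (1 ⊗ 1)`; `En k p η 0 η`: `η` is transcendental over `k`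
and lies in `k(η^1)`. Step: by `mulList` (`b = v`, `Q = P`) `Π_{μ ∈ l} P(μ, R)` kills `Rr v (1 ⊗ v^n) = 1 ⊗ v^(n+1)`. Each `P(μ, T) = P.map (aeval μ) ∈ Ω[T]` is nonzero (`P ≠ 0`, `μ` transcendental:
`aeval μ` is injective) and splits: `P(μ, T) = unit * Π (T - ρ)` over its roots (`IsAlgClosed.splits`, `Polynomial.Splits.eq_prod_roots`...), and by `ftA`, `en_succ` every
root `ρ` has `En k p η (n+1) ρ`. So the list of all roots works for `n + 1`.
Let `A ≠ 0` kill `v^n`. By `bcDesc` applied to `f = Π (X - μ)`, `μ ∈ l`, there is `0 ≠ P₀ ∈ K[X]` killing `v^n` with `P₀_Ω ∣ f`. `G = gcd A P₀` kills `v^n` (Bezout), `G ≠ 0`,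
and `G` is not constant since `v^n ≠ 0`. Let `ρ ∈ Ω` be a root of `G_Ω`; it is a root of `f`, so it is one of the `μ`, `En k p η n ρ`, and by `en_degree`
`p^n ≤ natDegree G ≤ natDegree A`.
-/

set_option autoImplicit false

open Polynomial Module

namespace Pool.Agent.Work.MP_16d7ed_al.GK

open scoped TensorProduct

private theorem is_dvd {F W : Type*} [Field F] [AddCommGroup W] [Module F W] (R : Module.End F W)
    {f g : F[X]} (h : f ∣ g) {u : W} (hu : aeval R f u = 0) : aeval R g u = 0 := by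
  obtain ⟨c, rfl⟩ := h
  rw [mul_comm, map_mul, Module.End.mul_apply, hu, map_zero]

private theorem is_roots {F : Type*} [Field F] [IsAlgClosed F] (f : F[X]) (hf : f ≠ 0) :
    f ∣ (f.roots.toList.map fun μ => X - C μ).prod := by
  have h1 := (IsAlgClosed.splits f).eq_prod_roots
  have h2 : (f.roots.toList.map fun μ => X - C μ).prod = (f.roots.map (X - C ·)).prod := by
    conv_rhs => rw [← Multiset.coe_toList f.roots, Multiset.map_coe, Multiset.prod_coe]
  rw [h2]
  refine ⟨C (f.leadingCoeff)⁻¹, ?_⟩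
  have h3 : C (f.leadingCoeff)⁻¹ * f =
      C (f.leadingCoeff)⁻¹ * (C f.leadingCoeff * (f.roots.map (X - C ·)).prod) := congrArg _ h1
  rw [mul_comm f, h3, ← mul_assoc, ← C_mul, inv_mul_cancel₀ (leadingCoeff_ne_zero.2 hf), C_1,
    one_mul]

private theorem is_list {F : Type*} [Field F] [IsAlgClosed F] (l : List F) (g : F → F[X])
    (hg : ∀ μ ∈ l, g μ ≠ 0) :
    (l.map g).prod ∣ ((l.flatMap fun μ => (g μ).roots.toList).map fun μ => X - C μ).prod := by
  induction l with
  | nil => exact dvd_rfl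
  | cons μ l ih =>
    rw [List.map_cons, List.prod_cons, List.flatMap_cons, List.map_append, List.prod_append]
    exact mul_dvd_mul (is_roots _ (hg μ List.mem_cons_self))
      (ih fun ν hν => hg ν (List.mem_cons_of_mem _ hν))

section

variable {k D : Type*} [Field k] [Finite k] [DivisionRing D] [Algebra k D] [Module (RatFunc k) D]
  [IsScalarTower (RatFunc k) D D] [IsScalarTower k (RatFunc k) D]
  (Ω : Type*) [Field Ω] [Algebra k Ω] [Algebra (RatFunc k) Ω] [IsScalarTower k (RatFunc k) Ω]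
  [IsAlgClosed Ω]

private theorem is_claim (p : ℕ) [Fact p.Prime] [CharP k p] (v : D) (P : k[X][X])
    (hP : Irreducible P) (hd : derivative P = 0) (h : bi k (yy k D) P v = 0) (n : ℕ) :
    ∃ l : List Ω, (∀ μ ∈ l, En k p (algebraMap (RatFunc k) Ω RatFunc.X) n μ) ∧
      aeval (Rr (k := k) Ω (yy k D)) (l.map fun μ => X - C μ).prod
        ((1 : Ω) ⊗ₜ[RatFunc k] (v ^ n)) = 0 := by
  induction n with
  | zero =>
    refine ⟨[algebraMap (RatFunc k) Ω RatFunc.X], ?_, ?_⟩
    · intro μ hμ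
      rw [List.mem_singleton] at hμ
      subst hμ
      refine ⟨(transcendental_algebraMap_iff (algebraMap (RatFunc k) Ω).injective).2
        RatFunc.transcendental_X, ?_⟩
      have h1 : algebraMap (RatFunc k) Ω RatFunc.X ∈ IntermediateField.adjoin k
          {algebraMap (RatFunc k) Ω RatFunc.X ^ p ^ 0} := by
        have h2 := IntermediateField.mem_adjoin_simple_self k
          (algebraMap (RatFunc k) Ω RatFunc.X ^ p ^ 0)
        rw [pow_zero, pow_one] at h2 ⊢
        exact h2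
      exact isSeparable_algebraMap (F := IntermediateField.adjoin k
        {algebraMap (RatFunc k) Ω RatFunc.X ^ p ^ 0}) (K := Ω) ⟨_, h1⟩
    · rw [List.map_singleton, List.prod_singleton, map_sub, aeval_X, aeval_C,
        LinearMap.sub_apply, Module.algebraMap_end_apply, pow_zero, sub_eq_zero]
      unfold Rr
      rw [LinearMap.baseChange_tmul, LinearMap.mulRight_apply, one_mul,
        ← TensorProduct.smul_tmul, TensorProduct.smul_tmul', Algebra.smul_def, smul_eq_mul]
  | succ n ih =>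
    obtain ⟨l, hl, hk⟩ := ih
    have h1 := mulList Ω v P h l _ hk
    have h2 : Rr (k := k) Ω v ((1 : Ω) ⊗ₜ[RatFunc k] (v ^ n)) =
        (1 : Ω) ⊗ₜ[RatFunc k] (v ^ (n + 1)) := by
      unfold Rr
      rw [LinearMap.baseChange_tmul, LinearMap.mulRight_apply, pow_succ]
    rw [h2] at h1
    have h3 : ∀ μ ∈ l, P.map ((aeval μ : k[X] →ₐ[k] Ω) : k[X] →+* Ω) ≠ 0 := by
      intro μ hμ h0
      have h4 : Function.Injective ((aeval μ : k[X] →ₐ[k] Ω) : k[X] →+* Ω) :=
        transcendental_iff_injective.1 (hl μ hμ).1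
      exact hP.ne_zero ((Polynomial.map_eq_zero_iff h4).1 h0)
    refine ⟨l.flatMap fun μ => (P.map ((aeval μ : k[X] →ₐ[k] Ω) : k[X] →+* Ω)).roots.toList,
      ?_, is_dvd _ (is_list l _ h3) h1⟩
    intro ρ hρ
    obtain ⟨μ, hμ, hρμ⟩ := List.mem_flatMap.1 hρ
    rw [Multiset.mem_toList, Polynomial.mem_roots (h3 μ hμ)] at hρμ
    obtain ⟨h5, h6⟩ := ftA p P hP hd μ ρ (hl μ hμ).1 hρμ
    exact en_succ p _ μ ρ n (hl μ hμ) h5 h6

include Ω in
private theorem is_main (p : ℕ) [Fact p.Prime] [CharP k p] (v : D) (hv : v ≠ 0) (P : k[X][X])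
    (hP : Irreducible P) (hd : derivative P = 0) (h : bi k (yy k D) P v = 0) (n : ℕ)
    (A : (RatFunc k)[X]) (hA : A ≠ 0)
    (hA' : aeval (LinearMap.mulRight (RatFunc k) (yy k D)) A (v ^ n) = 0) :
    p ^ n ≤ A.natDegree := by
  classical
  obtain ⟨l, hl, hk⟩ := is_claim Ω p v P hP hd h n
  have hf0 : (l.map fun μ => (X - C μ : Polynomial Ω)).prod ≠ 0 := by
    apply List.prod_ne_zero
    intro h0
    obtain ⟨μ, _, h1⟩ := List.mem_map.1 h0
    exact X_sub_C_ne_zero μ h1
  obtain ⟨P₀, h0, hk0, hdv⟩ := bcDesc (Ω := Ω) (LinearMap.mulRight (RatFunc k) (yy k D)) (v ^ n) _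
    hf0 hk
  obtain ⟨G, hG⟩ : ∃ G, G = EuclideanDomain.gcd A P₀ := ⟨_, rfl⟩
  have hGA : G ∣ A := by
    rw [hG]
    exact EuclideanDomain.gcd_dvd_left A P₀
  have hGP : G ∣ P₀ := by
    rw [hG]
    exact EuclideanDomain.gcd_dvd_right A P₀
  have hG0 : G ≠ 0 := by
    rintro rfl
    exact hA (zero_dvd_iff.1 hGA)
  have hGk : aeval (LinearMap.mulRight (RatFunc k) (yy k D)) G (v ^ n) = 0 := by
    rw [hG, EuclideanDomain.gcd_eq_gcd_ab, map_add, LinearMap.add_apply,
      is_dvd _ (dvd_mul_right A _) hA', is_dvd _ (dvd_mul_right P₀ _) hk0, add_zero]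
  have hdeg : (G.map (algebraMap (RatFunc k) Ω)).degree ≠ 0 := by
    rw [Polynomial.degree_map]
    intro h1
    rw [Polynomial.eq_C_of_degree_eq_zero h1, aeval_C, Module.algebraMap_end_apply] at hGk
    have h2 := (smul_eq_zero.1 hGk).resolve_right (pow_ne_zero n hv)
    rw [Polynomial.eq_C_of_degree_eq_zero h1, h2, C_0] at hG0
    exact hG0 rfl
  obtain ⟨ρ, hρ⟩ := IsAlgClosed.exists_root _ hdeg
  have hρl : ρ ∈ l := by
    have h1 : IsRoot (l.map fun μ => (X - C μ : Polynomial Ω)).prod ρ := by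
      refine hρ.dvd ?_
      exact (Polynomial.map_dvd (algebraMap (RatFunc k) Ω) hGP).trans hdv
    rw [Polynomial.IsRoot.def, Polynomial.eval_list_prod, List.prod_eq_zero_iff, List.mem_map] at h1
    obtain ⟨g, hg, hg0⟩ := h1
    obtain ⟨μ, hμ, rfl⟩ := List.mem_map.1 hg
    rw [eval_sub, eval_X, eval_C, sub_eq_zero] at hg0
    rw [hg0]
    exact hμ
  have h3 : aeval ρ G = 0 := by
    rw [Polynomial.IsRoot.def, Polynomial.eval_map_algebraMap] at hρ
    exact hρ
  exact (en_degree p n ρ (hl ρ hρl) G hG0 h3).trans (Polynomial.natDegree_le_of_dvd hGA hA)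

end

theorem insep {k D : Type*} [Field k] [Finite k] [DivisionRing D] [Algebra k D] [Module (RatFunc k) D]
    [IsScalarTower (RatFunc k) D D] [IsScalarTower k (RatFunc k) D] (p : ℕ) [Fact p.Prime] [CharP k p]
    (v : D) (hv : v ≠ 0) (P : k[X][X]) (hP : Irreducible P) (hd : derivative P = 0)
    (h : bi k (yy k D) P v = 0) (n : ℕ) (A : (RatFunc k)[X]) (hA : A ≠ 0)
    (hA' : aeval (LinearMap.mulRight (RatFunc k) (yy k D)) A (v ^ n) = 0) : p ^ n ≤ A.natDegree := by
  exact is_main (AlgebraicClosure (RatFunc k)) p v hv P hP hd h n A hA hA'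

end Pool.Agent.Work.MP_16d7ed_al.GK
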