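import Pool.Agent.Work.MP_16d7ed_al.GK.DescA
import Pool.Agent.Work.MP_16d7ed_al.GK.DescB
import Pool.Agent.Work.MP_16d7ed_al.GK.DescC
import Pool.Agent.Work.MP_16d7ed_al.GK.DescD
import Pool.Agent.Work.MP_16d7ed_al.GK.FinMain

/-!
# MODULE Main (M): the final theorem

`x` is `y`-algebraic: the elements `y^i x y^j`, `i, j ≥ 0`, are linearly dependent over `k`.

PROOF. Let `Y = insert y X`, `k₀` from `descA`, `S₀ = adjoin k₀ Y`. `k₀`-independence in `S₀` is `k`-independence. (a) `y` is transcendental over `k₀`. (b) For `x ∈ X`: the elements `y^i x y^j` of `S₀` are `k`-dependent, so a finite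
subfamily is `k`-dependent, hence `k₀`-dependent by `h`; a relation `Σ c_ij y^i x y^j = 0`, `c_ij ∈ k₀` not all zero, is `bi k₀ y P x = 0` with `P = Σ c_ij s^i t^j ≠ 0` (`bi_apply`). (c) Let `V₀ = span_{k₀} (insert 1 Y)`, subcubic by `descGrow`. Apply
`finMain` to the ring `S₀` (elements `⟨y, _⟩` etc., `V₀` pulled back to `S₀`: `V₀.comap S₀.val`, whose powers have the same dimension; `adjoin` of the generators in `S₀` is `⊤`: `Algebra.adjoin_adjoin_coe_preimage`-type lemma).
`mainA`: `descC`. `mainB`: suppose for all `x ∈ X` the elements `y^i x y^j` are dependent; with `X' = X`, `adjoin k (insert y X) = ⊤`; `S₀` is simple by `descSimple` and not simple by `finMain`: contradiction.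
-/

set_option autoImplicit false

open Polynomial Module

namespace Pool.Agent.Work.MP_16d7ed_al.GK

universe u

private theorem indep_of_fin {k R : Type u} [Field k] [Ring R] [Algebra k R] (k₀ : Subfield k)
    (Y : Set R)
    (h : ∀ (m : ℕ) (v : Fin m → R), (∀ i, v i ∈ Algebra.adjoin k₀ Y) → LinearIndependent k₀ v →
      LinearIndependent k v) {ι : Type} (v : ι → R) (hv : ∀ i, v i ∈ Algebra.adjoin k₀ Y)
    (hi : LinearIndependent k₀ v) : LinearIndependent k v := by
  classical
  rw [linearIndependent_iff_finset_linearIndependent]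
  intro s
  have e := s.equivFin
  have h1 : LinearIndependent k₀ (fun j : Fin s.card => v (e.symm j : ι)) := by
    refine hi.comp (fun j : Fin s.card => (e.symm j : ι)) ?_
    exact Subtype.val_injective.comp e.symm.injective
  have h2 := h s.card (fun j => v (e.symm j : ι)) (fun j => hv _) h1
  have h3 : (v ∘ (Subtype.val : s → ι)) ∘ e.symm = fun j : Fin s.card => v (e.symm j : ι) := rfl
  rw [← h3] at h2
  exact (linearIndependent_equiv e.symm).mp h2

private theorem bi_monomial {k D : Type*} [Field k] [Ring D] [Algebra k D] (y a : D) (i j : ℕ)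
    (c : k) : bi k y (Polynomial.monomial j (Polynomial.monomial i c)) a =
      c • (y ^ i * a * y ^ j) := by
  rw [bi_apply, Polynomial.sum_monomial_index _ _ (by simp), Polynomial.aeval_monomial,
    ← Algebra.smul_def, smul_mul_assoc, smul_mul_assoc]

private theorem exists_poly {k D : Type*} [Field k] [Ring D] [Algebra k D] (y x : D)
    (h : ¬ LinearIndependent k (fun i : ℕ × ℕ => y ^ i.1 * x * y ^ i.2)) :
    ∃ P : k[X][X], P ≠ 0 ∧ bi k y P x = 0 := by
  classical
  rw [linearIndependent_iff] at h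
  push Not at h
  obtain ⟨c, hc, hc0⟩ := h
  refine ⟨c.sum fun i a => Polynomial.monomial i.2 (Polynomial.monomial i.1 a), ?_, ?_⟩
  · intro hP
    apply hc0
    ext i
    have h1 := congrArg (fun Q : k[X][X] => (Q.coeff i.2).coeff i.1) hP
    simp only [Finsupp.sum, Polynomial.finset_sum_coeff, Polynomial.coeff_monomial,
      Polynomial.coeff_zero] at h1
    have h2 : ∀ b : ℕ × ℕ, (if b.2 = i.2 then (Polynomial.monomial b.1) (c b) else 0 : k[X]).coeff
        i.1 = if b = i then c b else 0 := by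
      intro b
      by_cases hb : b = i
      · subst hb
        rw [if_pos rfl, if_pos rfl, Polynomial.coeff_monomial, if_pos rfl]
      · rw [if_neg hb]
        by_cases hb2 : b.2 = i.2
        · rw [if_pos hb2, Polynomial.coeff_monomial, if_neg]
          intro hb1
          exact hb (Prod.ext hb1 hb2)
        · rw [if_neg hb2, Polynomial.coeff_zero]
    rw [Finset.sum_congr rfl fun b _ => h2 b, Finset.sum_ite_eq'] at h1
    by_cases hi : i ∈ c.support
    · rw [if_pos hi] at h1
      exact h1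
    · exact Finsupp.notMem_support_iff.mp hi
  · rw [Finsupp.linearCombination_apply] at hc
    rw [← hc]
    simp only [Finsupp.sum, map_sum, LinearMap.sum_apply]
    exact Finset.sum_congr rfl fun i _ => bi_monomial y x i.1 i.2 (c i)

private theorem core {k R : Type u} [Field k] (p : ℕ) [Fact p.Prime] [Algebra (ZMod p) k]
    [Algebra.IsAlgebraic (ZMod p) k]
    [Ring R] [NoZeroDivisors R] [Algebra k R] (hfp : FinPres k R) (hgr : GrowthBelowThree k R)
    (y : R) (hy : Transcendental k y) (X : Set R) (hX : X.Finite)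
    (hal : ∀ x ∈ X, ¬ LinearIndependent k (fun i : ℕ × ℕ => y ^ i.1 * x * y ^ i.2)) :
    ∃ k₀ : Subfield k,
      (∀ (m : ℕ) (v : Fin m → R), (∀ i, v i ∈ Algebra.adjoin k₀ (insert y X)) →
        LinearIndependent k₀ v → LinearIndependent k v) ∧
      (∃ (n : ℕ) (E : Type u) (_ : Field E) (_ : Algebra k₀ E)
        (φ : Algebra.adjoin k₀ (insert y X) →ₐ[k₀] Matrix (Fin n) (Fin n) E),
        Function.Injective φ) ∧ ¬ IsSimpleRing (Algebra.adjoin k₀ (insert y X)) := by
  classical
  have hY : (insert y X).Finite := hX.insert y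
  obtain ⟨k₀, hk₀, h⟩ := descA p hfp (insert y X) hY
  refine ⟨k₀, h, ?_⟩
  have hnt : Nontrivial R := by
    by_contra hcon
    rw [not_nontrivial_iff_subsingleton] at hcon
    exact hy ⟨Polynomial.X, Polynomial.X_ne_zero, Subsingleton.elim _ _⟩
  set Y : Set R := insert y X with hYd
  set S₀ := Algebra.adjoin k₀ Y with hS₀
  set y₀ : S₀ := ⟨y, Algebra.subset_adjoin (Set.mem_insert y X)⟩ with hy₀
  set X₀ : Set S₀ := Subtype.val ⁻¹' X with hX₀
  have hX₀f : X₀.Finite := hX.preimage Subtype.val_injective.injOn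
  have hinj : Function.Injective S₀.val := Subtype.val_injective
  have htr : Transcendental k₀ y₀ := by
    intro hcon
    have h1 : IsAlgebraic k₀ y := by
      have h2 := IsAlgebraic.algHom S₀.val hcon
      exact h2
    exact hy (h1.tower_top (L := k))
  have hal₀ : ∀ x ∈ X₀, ∃ P : (k₀)[X][X], P ≠ 0 ∧ bi k₀ y₀ P x = 0 := by
    intro x hx
    refine exists_poly y₀ x fun hli => hal x.1 hx ?_
    refine indep_of_fin k₀ Y h (fun i : ℕ × ℕ => y ^ i.1 * (x : R) * y ^ i.2) ?_ ?_
    · intro i
      exact (y₀ ^ i.1 * x * y₀ ^ i.2).2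
    · have h3 := hli.map' S₀.val.toLinearMap (LinearMap.ker_eq_bot.mpr hinj)
      exact h3
  have hpre : insert y₀ X₀ = (Subtype.val ⁻¹' Y : Set S₀) := by
    ext z
    show z = y₀ ∨ (z : R) ∈ X ↔ (z : R) = y ∨ (z : R) ∈ X
    constructor
    · rintro (rfl | hz)
      · exact Or.inl rfl
      · exact Or.inr hz
    · rintro (hz | hz)
      · exact Or.inl (Subtype.ext hz)
      · exact Or.inr hz
  have hgen : Algebra.adjoin k₀ (insert y₀ X₀) = ⊤ := by
    rw [hpre]
    exact Algebra.adjoin_adjoin_coe_preimage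
  set V : Submodule k₀ S₀ := Submodule.span k₀ (insert 1 (insert y₀ X₀)) with hV
  have hVfg : V.FG := Submodule.fg_span ((hX₀f.insert y₀).insert 1)
  have hVmap : V.map S₀.val.toLinearMap = Submodule.span k₀ (insert 1 Y) := by
    rw [hV, Submodule.map_span]
    congr 1
    rw [hpre, Set.image_insert_eq]
    have e1 : S₀.val.toLinearMap (1 : S₀) = 1 := rfl
    rw [e1]
    congr 1
    ext z
    constructor
    · rintro ⟨w, hw, rfl⟩
      exact hw
    · intro hz
      exact ⟨⟨z, Algebra.subset_adjoin hz⟩, hz, rfl⟩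
  have hsub : SubCubic k₀ V := by
    have h4 := descGrow hgr k₀ Y hY h
    intro c
    obtain ⟨N, hN⟩ := h4 c
    refine ⟨N, fun n hn => ?_⟩
    have h5 : (V ^ n).map S₀.val.toLinearMap = (Submodule.span k₀ (insert 1 Y)) ^ n := by
      rw [Submodule.map_pow, hVmap]
    have h6 : finrank k₀ (V ^ n : Submodule k₀ S₀) =
        finrank k₀ ((Submodule.span k₀ (insert 1 Y)) ^ n : Submodule k₀ R) := by
      rw [← h5]
      exact (Submodule.equivMapOfInjective S₀.val.toLinearMap hinj (V ^ n)).finrank_eq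
    rw [h6]
    exact hN n hn
  have : Finite k₀ := hk₀
  have : Nontrivial S₀ := inferInstance
  have : NoZeroDivisors S₀ := inferInstance
  refine finMain y₀ htr X₀ hX₀f hal₀ hgen V hVfg ?_ ?_ ?_ hsub
  · exact Submodule.subset_span (Set.mem_insert _ _)
  · exact Submodule.subset_span (Set.mem_insert_of_mem _ (Set.mem_insert _ _))
  · intro x hx
    exact Submodule.subset_span (Set.mem_insert_of_mem _ (Set.mem_insert_of_mem _ hx))

theorem mainA {k R : Type u} [Field k] (p : ℕ) [Fact p.Prime] [Algebra (ZMod p) k] [Algebra.IsAlgebraic (ZMod p) k]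
    [Ring R] [NoZeroDivisors R] [Algebra k R] (hfp : FinPres k R) (hgr : GrowthBelowThree k R)
    (y : R) (hy : Transcendental k y) (X : Set R) (hX : X.Finite)
    (hal : ∀ x ∈ X, ¬ LinearIndependent k (fun i : ℕ × ℕ => y ^ i.1 * x * y ^ i.2)) :
    ∃ (n : ℕ) (C : Type u) (_ : CommRing C)
      (φ : Algebra.adjoin k (insert y X) →+* Matrix (Fin n) (Fin n) C), Function.Injective φ := by
  obtain ⟨k₀, h, ⟨n, E, hE, hA, φ, hφ⟩, -⟩ := core p hfp hgr y hy X hX hal
  obtain ⟨C, hC, ψ, hψ⟩ := descC k₀ (insert y X) h n E φ hφ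
  exact ⟨n, C, hC, ψ, hψ⟩

theorem mainB {k R : Type u} [Field k] (p : ℕ) [Fact p.Prime] [Algebra (ZMod p) k] [Algebra.IsAlgebraic (ZMod p) k]
    [Ring R] [NoZeroDivisors R] [Algebra k R] (hfp : FinPres k R) (hgr : GrowthBelowThree k R) [IsSimpleRing R]
    (y : R) (hy : Transcendental k y) (X : Set R) (hX : X.Finite) (hgen : Algebra.adjoin k (insert y X) = ⊤) :
    ∃ x ∈ X, LinearIndependent k (fun i : ℕ × ℕ => y ^ i.1 * x * y ^ i.2) := by
  by_contra hcon
  push Not at hcon
  obtain ⟨k₀, h, -, hns⟩ := core p hfp hgr y hy X hX hcon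
  exact hns (descSimple k₀ (insert y X) hgen h)

end Pool.Agent.Work.MP_16d7ed_al.GK
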