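import Pool.Agent.Work.MP_16d7ed_al.GK.Defs

/-!
# MODULE MinSup (M): the minimal support lemma (Artin-Whaples, Martindale)

PROOF. Consider the families `b : Fin n → D`, `b ≠ 0`, with `Σ_j b_j a e_j = 0` for all `a ∈ S` (e.g. `φ`), and take one with the smallest support, `b_{j₀} ≠ 0`; multiply on
the left by `b_{j₀}⁻¹`: `b_{j₀} = 1`. For `c ∈ S` and all `a ∈ S`: `Σ_j b_j (c a) e_j = 0` and `c Σ_j b_j a e_j = 0`, so `Σ_j (b_j c - c b_j) a e_j = 0` with strictly smaller
support (the coefficient at `j₀` is `0` and it vanishes where `b_j = 0`), so `b_j c = c b_j` for all `j` and all `c ∈ S`. Every `d ∈ D` has the form `d = b⁻¹ s` with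
`b, s ∈ S`, `b ≠ 0` (`hfr`), so `b_j` commutes with `d`: `b_j ∈ center D`. With `a = 1`: `Σ_j b_j e_j = 0`.
-/

set_option autoImplicit false

open Polynomial Module

namespace Pool.Agent.Work.MP_16d7ed_al.GK

theorem minSup {D : Type*} [DivisionRing D] (S : Subring D) (hfr : ∀ d : D, ∃ b ∈ S, b ≠ 0 ∧ b * d ∈ S)
    (n : ℕ) (φ e : Fin n → D) (hφ : φ ≠ 0) (h : ∀ a ∈ S, ∑ j, φ j * a * e j = 0) :
    ∃ c : Fin n → D, c ≠ 0 ∧ (∀ j, c j ∈ Subring.center D) ∧ ∑ j, c j * e j = 0 := by
  classical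
  -- families with the relation
  let supp : (Fin n → D) → Finset (Fin n) := fun b => Finset.univ.filter fun j => b j ≠ 0
  have hex : ∃ m : ℕ, ∃ b : Fin n → D, b ≠ 0 ∧ (∀ a ∈ S, ∑ j, b j * a * e j = 0) ∧ (supp b).card = m :=
    ⟨_, φ, hφ, h, rfl⟩
  obtain ⟨b, hb, hbS, hbm⟩ := Nat.find_spec hex
  have hmin : ∀ b' : Fin n → D, (∀ a ∈ S, ∑ j, b' j * a * e j = 0) → (supp b').card < Nat.find hex → b' = 0 := by
    intro b' h1 h2
    by_contra h3
    exact Nat.find_min hex h2 ⟨b', h3, h1, rfl⟩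
  obtain ⟨j₀, hj₀⟩ : ∃ j, b j ≠ 0 := by
    by_contra hcon
    push Not at hcon
    exact hb (funext hcon)
  let c : Fin n → D := fun j => (b j₀)⁻¹ * b j
  have hc0 : c j₀ = 1 := inv_mul_cancel₀ hj₀
  have hcS : ∀ a ∈ S, ∑ j, c j * a * e j = 0 := by
    intro a ha
    have h1 : ∑ j, c j * a * e j = (b j₀)⁻¹ * ∑ j, b j * a * e j := by
      rw [Finset.mul_sum]
      refine Finset.sum_congr rfl fun j _ => ?_
      simp only [c, mul_assoc]
    rw [h1, hbS a ha, mul_zero]
  have hcomm : ∀ s ∈ S, ∀ j, c j * s = s * c j := by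
    intro s hs
    let b' : Fin n → D := fun j => c j * s - s * c j
    have h1 : ∀ a ∈ S, ∑ j, b' j * a * e j = 0 := by
      intro a ha
      have h2 : ∑ j, b' j * a * e j = ∑ j, c j * (s * a) * e j - s * ∑ j, c j * a * e j := by
        rw [Finset.mul_sum, ← Finset.sum_sub_distrib]
        refine Finset.sum_congr rfl fun j _ => ?_
        simp only [b', sub_mul, mul_assoc]
      rw [h2, hcS _ (mul_mem hs ha), hcS a ha, mul_zero, sub_zero]
    have h3 : (supp b').card < Nat.find hex := by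
      rw [← hbm]
      apply Finset.card_lt_card
      refine ⟨?_, ?_⟩
      · intro j hj
        rw [Finset.mem_filter] at hj ⊢
        refine ⟨hj.1, fun h4 => hj.2 ?_⟩
        simp only [b', c, h4, mul_zero, zero_mul, sub_zero]
      · intro hsub
        have h4 : j₀ ∈ supp b := Finset.mem_filter.2 ⟨Finset.mem_univ _, hj₀⟩
        have h5 := (Finset.mem_filter.1 (hsub h4)).2
        apply h5
        simp only [b', hc0, one_mul, mul_one, sub_self]
    have h4 := hmin b' h1 h3
    intro j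
    have h5 := congrFun h4 j
    exact sub_eq_zero.1 h5
  refine ⟨c, ?_, ?_, ?_⟩
  · intro h0
    have := congrFun h0 j₀
    rw [hc0] at this
    exact one_ne_zero this
  · intro j
    rw [Subring.mem_center_iff]
    intro d
    obtain ⟨s, hs, hs0, hsd⟩ := hfr d
    have h1 := hcomm s hs j
    have h2 := hcomm _ hsd j
    have h3 : s * (d * c j) = s * (c j * d) := by
      rw [← mul_assoc, ← h2, ← mul_assoc, ← mul_assoc, h1]
    exact mul_left_cancel₀ hs0 h3
  · have := hcS 1 (one_mem S)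
    simpa using this

end Pool.Agent.Work.MP_16d7ed_al.GK
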