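import Pool.Agent.Work.MP_16d7ed_al.GK.Defs

/-!
# MODULE Nw (M): normal words over a noncentral division ring of coefficients

`K` acts on the left of `D` with `(c • a) * b = c • (a * b)`; `s a * (c • 1)` is in the left `K`-span of the `s b`. The order `Lt` is:
length first, then lexicographic on the reversed words. `Nrm K s` = words not in the left span of the smaller words.

PROOF. (a) `nrm_factor`: let `v` be reducible, `word v = Σ c_i • word v_i` with `Lt v_i v`. Then
`word (u ++ v ++ w) = Σ_i (word u * (c_i • 1)) * word v_i * word w` (as `c • x = (c • 1) * x`), and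
`word u * (c • 1)` is in the span of the `word u'` with `|u'| = |u|` (induction on `u` from the right, using `hs`). So
`word (u ++ v ++ w)` is in the span of the `word (u' ++ v_i ++ w)` with `|u'| = |u|`, `Lt v_i v`, and each of these words is
smaller than `u ++ v ++ w`: either `|v_i| < |v|`, or `|v_i| = |v|` and the reversed word is
`w.reverse ++ v_i.reverse ++ u'.reverse < w.reverse ++ v.reverse ++ u.reverse`, as `v_i.reverse < v.reverse` have the same length.
(b) `nrm_indep`: in a nontrivial relation between normal words take the largest word with nonzero coefficient (`Lt` is a strict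
total order, well founded on words; finitely many words): it is a combination of smaller ones. Contradiction. (For finite sets:
`linearIndependent_iff'`, `Finset.exists_max`-style argument on the support.)
(c) `nrm_span`: by well founded induction on `u` (there are finitely many words of length `≤ n`, or induction along `Lt`, which is
well founded since there are finitely many words of each length): if `u` is not normal, `word u` is in the span of the
`word v`, `Lt v u` (so `|v| ≤ |u|`), which are in the span of the normal words of length `≤ n`.
(`Lt` is the image of `List.Shortlex (· < ·)` under `List.reverse`; `List.Shortlex.wf` may help.)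
-/

set_option autoImplicit false

open Polynomial Module

namespace Pool.Agent.Work.MP_16d7ed_al.GK

section order

variable {r : ℕ}

private theorem lex_append : ∀ (a b c d : List (Fin r)), a < b → a.length = b.length → a ++ c < b ++ d
  | [], [], c, d, h, _ => absurd h (lt_irrefl _)
  | [], _ :: _, _, _, _, hl => by simp at hl
  | _ :: _, [], _, _, _, hl => by simp at hl
  | x :: a, y :: b, c, d, h, hl => by
    rw [List.cons_append, List.cons_append, List.cons_lt_cons_iff]
    rw [List.cons_lt_cons_iff] at h
    rcases h with h | ⟨h, h'⟩
    · exact Or.inl h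
    · exact Or.inr ⟨h, lex_append a b c d h' (by simpa using hl)⟩

private theorem append_lex : ∀ (c a b : List (Fin r)), a < b → c ++ a < c ++ b
  | [], _, _, h => h
  | x :: c, a, b, h => by
    rw [List.cons_append, List.cons_append, List.cons_lt_cons_iff]
    exact Or.inr ⟨rfl, append_lex c a b h⟩

private theorem lt_irr (u : List (Fin r)) : ¬ Lt u u := by
  rintro (h | ⟨_, h⟩)
  · exact lt_irrefl _ h
  · exact lt_irrefl _ h

private theorem lt_tr {u v w : List (Fin r)} (h : Lt u v) (h' : Lt v w) : Lt u w := by
  rcases h with h | ⟨h1, h2⟩ <;> rcases h' with h' | ⟨h1', h2'⟩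
  · exact Or.inl (h.trans h')
  · exact Or.inl (h1' ▸ h)
  · exact Or.inl (h1 ▸ h')
  · exact Or.inr ⟨h1.trans h1', h2.trans h2'⟩

private theorem lt_tot {u v : List (Fin r)} (h : u ≠ v) : Lt u v ∨ Lt v u := by
  rcases lt_trichotomy u.length v.length with h1 | h1 | h1
  · exact Or.inl (Or.inl h1)
  · have h2 : u.reverse ≠ v.reverse := fun h3 => h (List.reverse_injective h3)
    rcases lt_or_gt_of_ne h2 with h3 | h3
    · exact Or.inl (Or.inr ⟨h1, h3⟩)
    · exact Or.inr (Or.inr ⟨h1.symm, h3⟩)
  · exact Or.inr (Or.inl h1)

private theorem lt_len {u v : List (Fin r)} (h : Lt u v) : u.length ≤ v.length := by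
  rcases h with h | ⟨h, _⟩
  · exact h.le
  · exact h.le

private theorem below_fin (u : List (Fin r)) : {v | Lt v u}.Finite :=
  (List.finite_length_lt (Fin r) (u.length + 1)).subset fun _ hv => Nat.lt_succ_of_le (lt_len hv)

/-- the rank of a word -/
private noncomputable def rnk (u : List (Fin r)) : ℕ := {v | Lt v u}.ncard

private theorem rnk_lt {u v : List (Fin r)} (h : Lt u v) : rnk u < rnk v := by
  apply Set.ncard_lt_ncard _ (below_fin v)
  refine ⟨fun w hw => lt_tr hw h, fun hsub => lt_irr u (hsub h)⟩

private theorem lt_sub {x' x u v w : List (Fin r)} (h1 : x'.length = u.length) (h2 : Lt x v) :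
    Lt (x' ++ x ++ w) (u ++ v ++ w) := by
  rcases h2 with h2 | ⟨h2, h3⟩
  · left
    simp only [List.length_append]
    omega
  · right
    refine ⟨by simp only [List.length_append]; omega, ?_⟩
    simp only [List.reverse_append]
    apply append_lex
    apply lex_append _ _ _ _ h3
    simpa using h2

end order

variable {K D : Type*} [DivisionRing K] [Ring D] [Module K D] [IsScalarTower K D D] {r : ℕ}

private theorem word_append (s : Fin r → D) (u v : List (Fin r)) : word s (u ++ v) = word s u * word s v := by
  simp [word]

private theorem word_cons (s : Fin r → D) (a : Fin r) (u : List (Fin r)) : word s (a :: u) = s a * word s u := by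
  simp [word]

private theorem smul_eq (c : K) (x : D) : c • x = (c • (1 : D)) * x := by
  rw [smul_mul_assoc, one_mul]

private theorem stepA (s : Fin r → D)
    (hs : ∀ a (c : K), s a * (c • (1 : D)) ∈ Submodule.span K (Set.range s)) (u : List (Fin r)) (c : K) :
    word s u * (c • (1 : D)) ∈ Submodule.span K (word s '' {x | x.length = u.length}) := by
  induction u generalizing c with
  | nil =>
    have : word s ([] : List (Fin r)) * (c • (1 : D)) = c • word s [] := by simp [word]
    rw [this]
    exact Submodule.smul_mem _ _ (Submodule.subset_span ⟨[], rfl, rfl⟩)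
  | cons a u ih =>
    rw [word_cons, mul_assoc]
    have key : ∀ z ∈ Submodule.span K (word s '' {x | x.length = u.length}), ∀ e : K,
        s a * (e • z) ∈ Submodule.span K (word s '' {x | x.length = (a :: u).length}) := by
      intro z hz
      induction hz using Submodule.span_induction with
      | mem z hz =>
        obtain ⟨x, hx, rfl⟩ := hz
        intro e
        rw [smul_eq, ← mul_assoc]
        have h1 := hs a e
        have h2 : ∀ q ∈ Submodule.span K (Set.range s), q * word s x ∈
            Submodule.span K (word s '' {x | x.length = (a :: u).length}) := by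
          intro q hq
          induction hq using Submodule.span_induction with
          | mem q hq =>
            obtain ⟨b, rfl⟩ := hq
            rw [← word_cons]
            refine Submodule.subset_span ⟨b :: x, ?_, rfl⟩
            show (b :: x).length = (a :: u).length
            have hx' : x.length = u.length := hx
            simp [hx']
          | zero => rw [zero_mul]; exact Submodule.zero_mem _
          | add q q' _ _ h h' => rw [add_mul]; exact Submodule.add_mem _ h h'
          | smul c q _ h => rw [smul_mul_assoc]; exact Submodule.smul_mem _ _ h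
        exact h2 _ h1
      | zero => intro e; rw [smul_zero, mul_zero]; exact Submodule.zero_mem _
      | add z z' _ _ h h' =>
        intro e
        rw [smul_add, mul_add]
        exact Submodule.add_mem _ (h e) (h' e)
      | smul c z _ h =>
        intro e
        rw [smul_smul]
        exact h _
    have := key _ (ih c) 1
    rwa [one_smul] at this

theorem nrm_factor (s : Fin r → D)
    (hs : ∀ a (c : K), s a * (c • (1 : D)) ∈ Submodule.span K (Set.range s)) (u v w : List (Fin r))
    (h : u ++ v ++ w ∈ Nrm K s) : v ∈ Nrm K s := by
  by_contra hv
  apply h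
  have hv' : word s v ∈ Submodule.span K (word s '' {x | Lt x v}) := by
    by_contra hcon
    exact hv hcon
  rw [word_append, word_append]
  have key : ∀ z ∈ Submodule.span K (word s '' {x | Lt x v}), ∀ e : K,
      word s u * (e • z) * word s w ∈ Submodule.span K (word s '' {x | Lt x (u ++ v ++ w)}) := by
    intro z hz
    induction hz using Submodule.span_induction with
    | mem z hz =>
      obtain ⟨x, hx, rfl⟩ := hz
      intro e
      rw [smul_eq, ← mul_assoc, mul_assoc]
      have h2 : ∀ q ∈ Submodule.span K (word s '' {x | x.length = u.length}), q * (word s x * word s w) ∈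
          Submodule.span K (word s '' {x | Lt x (u ++ v ++ w)}) := by
        intro q hq
        induction hq using Submodule.span_induction with
        | mem q hq =>
          obtain ⟨x', hx', rfl⟩ := hq
          rw [← mul_assoc, ← word_append, ← word_append]
          exact Submodule.subset_span ⟨_, lt_sub hx' hx, rfl⟩
        | zero => rw [zero_mul]; exact Submodule.zero_mem _
        | add q q' _ _ h h' => rw [add_mul]; exact Submodule.add_mem _ h h'
        | smul c q _ h => rw [smul_mul_assoc]; exact Submodule.smul_mem _ _ h
      exact h2 _ (stepA s hs u e)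
    | zero => intro e; rw [smul_zero, mul_zero, zero_mul]; exact Submodule.zero_mem _
    | add z z' _ _ h h' =>
      intro e
      rw [smul_add, mul_add, add_mul]
      exact Submodule.add_mem _ (h e) (h' e)
    | smul c z _ h =>
      intro e
      rw [smul_smul]
      exact h _
  have := key _ hv' 1
  rwa [one_smul] at this

theorem nrm_indep (s : Fin r → D) : LinearIndependent K (fun u : Nrm K s => word s (u : List (Fin r))) := by
  classical
  rw [linearIndependent_iff']
  intro t g hg i hi
  by_contra hgi
  let t' := t.filter fun j => g j ≠ 0
  have ht' : t'.Nonempty := ⟨i, Finset.mem_filter.2 ⟨hi, hgi⟩⟩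
  obtain ⟨j, hj, hmax⟩ := t'.exists_max_image (fun j => rnk (j : List (Fin r))) ht'
  have hgj : g j ≠ 0 := (Finset.mem_filter.1 hj).2
  have hsum : ∑ x ∈ t', g x • word s (x : List (Fin r)) = 0 := by
    rw [← hg]
    apply Finset.sum_subset (Finset.filter_subset _ _)
    intro x hx hx'
    have : g x = 0 := by
      by_contra h0
      exact hx' (Finset.mem_filter.2 ⟨hx, h0⟩)
    rw [this, zero_smul]
  rw [← Finset.add_sum_erase _ _ hj] at hsum
  have hword : word s (j : List (Fin r)) =
      (g j)⁻¹ • (-(∑ x ∈ t'.erase j, g x • word s (x : List (Fin r)))) := by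
    rw [← eq_neg_of_add_eq_zero_left hsum, smul_smul, inv_mul_cancel₀ hgj, one_smul]
  apply j.2
  rw [hword]
  apply Submodule.smul_mem
  apply Submodule.neg_mem
  apply Submodule.sum_mem
  intro x hx
  apply Submodule.smul_mem
  apply Submodule.subset_span
  refine ⟨x, ?_, rfl⟩
  have hne : (x : List (Fin r)) ≠ j := fun h => (Finset.mem_erase.1 hx).1 (Subtype.ext h)
  rcases lt_tot hne with h1 | h1
  · exact h1
  · exact absurd (rnk_lt h1) (not_lt.2 (hmax x (Finset.mem_erase.1 hx).2))

theorem nrm_span (s : Fin r → D) (n : ℕ) :
    Submodule.span K (word s '' {u | u.length ≤ n}) =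
      Submodule.span K (word s '' {u | u ∈ Nrm K s ∧ u.length ≤ n}) := by
  apply le_antisymm
  · rw [Submodule.span_le]
    rintro _ ⟨u, hu, rfl⟩
    have key : ∀ N : ℕ, ∀ u : List (Fin r), rnk u = N → u.length ≤ n →
        word s u ∈ Submodule.span K (word s '' {u | u ∈ Nrm K s ∧ u.length ≤ n}) := by
      intro N
      induction N using Nat.strong_induction_on with
      | _ N ih =>
        intro u hN hu
        by_cases hnu : u ∈ Nrm K s
        · exact Submodule.subset_span ⟨u, ⟨hnu, hu⟩, rfl⟩
        · have h1 : word s u ∈ Submodule.span K (word s '' {v | Lt v u}) := by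
            by_contra hcon
            exact hnu hcon
          refine (Submodule.span_le.2 ?_) h1
          rintro _ ⟨v, hv, rfl⟩
          exact ih (rnk v) (hN ▸ rnk_lt hv) v rfl ((lt_len hv).trans hu)
    exact key _ u rfl hu
  · apply Submodule.span_mono
    apply Set.image_mono
    exact fun u hu => hu.2

end Pool.Agent.Work.MP_16d7ed_al.GK
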