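import Pool.Agent.Work.MP_16d7ed_al.GK.GapI

/-!
# MODULE OpGap (M): the right hand version of the gap theorem (opposite ring)

PROOF. Apply `gapI` to the division ring `Dᵐᵒᵖ` with `ι' c = op (ι c)` (an algebra homomorphism as `RatFunc k` is commutative:
`AlgHom.toOpposite` or by hand), `X' = op '' X`, `V' = V.map (opLinearEquiv k)`. Facts: `bi k (op y) (swap P) (op a) = op (bi k y P a)`
for all `P` (both sides are additive in `P`; for `P = C (C c * X^i) * X^j` both are `op (c y^i a y^j)`; `Polynomial.Bivariate.swap`);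
`V'^n = (V^n).map (opLinearEquiv k)` (`Submodule.map_op_pow`), so finranks agree and `SubCubic k V'`; `BI ι' X' = (BI ι X).map (opLinearEquiv k)`
(`op (ι c * (x * ι c')) = ι' c' * (op x * ι' c)`), and the same for powers. `P ≠ 0 ↔ swap P ≠ 0`. From the `P'` given by `gapI` for
`Dᵐᵒᵖ` put `P = swap P'` (`swap (swap P') = P'`).
-/

set_option autoImplicit false

open Polynomial Module

namespace Pool.Agent.Work.MP_16d7ed_al.GK

section aux

open MulOpposite

variable {k D : Type*} [Field k] [DivisionRing D] [Algebra k D]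

private noncomputable def ogi (ι : RatFunc k →ₐ[k] D) : RatFunc k →ₐ[k] Dᵐᵒᵖ where
  toFun c := op (ι c)
  map_one' := by rw [map_one, op_one]
  map_mul' a b := by rw [mul_comm, map_mul, op_mul]
  map_zero' := by rw [map_zero, op_zero]
  map_add' a b := by rw [map_add, op_add]
  commutes' r := by
    rw [AlgHom.commutes]
    rfl

private theorem og_mono (y : D) (j : ℕ) (f : k[X]) (a : D) :
    bi k y (monomial j f) a = aeval y f * a * y ^ j := by
  rw [bi_apply, sum_monomial_index]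
  rw [map_zero, zero_mul, zero_mul]

open Polynomial.Bivariate in
private theorem og_swap (y : D) (P : k[X][X]) (a : D) :
    bi k (op y) (swap P) (op a) = op (bi k y P a) := by
  induction P using Polynomial.induction_on' with
  | add p q hp hq =>
    rw [map_add, map_add, map_add, LinearMap.add_apply, LinearMap.add_apply, hp, hq, op_add]
  | monomial n f =>
    induction f using Polynomial.induction_on' with
    | add p q hp hq =>
      rw [map_add (monomial n), map_add, map_add, map_add, LinearMap.add_apply,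
        LinearMap.add_apply, hp, hq, op_add]
    | monomial m r =>
      rw [swap_monomial_monomial, og_mono, og_mono, aeval_monomial, aeval_monomial]
      have h1 : (algebraMap k Dᵐᵒᵖ r) = op (algebraMap k D r) := rfl
      rw [h1, ← op_pow, ← op_pow, ← op_mul, ← op_mul, ← op_mul]
      congr 1
      have h2 := Algebra.commutes r (y ^ n)
      have h3 := Algebra.commutes r (y ^ m * a * y ^ n)
      rw [← Algebra.commutes r (y ^ n), mul_assoc, ← mul_assoc, ← mul_assoc,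
        ← Algebra.commutes r (y ^ m * a)]
      simp only [mul_assoc]

private theorem og_BI (ι : RatFunc k →ₐ[k] D) (X : Set D) :
    BI (ogi ι) (op '' X) =
      (BI ι X).map ((opLinearEquiv k : D ≃ₗ[k] Dᵐᵒᵖ) : D →ₗ[k] Dᵐᵒᵖ) := by
  unfold BI
  rw [Submodule.map_sup, Submodule.map_span, Submodule.map_span]
  have e1 : (fun a => ((opLinearEquiv k : D ≃ₗ[k] Dᵐᵒᵖ) : D →ₗ[k] Dᵐᵒᵖ) a) ''
      (Set.range fun c : RatFunc k => ι c) = Set.range fun c : RatFunc k => ogi ι c := by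
    rw [← Set.range_comp]
    rfl
  have e2 : (fun a => ((opLinearEquiv k : D ≃ₗ[k] Dᵐᵒᵖ) : D →ₗ[k] Dᵐᵒᵖ) a) ''
      {d : D | ∃ x ∈ X, ∃ c c' : RatFunc k, d = ι c * (x * ι c')} =
      {d : Dᵐᵒᵖ | ∃ x ∈ op '' X, ∃ c c' : RatFunc k, d = ogi ι c * (x * ogi ι c')} := by
    ext d
    constructor
    · rintro ⟨_, ⟨x, hx, c, c', rfl⟩, rfl⟩
      refine ⟨op x, ⟨x, hx, rfl⟩, c', c, ?_⟩
      show op (ι c * (x * ι c')) = op (ι c') * (op x * op (ι c))
      rw [← op_mul, ← op_mul, mul_assoc]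
    · rintro ⟨_, ⟨x, hx, rfl⟩, c, c', rfl⟩
      refine ⟨ι c' * (x * ι c), ⟨x, hx, c', c, rfl⟩, ?_⟩
      show op (ι c' * (x * ι c)) = op (ι c) * (op x * op (ι c'))
      rw [← op_mul, ← op_mul, mul_assoc]
  rw [e1, e2]

private theorem og_mem (ι : RatFunc k →ₐ[k] D) (X : Set D) (n : ℕ) (a : D) :
    op a ∈ BI (ogi ι) (op '' X) ^ n ↔ a ∈ BI ι X ^ n := by
  rw [og_BI, ← Submodule.map_op_pow]
  constructor
  · rintro ⟨b, hb, hba⟩
    have h1 : op b = op a := hba
    rw [← op_injective h1]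
    exact hb
  · intro ha
    exact ⟨a, ha, rfl⟩

end aux

open Polynomial.Bivariate in
theorem opGap {k D : Type*} [Field k] [DivisionRing D] [Algebra k D] (ι : RatFunc k →ₐ[k] D)
    (X : Set D) (hX : X.Finite) (h : ∀ x ∈ X, ∃ P : k[X][X], P ≠ 0 ∧ bi k (ι RatFunc.X) P x = 0)
    (V : Submodule k D) (hV : V.FG) (h1 : (1 : D) ∈ V) (hy : ι RatFunc.X ∈ V) (hXV : X ⊆ (V : Set D))
    (hg : SubCubic k V) :
    ∃ C : ℕ, (∀ a ∈ BI ι X, ∃ P : k[X][X], P ≠ 0 ∧ (swap P).natDegree ≤ C ∧ bi k (ι RatFunc.X) P a = 0) ∧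
      ∀ n : ℕ, ∀ a ∈ BI ι X ^ (n + 2), ∃ P : k[X][X], P ≠ 0 ∧ (swap P).natDegree ≤ C ∧
        bi k (ι RatFunc.X) P a ∈ BI ι X ^ (n + 1) := by
  have hsw : ∀ P : k[X][X], P ≠ 0 → swap P ≠ 0 := by
    intro P hP h0
    exact hP (by rw [← swap_swap_apply P, h0, map_zero])
  have hy' : ogi ι RatFunc.X = MulOpposite.op (ι RatFunc.X) := rfl
  obtain ⟨C, hC1, hC2⟩ := gapI (ogi ι) (MulOpposite.op '' X) (hX.image _)
    (by
      rintro _ ⟨x, hx, rfl⟩
      obtain ⟨P, hP0, hP⟩ := h x hx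
      refine ⟨swap P, hsw P hP0, ?_⟩
      rw [hy', og_swap, hP, MulOpposite.op_zero])
    (V.map ((MulOpposite.opLinearEquiv k : D ≃ₗ[k] Dᵐᵒᵖ) : D →ₗ[k] Dᵐᵒᵖ)) (hV.map _)
    ⟨1, h1, rfl⟩ ⟨ι RatFunc.X, hy, rfl⟩
    (by
      rintro _ ⟨x, hx, rfl⟩
      exact ⟨x, hXV hx, rfl⟩)
    (by
      intro c
      obtain ⟨N, hN⟩ := hg c
      refine ⟨N, fun n hn => ?_⟩
      rw [← Submodule.map_op_pow]
      have h2 := LinearEquiv.finrank_map_eq (MulOpposite.opLinearEquiv k : D ≃ₗ[k] Dᵐᵒᵖ) (V ^ n)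
      rw [h2]
      exact hN n hn)
  refine ⟨C, fun a ha => ?_, fun n a ha => ?_⟩
  · obtain ⟨P, hP0, hP1, hP2⟩ := hC1 (MulOpposite.op a) (by
      have h2 := (og_mem ι X 1 a).2 (by rw [pow_one]; exact ha)
      rwa [pow_one] at h2)
    refine ⟨swap P, hsw P hP0, by rw [swap_swap_apply]; exact hP1, ?_⟩
    have h3 := og_swap (ι RatFunc.X) (swap P) a
    rw [swap_swap_apply, ← hy', hP2] at h3
    exact (MulOpposite.op_eq_zero_iff _).1 h3.symm
  · obtain ⟨P, hP0, hP1, hP2⟩ := hC2 n (MulOpposite.op a) ((og_mem ι X (n + 2) a).2 ha)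
    refine ⟨swap P, hsw P hP0, by rw [swap_swap_apply]; exact hP1, ?_⟩
    have h3 := og_swap (ι RatFunc.X) (swap P) a
    rw [swap_swap_apply, ← hy'] at h3
    rw [h3] at hP2
    exact (og_mem ι X (n + 1) _).1 hP2

end Pool.Agent.Work.MP_16d7ed_al.GK
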