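import Pool.Agent.Work.MP_16d7ed_al.GK.Eig
import Pool.Agent.Work.MP_16d7ed_al.GK.BcDesc

/-!
# MODULE SepMul (M): products of separable elements are separable

PROOF. `Ω = AlgebraicClosure (RatFunc k)`, `K = RatFunc k`, `R = Rr Ω (yy k D)`. Let `P`, `Q ∈ K[X]` be separable and kill `a`, `b`. Over `Ω`, `P = unit * Π (X - μ)` over
the finite set `s` of its roots, which are distinct. `P_Ω(R)` kills `1 ⊗ a` (as `aeval (φ.baseChange Ω) (P.map _) (1 ⊗ a) = 1 ⊗ aeval φ P a`). By coprimality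
`1 ⊗ a = Σ_{μ ∈ s} w_μ`, `R w_μ = μ w_μ` (`Polynomial.sup_ker_aeval_eq_ker_aeval_mul_of_coprime` and induction over `s`, or
Lagrange idempotents). For `w_μ ≠ 0` `eigMul` gives `τ_μ` with `Q.map τ_μ` killing `Rr b w_μ`; `Q.map τ_μ` is separable (`Polynomial.Separable.map`). Let `f ∈ Ω[X]` be
a squarefree = separable polynomial (`Ω` is algebraically closed) divisible by all `Q.map τ_μ` (e.g. `Π (X - ρ)` over the finite set of all their roots: a
separable polynomial over `Ω` splits with simple roots, so it divides that product). `f` kills `Rr b (1 ⊗ a) = 1 ⊗ (a * b)`. By `bcDesc` there is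
`0 ≠ P' ∈ K[X]` killing `a * b` with `P'_Ω ∣ f`, so `P'_Ω` is separable, so `P'` is separable (`Polynomial.separable_map`).
-/

set_option autoImplicit false

open Polynomial Module

namespace Pool.Agent.Work.MP_16d7ed_al.GK

open scoped TensorProduct

private theorem sm_lcm {F : Type*} [Field F] {f g : F[X]} (hf : f.Separable)
    (hg : g.Separable) : ∃ h : F[X], h.Separable ∧ f ∣ h ∧ g ∣ h := by
  classical
  obtain ⟨g', hg'⟩ := EuclideanDomain.gcd_dvd_right f g
  have h1 : (EuclideanDomain.gcd f g * g').Separable := by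
    rw [← hg']
    exact hg
  have h2 : IsCoprime f g' := by
    rw [← EuclideanDomain.gcd_isUnit_iff]
    have h3 : EuclideanDomain.gcd f g' ∣ EuclideanDomain.gcd f g := by
      refine EuclideanDomain.dvd_gcd (EuclideanDomain.gcd_dvd_left f g') ?_
      rw [hg']
      exact (EuclideanDomain.gcd_dvd_right f g').mul_left _
    exact h1.isCoprime.isUnit_of_dvd' h3 (EuclideanDomain.gcd_dvd_right f g')
  refine ⟨f * g', hf.mul h1.of_mul_right h2, dvd_mul_right _ _, ?_⟩
  have h4 := mul_dvd_mul_right (EuclideanDomain.gcd_dvd_left f g) g'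
  rw [← hg'] at h4
  exact h4

section

variable {k D : Type*} [Field k] [DivisionRing D] [Algebra k D] [Module (RatFunc k) D]
  [IsScalarTower (RatFunc k) D D] [IsScalarTower k (RatFunc k) D]
  (Ω : Type*) [Field Ω] [Algebra k Ω] [Algebra (RatFunc k) Ω] [IsScalarTower k (RatFunc k) Ω]

private theorem sm_one (P : (RatFunc k)[X]) (a : D) :
    aeval (Rr (k := k) Ω (yy k D)) (P.map (algebraMap (RatFunc k) Ω)) ((1 : Ω) ⊗ₜ[RatFunc k] a) =
      (1 : Ω) ⊗ₜ[RatFunc k] (aeval (LinearMap.mulRight (RatFunc k) (yy k D)) P a) := by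
  have h1 : ∀ n : ℕ, (Rr (k := k) Ω (yy k D) ^ n) ((1 : Ω) ⊗ₜ[RatFunc k] a) =
      (1 : Ω) ⊗ₜ[RatFunc k] ((LinearMap.mulRight (RatFunc k) (yy k D) ^ n) a) := by
    intro n
    induction n with
    | zero => rfl
    | succ n ih =>
      rw [pow_succ', Module.End.mul_apply, ih, pow_succ', Module.End.mul_apply]
      exact LinearMap.baseChange_tmul _ _ _
  rw [aeval_def, aeval_def, Polynomial.eval₂_map, Polynomial.eval₂_eq_sum,
    Polynomial.eval₂_eq_sum, Polynomial.sum_def, Polynomial.sum_def, LinearMap.sum_apply,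
    LinearMap.sum_apply, TensorProduct.tmul_sum]
  refine Finset.sum_congr rfl fun j _ => ?_
  rw [Module.End.mul_apply, Module.End.mul_apply, h1, Module.algebraMap_end_apply,
    RingHom.comp_apply, Module.algebraMap_end_apply, TensorProduct.smul_tmul', smul_eq_mul,
    mul_one, ← TensorProduct.smul_tmul, Algebra.smul_def, mul_one]

private theorem sm_list (b : D) (Q : (RatFunc k)[X]) (hQ : Q.Separable)
    (hb : aeval (LinearMap.mulRight (RatFunc k) (yy k D)) Q b = 0) (s : Finset Ω) :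
    ∀ u : Ω ⊗[RatFunc k] D, aeval (Rr (k := k) Ω (yy k D)) (∏ μ ∈ s, (X - C μ)) u = 0 →
      ∃ f : Polynomial Ω, f.Separable ∧
        aeval (Rr (k := k) Ω (yy k D)) f (Rr (k := k) Ω b u) = 0 := by
  classical
  induction s using Finset.induction_on with
  | empty =>
    intro u hu
    rw [Finset.prod_empty, map_one, Module.End.one_apply] at hu
    exact ⟨1, separable_one, by rw [hu, map_zero, map_zero]⟩
  | insert μ s hμ ih =>
    intro u hu
    rw [Finset.prod_insert hμ] at hu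
    have hc : IsCoprime (X - C μ) (∏ ν ∈ s, (X - C ν)) := by
      refine IsCoprime.prod_right fun ν hν => isCoprime_X_sub_C_of_isUnit_sub ?_
      refine isUnit_iff_ne_zero.2 (sub_ne_zero.2 ?_)
      rintro rfl
      exact hμ hν
    obtain ⟨A, B, hAB⟩ := hc
    have h1 : u = aeval (Rr (k := k) Ω (yy k D)) (B * ∏ ν ∈ s, (X - C ν)) u +
        aeval (Rr (k := k) Ω (yy k D)) (A * (X - C μ)) u := by
      rw [← LinearMap.add_apply, ← map_add, add_comm, hAB, map_one, Module.End.one_apply]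
    obtain ⟨u1, hu1⟩ : ∃ u1, u1 = aeval (Rr (k := k) Ω (yy k D)) (B * ∏ ν ∈ s, (X - C ν)) u :=
      ⟨_, rfl⟩
    obtain ⟨u2, hu2⟩ : ∃ u2, u2 = aeval (Rr (k := k) Ω (yy k D)) (A * (X - C μ)) u := ⟨_, rfl⟩
    have h2 : aeval (Rr (k := k) Ω (yy k D)) (∏ ν ∈ s, (X - C ν)) u2 = 0 := by
      have e : (∏ ν ∈ s, (X - C ν)) * (A * (X - C μ)) = A * ((X - C μ) * ∏ ν ∈ s, (X - C ν)) := by
        ring
      rw [hu2, ← Module.End.mul_apply, ← map_mul, e, map_mul, Module.End.mul_apply, hu, map_zero]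
    have h3 : aeval (Rr (k := k) Ω (yy k D)) (X - C μ) u1 = 0 := by
      have e : (X - C μ) * (B * ∏ ν ∈ s, (X - C ν)) = B * ((X - C μ) * ∏ ν ∈ s, (X - C ν)) := by
        ring
      rw [hu1, ← Module.End.mul_apply, ← map_mul, e, map_mul, Module.End.mul_apply, hu, map_zero]
    rw [← hu1, ← hu2] at h1
    obtain ⟨f2, hf2, hk2⟩ := ih u2 h2
    obtain ⟨f1, hf1, hk1⟩ : ∃ f : Polynomial Ω, f.Separable ∧
        aeval (Rr (k := k) Ω (yy k D)) f (Rr (k := k) Ω b u1) = 0 := by
      by_cases h0 : u1 = 0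
      · exact ⟨1, separable_one, by rw [h0, map_zero, map_zero]⟩
      · rw [map_sub, aeval_X, aeval_C, LinearMap.sub_apply, Module.algebraMap_end_apply,
          sub_eq_zero] at h3
        obtain ⟨τ, hτ⟩ := eigMul Ω u1 h0 μ h3
        exact ⟨Q.map τ, hQ.map, hτ b Q hb⟩
    obtain ⟨f, hf, ⟨g1, rfl⟩, ⟨g2, hg2⟩⟩ := sm_lcm hf1 hf2
    refine ⟨f1 * g1, hf, ?_⟩
    rw [h1, map_add, map_add]
    have e1 : aeval (Rr (k := k) Ω (yy k D)) (f1 * g1) (Rr (k := k) Ω b u1) = 0 := by
      rw [mul_comm, map_mul, Module.End.mul_apply, hk1, map_zero]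
    have e2 : aeval (Rr (k := k) Ω (yy k D)) (f1 * g1) (Rr (k := k) Ω b u2) = 0 := by
      rw [hg2, mul_comm, map_mul, Module.End.mul_apply, hk2, map_zero]
    rw [e1, e2, add_zero]

private theorem sm_main [IsAlgClosed Ω] (a b : D)
    (ha : SepK (k := k) a) (hb : SepK (k := k) b) : SepK (k := k) (a * b) := by
  classical
  obtain ⟨P, hP, hPa⟩ := ha
  obtain ⟨Q, hQ, hQb⟩ := hb
  obtain ⟨P', hP'⟩ : ∃ P', P' = P.map (algebraMap (RatFunc k) Ω) := ⟨_, rfl⟩
  have hPs : P'.Separable := by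
    rw [hP']
    exact hP.map
  have h1 : aeval (Rr (k := k) Ω (yy k D)) P' ((1 : Ω) ⊗ₜ[RatFunc k] a) = 0 := by
    rw [hP', sm_one, hPa, TensorProduct.tmul_zero]
  have h2 : P' = C P'.leadingCoeff * ∏ μ ∈ P'.roots.toFinset, (X - C μ) := by
    have h3 := (IsAlgClosed.splits P').eq_prod_roots
    rw [Finset.prod_eq_multiset_prod, Multiset.toFinset_val,
      Multiset.dedup_eq_self.2 (nodup_roots hPs)]
    exact h3
  have h4 : aeval (Rr (k := k) Ω (yy k D)) (∏ μ ∈ P'.roots.toFinset, (X - C μ))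
      ((1 : Ω) ⊗ₜ[RatFunc k] a) = 0 := by
    rw [h2, map_mul, Module.End.mul_apply, aeval_C, Module.algebraMap_end_apply] at h1
    exact (smul_eq_zero.1 h1).resolve_left (leadingCoeff_ne_zero.2 hPs.ne_zero)
  obtain ⟨f, hf, hk⟩ := sm_list Ω b Q hQ hQb _ _ h4
  have h5 : Rr (k := k) Ω b ((1 : Ω) ⊗ₜ[RatFunc k] a) = (1 : Ω) ⊗ₜ[RatFunc k] (a * b) := by
    unfold Rr
    rw [LinearMap.baseChange_tmul, LinearMap.mulRight_apply]
  rw [h5] at hk
  obtain ⟨R, hR0, hRk, hRd⟩ := bcDesc (Ω := Ω) (LinearMap.mulRight (RatFunc k) (yy k D)) (a * b) f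
    hf.ne_zero hk
  exact ⟨R, (separable_map (algebraMap (RatFunc k) Ω)).1 (hf.of_dvd hRd), hRk⟩

end

theorem sepK_mul {k D : Type*} [Field k] [DivisionRing D] [Algebra k D] [Module (RatFunc k) D]
    [IsScalarTower (RatFunc k) D D] [IsScalarTower k (RatFunc k) D] (a b : D)
    (ha : SepK (k := k) a) (hb : SepK (k := k) b) : SepK (k := k) (a * b) := by
  exact sm_main (AlgebraicClosure (RatFunc k)) a b ha hb

end Pool.Agent.Work.MP_16d7ed_al.GK
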