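import Pool.Agent.Work.MP_16d7ed_al.GK.SepMul

/-!
# MODULE SepRing (S-M): the elements killed by a separable polynomial form a subring

PROOF. (1) `SepK (c • 1)`: `(c • 1) * y = c • y = (c X) • 1 = X • (c • 1)`, so `X - C RatFunc.X` (separable) kills `c • 1`. (2) `SepK a`, `SepK b` gives `SepK (a + b)`: let `P`, `Q`
be separable polynomials killing `a`, `b`; `Q = (gcd P Q) * Q'`; as `Q` is squarefree `Q'` is coprime to `gcd P Q`, and `P/gcd` and `Q'` are coprime, so `P`
and `Q'` are coprime and `P * Q'` is separable (`Polynomial.Separable.mul`) and divisible by `P` and `Q`. (3) products: `sepK_mul`. (4) `BT X ^ n`: the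
elements `c • 1`, `c • (x * (c' • 1)) = (c • 1) * x * (c' • 1)` are `SepK`; `k`-multiples: `α • d = (algebraMap α • 1) * d`, and
`Submodule.span_induction`, `Submodule.pow_induction_on_left` etc.
-/

set_option autoImplicit false

open Polynomial Module

namespace Pool.Agent.Work.MP_16d7ed_al.GK

private theorem sr_lcm {F : Type*} [Field F] {f g : F[X]} (hf : f.Separable)
    (hg : g.Separable) : ∃ h : F[X], h.Separable ∧ f ∣ h ∧ g ∣ h := by
  classical
  obtain ⟨g', hg'⟩ := EuclideanDomain.gcd_dvd_right f g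
  have h1 : (EuclideanDomain.gcd f g * g').Separable := by
    rw [← hg']
    exact hg
  have h2 : IsCoprime f g' := by
    rw [← EuclideanDomain.gcd_isUnit_iff]
    have h3 : EuclideanDomain.gcd f g' ∣ EuclideanDomain.gcd f g := by
      refine EuclideanDomain.dvd_gcd (EuclideanDomain.gcd_dvd_left f g') ?_
      rw [hg']
      exact (EuclideanDomain.gcd_dvd_right f g').mul_left _
    exact h1.isCoprime.isUnit_of_dvd' h3 (EuclideanDomain.gcd_dvd_right f g')
  refine ⟨f * g', hf.mul h1.of_mul_right h2, dvd_mul_right _ _, ?_⟩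
  have h4 := mul_dvd_mul_right (EuclideanDomain.gcd_dvd_left f g) g'
  rw [← hg'] at h4
  exact h4

private theorem sr_dvd {K M : Type*} [Field K] [AddCommGroup M] [Module K M] (φ : M →ₗ[K] M)
    {P Q : K[X]} (h : P ∣ Q) {a : M} (ha : aeval (φ : Module.End K M) P a = 0) :
    aeval (φ : Module.End K M) Q a = 0 := by
  obtain ⟨c, rfl⟩ := h
  rw [mul_comm, map_mul, Module.End.mul_apply, ha, map_zero]

theorem sepK_add {k D : Type*} [Field k] [DivisionRing D] [Algebra k D] [Module (RatFunc k) D]
    [IsScalarTower (RatFunc k) D D] [IsScalarTower k (RatFunc k) D] (a b : D)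
    (ha : SepK (k := k) a) (hb : SepK (k := k) b) : SepK (k := k) (a + b) := by
  obtain ⟨P, hP, ha⟩ := ha
  obtain ⟨Q, hQ, hb⟩ := hb
  obtain ⟨H, hH, h1, h2⟩ := sr_lcm hP hQ
  exact ⟨H, hH, by rw [map_add, sr_dvd _ h1 ha, sr_dvd _ h2 hb, add_zero]⟩

private theorem sr_one {k D : Type*} [Field k] [DivisionRing D] [Algebra k D] [Module (RatFunc k) D]
    [IsScalarTower (RatFunc k) D D] (c : RatFunc k) : SepK (k := k) (c • (1 : D)) := by
  refine ⟨X - C RatFunc.X, separable_X_sub_C, ?_⟩
  rw [map_sub, aeval_X, aeval_C, LinearMap.sub_apply, LinearMap.mulRight_apply,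
    Module.algebraMap_end_apply, smul_one_mul, smul_smul, smul_smul, mul_comm, sub_self]

private theorem sr_smul {k D : Type*} [Field k] [DivisionRing D] [Algebra k D] [Module (RatFunc k) D]
    [IsScalarTower (RatFunc k) D D] [IsScalarTower k (RatFunc k) D] (c : k) (d : D)
    (h : SepK (k := k) d) : SepK (k := k) (c • d) := by
  have h1 : c • d = ((algebraMap k (RatFunc k) c) • (1 : D)) * d := by
    rw [smul_one_mul, algebraMap_smul]
  rw [h1]
  exact sepK_mul _ _ (sr_one _) h

private theorem sr_zero {k D : Type*} [Field k] [DivisionRing D] [Algebra k D] [Module (RatFunc k) D]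
    [IsScalarTower (RatFunc k) D D] : SepK (k := k) (0 : D) := by
  have := sr_one (k := k) (D := D) 0
  rwa [zero_smul] at this

private theorem sr_BT {k D : Type*} [Field k] [DivisionRing D] [Algebra k D] [Module (RatFunc k) D]
    [IsScalarTower (RatFunc k) D D] [IsScalarTower k (RatFunc k) D] (X : Set D)
    (h : ∀ x ∈ X, SepK (k := k) x) (a : D) (ha : a ∈ BT (k := k) X) : SepK (k := k) a := by
  obtain ⟨b, hb, c, hc, rfl⟩ := Submodule.mem_sup.1 ha
  clear ha
  refine sepK_add _ _ ?_ ?_
  · induction hb using Submodule.span_induction with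
    | mem x hx => obtain ⟨c, rfl⟩ := hx; exact sr_one c
    | zero => exact sr_zero
    | add x y _ _ hx hy => exact sepK_add _ _ hx hy
    | smul c x _ hx => exact sr_smul _ _ hx
  · induction hc using Submodule.span_induction with
    | mem x hx =>
      obtain ⟨x, hxX, c, c', rfl⟩ := hx
      rw [← smul_one_mul]
      exact sepK_mul _ _ (sr_one c) (sepK_mul _ _ (h x hxX) (sr_one c'))
    | zero => exact sr_zero
    | add x y _ _ hx hy => exact sepK_add _ _ hx hy
    | smul c x _ hx => exact sr_smul _ _ hx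

theorem sepBT {k D : Type*} [Field k] [DivisionRing D] [Algebra k D] [Module (RatFunc k) D]
    [IsScalarTower (RatFunc k) D D] [IsScalarTower k (RatFunc k) D] (X : Set D)
    (h : ∀ x ∈ X, SepK (k := k) x) (n : ℕ) (a : D) (ha : a ∈ BT (k := k) X ^ n) : SepK (k := k) a := by
  induction n generalizing a with
  | zero =>
    rw [pow_zero, Submodule.mem_one] at ha
    obtain ⟨c, rfl⟩ := ha
    rw [Algebra.algebraMap_eq_smul_one, ← algebraMap_smul (RatFunc k)]
    exact sr_one _
  | succ n ih =>
    rw [pow_succ] at ha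
    induction ha using Submodule.mul_induction_on' with
    | mem_mul_mem x hx y hy => exact sepK_mul _ _ (ih x hx) (sr_BT X h y hy)
    | add x _ y _ hx hy => exact sepK_add _ _ hx hy

end Pool.Agent.Work.MP_16d7ed_al.GK
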