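import Pool.Agent.Work.MP_16d7ed_al.GK.BiK

/-!
# MODULE SplitSep (M): squarefree annihilators

PROOF. `K = RatFunc k`. Choose a divisor `Q₁ ∣ Q` in `k[X][X]` with `bi Q₁ x = 0`, minimal with respect to divisibility (well founded; or strong induction on the number of
irreducible factors). `Q₁` is squarefree. If some irreducible `P ∣ Q₁` has `derivative P = 0`, then with `Q₁ = P G`, `bi G x ≠ 0` by minimality and
`bi P (bi G x) = 0`: second alternative. Otherwise `Q₁` is (up to a unit) a product of pairwise non-associated irreducible `P_i ∈ k[X][X]` with `derivative P_i ≠ 0`; in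
particular `P_i` has positive degree, so it is primitive and `P_i` mapped to `K[X]` is irreducible (Gauss: `Polynomial.IsPrimitive.irreducible_iff_irreducible_map_fraction_map`
for the UFD `k[X]`) with nonzero derivative, hence separable; for `i ≠ j` the images are not associated in `K[X]` (otherwise `P_i ∣ P_j` in
`k[X][X]` by `IsPrimitive.dvd_of_fraction_map_dvd_fraction_map`), hence coprime. So `Q₁` mapped to `K[X]` is separable
(`Polynomial.Separable.mul` repeatedly), and it kills `x` by `biK`: first alternative.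
-/

set_option autoImplicit false

open Polynomial Module

namespace Pool.Agent.Work.MP_16d7ed_al.GK

private theorem ss_map {k : Type*} [Field k] (Q : k[X][X]) :
    Squarefree Q → (∀ P : k[X][X], Irreducible P → P ∣ Q → derivative P ≠ 0) →
      (Q.map (algebraMap k[X] (RatFunc k))).Separable := by
  refine UniqueFactorizationMonoid.induction_on_prime (α := k[X][X])
    (P := fun Q => Squarefree Q → (∀ P : k[X][X], Irreducible P → P ∣ Q → derivative P ≠ 0) →
      (Q.map (algebraMap k[X] (RatFunc k))).Separable) Q ?_ ?_ ?_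
  · intro h
    exact absurd h not_squarefree_zero
  · intro x hx _ _
    have h1 : IsUnit (x.map (algebraMap k[X] (RatFunc k))) := by
      have h2 := hx.map (Polynomial.mapRingHom (algebraMap k[X] (RatFunc k)))
      exact h2
    exact (separable_one (R := RatFunc k)).of_dvd h1.dvd
  · intro a p ha hp ih hsq hd
    have hsa : Squarefree a := hsq.squarefree_of_dvd (dvd_mul_left a p)
    have h1 := ih hsa fun P hP hPa => hd P hP (hPa.mul_left p)
    have hpi : Irreducible p := hp.irreducible
    have hdp : derivative p ≠ 0 := hd p hpi (dvd_mul_right p a)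
    have hdeg : p.natDegree ≠ 0 := by
      intro h0
      rw [Polynomial.natDegree_eq_zero] at h0
      obtain ⟨c, rfl⟩ := h0
      exact hdp derivative_C
    have hprim : p.IsPrimitive := hpi.isPrimitive hdeg
    have hmi : Irreducible (p.map (algebraMap k[X] (RatFunc k))) :=
      hprim.irreducible_iff_irreducible_map_fraction_map.1 hpi
    have hms : (p.map (algebraMap k[X] (RatFunc k))).Separable := by
      rw [separable_iff_derivative_ne_zero hmi, Polynomial.derivative_map]
      intro h0
      exact hdp ((Polynomial.map_eq_zero_iff (IsFractionRing.injective k[X] (RatFunc k))).1 h0)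
    rw [Polynomial.map_mul]
    refine hms.mul h1 (hmi.coprime_iff_not_dvd.2 fun hdv => ?_)
    have hpa : p ∣ a := hprim.dvd_of_fraction_map_dvd_fraction_map hdv
    exact hpi.not_isUnit (hsq p (mul_dvd_mul_left p hpa))

theorem splitSep {k D : Type*} [Field k] [DivisionRing D] [Algebra k D] [Module (RatFunc k) D]
    [IsScalarTower (RatFunc k) D D] [IsScalarTower k (RatFunc k) D] (x : D) (Q : k[X][X])
    (hQ : Squarefree Q) (h : bi k (yy k D) Q x = 0) :
    SepK (k := k) x ∨ ∃ G P : k[X][X], Irreducible P ∧ derivative P = 0 ∧ bi k (yy k D) G x ≠ 0 ∧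
      bi k (yy k D) P (bi k (yy k D) G x) = 0 := by
  classical
  obtain ⟨Q₁, ⟨hQ₁, hk⟩, hmin⟩ := (wellFounded_dvdNotUnit (α := k[X][X])).has_min
    {Q' | Squarefree Q' ∧ bi k (yy k D) Q' x = 0} ⟨Q, hQ, h⟩
  by_cases hc : ∃ P : k[X][X], Irreducible P ∧ P ∣ Q₁ ∧ derivative P = 0
  · right
    obtain ⟨P, hP, ⟨G, rfl⟩, hPd⟩ := hc
    refine ⟨G, P, hP, hPd, fun h0 => ?_, by rw [← bi_mul, hk]⟩
    have hG : Squarefree G := hQ₁.squarefree_of_dvd (dvd_mul_left G P)
    exact hmin G ⟨hG, h0⟩ ⟨hG.ne_zero, P, hP.not_isUnit, mul_comm P G⟩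
  · left
    refine ⟨Q₁.map (algebraMap k[X] (RatFunc k)), ss_map Q₁ hQ₁ fun P hP hPQ hPd =>
      hc ⟨P, hP, hPQ, hPd⟩, ?_⟩
    rw [biK, hk]

end Pool.Agent.Work.MP_16d7ed_al.GK
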