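import Pool.Agent.Work.MP_16d7ed_al.GK.OpGap
import Pool.Agent.Work.MP_16d7ed_al.GK.GcdArg

/-!
# MODULE UnifNil (M): over a finite field one polynomial kills all increments

PROOF. Let `C₁, C₂` be the constants of `gapI`, `opGap`, `C` their maximum. `BI ι X ^ (n+1)` is stable under left and right multiplication by
`ι c` (from the definition for `n = 0`; `ι c * (u * v) = (ι c * u) * v`, `(u * v) * ι c = u * (v * ι c)`, `Submodule.pow_succ`). By `gcdArg` (with
`N = BI ι X ^ (n+1)`, or `N = ⊥`) for `a ∈ BI ι X ^ (n+2)` there is `G ≠ 0` with `natDegree G ≤ C`, `natDegree (swap G) ≤ C`, `bi G a ∈ BI ι X ^ (n+1)`,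
and for `a ∈ BI ι X` with `bi G a = 0`. The set `𝒢` of all nonzero `G ∈ k[X][X]` with `natDegree G ≤ C` and `natDegree (swap G) ≤ C` is finite,
since `k` is finite: `G` is determined by its coefficients `(G.coeff j).coeff i`, `i, j ≤ C` (`(swap G).coeff i).coeff j = (G.coeff j).coeff i`).
Let `H = Π_{G ∈ 𝒢} G ≠ 0`. Then `bi H a ∈ BI ι X ^ (n+1)` for `a ∈ BI ι X ^ (n+2)` (`H = H' G`, stability), `bi H a = 0` for `a ∈ BI ι X`, and by
induction `bi (H^(n+1)) a = 0` for `a ∈ BI ι X ^ (n+1)`.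
-/

set_option autoImplicit false

open Polynomial Module

namespace Pool.Agent.Work.MP_16d7ed_al.GK

section aux

variable {k D : Type*} [Field k] [DivisionRing D] [Algebra k D]

private theorem un_left (ι : RatFunc k →ₐ[k] D) (X : Set D) (c : RatFunc k) :
    ∀ a ∈ BI ι X, ι c * a ∈ BI ι X := by
  have h : BI ι X ≤ (BI ι X).comap (LinearMap.mulLeft k (ι c)) := by
    refine sup_le (Submodule.span_le.2 ?_) (Submodule.span_le.2 ?_)
    · rintro _ ⟨c', rfl⟩
      refine Submodule.mem_sup_left (Submodule.subset_span ⟨c * c', ?_⟩)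
      show ι (c * c') = ι c * ι c'
      rw [map_mul]
    · rintro _ ⟨x, hx, c₁, c₂, rfl⟩
      refine Submodule.mem_sup_right (Submodule.subset_span ⟨x, hx, c * c₁, c₂, ?_⟩)
      show ι c * (ι c₁ * (x * ι c₂)) = ι (c * c₁) * (x * ι c₂)
      rw [map_mul, mul_assoc]
  exact fun a ha => h ha

private theorem un_right (ι : RatFunc k →ₐ[k] D) (X : Set D) (c : RatFunc k) :
    ∀ a ∈ BI ι X, a * ι c ∈ BI ι X := by
  have h : BI ι X ≤ (BI ι X).comap (LinearMap.mulRight k (ι c)) := by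
    refine sup_le (Submodule.span_le.2 ?_) (Submodule.span_le.2 ?_)
    · rintro _ ⟨c', rfl⟩
      refine Submodule.mem_sup_left (Submodule.subset_span ⟨c' * c, ?_⟩)
      show ι (c' * c) = ι c' * ι c
      rw [map_mul]
    · rintro _ ⟨x, hx, c₁, c₂, rfl⟩
      refine Submodule.mem_sup_right (Submodule.subset_span ⟨x, hx, c₁, c₂ * c, ?_⟩)
      show ι c₁ * (x * ι c₂) * ι c = ι c₁ * (x * ι (c₂ * c))
      rw [map_mul, mul_assoc, mul_assoc]
  exact fun a ha => h ha

private theorem un_left' (ι : RatFunc k →ₐ[k] D) (X : Set D) (n : ℕ) (c : RatFunc k) :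
    ∀ a ∈ BI ι X ^ (n + 1), ι c * a ∈ BI ι X ^ (n + 1) := by
  intro a ha
  rw [pow_succ'] at ha ⊢
  refine Submodule.mul_induction_on ha ?_ ?_
  · intro u hu v hv
    rw [← mul_assoc]
    exact Submodule.mul_mem_mul (un_left ι X c u hu) hv
  · intro u v hu hv
    rw [mul_add]
    exact Submodule.add_mem _ hu hv

private theorem un_right' (ι : RatFunc k →ₐ[k] D) (X : Set D) (n : ℕ) (c : RatFunc k) :
    ∀ a ∈ BI ι X ^ (n + 1), a * ι c ∈ BI ι X ^ (n + 1) := by
  intro a ha
  rw [pow_succ] at ha ⊢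
  refine Submodule.mul_induction_on ha ?_ ?_
  · intro u hu v hv
    rw [mul_assoc]
    exact Submodule.mul_mem_mul hu (un_right ι X c v hv)
  · intro u v hu hv
    rw [add_mul]
    exact Submodule.add_mem _ hu hv

private theorem un_aeval (ι : RatFunc k →ₐ[k] D) (f : k[X]) :
    aeval (ι RatFunc.X) f = ι (aeval RatFunc.X f) := by
  rw [Polynomial.aeval_algHom_apply]

private theorem un_bi (ι : RatFunc k →ₐ[k] D) (N : Submodule k D)
    (hN : ∀ c : RatFunc k, ∀ a ∈ N, ι c * a ∈ N) (hN' : ∀ c : RatFunc k, ∀ a ∈ N, a * ι c ∈ N)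
    (P : k[X][X]) {a : D} (ha : a ∈ N) : bi k (ι RatFunc.X) P a ∈ N := by
  rw [bi_apply, Polynomial.sum_def]
  refine Submodule.sum_mem _ fun j _ => ?_
  rw [un_aeval, ← map_pow]
  exact hN' _ _ (hN _ _ ha)

open Polynomial.Bivariate in
private theorem un_coeff (G : k[X][X]) (i j : ℕ) :
    ((swap G).coeff i).coeff j = (G.coeff j).coeff i := by
  induction G using Polynomial.induction_on' with
  | add p q hp hq => rw [map_add, coeff_add, coeff_add, hp, hq, coeff_add, coeff_add]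
  | monomial n f =>
    induction f using Polynomial.induction_on' with
    | add p q hp hq =>
      rw [map_add (monomial n), map_add, coeff_add, coeff_add, hp, hq, coeff_add, coeff_add]
    | monomial m r =>
      rw [swap_monomial_monomial, coeff_monomial, coeff_monomial]
      by_cases h1 : m = i
      · by_cases h2 : n = j
        · rw [if_pos h1, if_pos h2, coeff_monomial, coeff_monomial, if_pos h1, if_pos h2]
        · rw [if_pos h1, if_neg h2, coeff_monomial, if_neg h2, coeff_zero]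
      · by_cases h2 : n = j
        · rw [if_neg h1, if_pos h2, coeff_monomial, if_neg h1, coeff_zero]
        · rw [if_neg h1, if_neg h2, coeff_zero, coeff_zero]

open Polynomial.Bivariate in
private theorem un_finite [Finite k] (C : ℕ) :
    {G : k[X][X] | G.natDegree ≤ C ∧ (swap G).natDegree ≤ C}.Finite := by
  have hinj : Set.InjOn (fun G : k[X][X] => fun i j : Fin (C + 1) => (G.coeff j).coeff i)
      {G : k[X][X] | G.natDegree ≤ C ∧ (swap G).natDegree ≤ C} := by
    rintro G ⟨hG1, hG2⟩ G' ⟨hG1', hG2'⟩ h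
    ext j i
    by_cases hj : j ≤ C
    · by_cases hi : i ≤ C
      · exact congrFun (congrFun h ⟨i, by omega⟩) ⟨j, by omega⟩
      · rw [← un_coeff G i j, ← un_coeff G' i j,
          coeff_eq_zero_of_natDegree_lt (p := swap G) (by omega),
          coeff_eq_zero_of_natDegree_lt (p := swap G') (by omega)]
    · rw [coeff_eq_zero_of_natDegree_lt (p := G) (by omega),
        coeff_eq_zero_of_natDegree_lt (p := G') (by omega)]
  exact Set.Finite.of_finite_image (Set.toFinite _) hinj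

end aux

theorem unifNil {k D : Type*} [Field k] [Finite k] [DivisionRing D] [Algebra k D] (ι : RatFunc k →ₐ[k] D)
    (X : Set D) (hX : X.Finite) (h : ∀ x ∈ X, ∃ P : k[X][X], P ≠ 0 ∧ bi k (ι RatFunc.X) P x = 0)
    (V : Submodule k D) (hV : V.FG) (h1 : (1 : D) ∈ V) (hy : ι RatFunc.X ∈ V) (hXV : X ⊆ (V : Set D))
    (hg : SubCubic k V) :
    ∃ H : k[X][X], H ≠ 0 ∧ ∀ n : ℕ, ∀ a ∈ BI ι X ^ (n + 1), bi k (ι RatFunc.X) (H ^ (n + 1)) a = 0 := by
  classical
  obtain ⟨C₁, hC1, hC1'⟩ := gapI ι X hX h V hV h1 hy hXV hg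
  obtain ⟨C₂, hC2, hC2'⟩ := opGap ι X hX h V hV h1 hy hXV hg
  have hfin := un_finite (k := k) (max C₁ C₂)
  set H : k[X][X] := ∏ G ∈ hfin.toFinset.filter (fun G => G ≠ 0), G with hH
  have hH0 : H ≠ 0 := by
    rw [hH, Finset.prod_ne_zero_iff]
    intro G hG
    exact (Finset.mem_filter.1 hG).2
  have hdvd : ∀ G : k[X][X], G ≠ 0 → G.natDegree ≤ max C₁ C₂ →
      (Polynomial.Bivariate.swap G).natDegree ≤ max C₁ C₂ → ∃ H' : k[X][X], H = H' * G := by
    intro G hG0 hG1 hG2
    have h2 : G ∈ hfin.toFinset.filter (fun G => G ≠ 0) := by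
      rw [Finset.mem_filter, Set.Finite.mem_toFinset]
      exact ⟨⟨hG1, hG2⟩, hG0⟩
    obtain ⟨H', hH'⟩ := Finset.dvd_prod_of_mem (fun G : k[X][X] => G) h2
    exact ⟨H', by rw [hH, mul_comm]; exact hH'⟩
  -- one step
  have hbase : ∀ a ∈ BI ι X, bi k (ι RatFunc.X) H a = 0 := by
    intro a ha
    obtain ⟨P, hP0, hP1, hP2⟩ := hC1 a ha
    obtain ⟨Q, hQ0, hQ1, hQ2⟩ := hC2 a ha
    obtain ⟨G, hG0, hG1, hG2, hG3⟩ := gcdArg ι (⊥ : Submodule k D)
      (fun c a ha => by
        rw [Submodule.mem_bot] at ha ⊢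
        rw [ha, mul_zero])
      (fun c a ha => by
        rw [Submodule.mem_bot] at ha ⊢
        rw [ha, zero_mul]) a P Q hP0 hQ0
      (by rw [hP2]; exact Submodule.zero_mem _) (by rw [hQ2]; exact Submodule.zero_mem _)
    obtain ⟨H', hH'⟩ := hdvd G hG0 (hG1.trans (hP1.trans (le_max_left _ _)))
      (hG2.trans (hQ1.trans (le_max_right _ _)))
    rw [Submodule.mem_bot] at hG3
    rw [hH', bi_mul, hG3, map_zero]
  have hstep : ∀ n : ℕ, ∀ a ∈ BI ι X ^ (n + 2), bi k (ι RatFunc.X) H a ∈ BI ι X ^ (n + 1) := by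
    intro n a ha
    obtain ⟨P, hP0, hP1, hP2⟩ := hC1' n a ha
    obtain ⟨Q, hQ0, hQ1, hQ2⟩ := hC2' n a ha
    obtain ⟨G, hG0, hG1, hG2, hG3⟩ := gcdArg ι (BI ι X ^ (n + 1))
      (un_left' ι X n) (un_right' ι X n) a P Q hP0 hQ0 hP2 hQ2
    obtain ⟨H', hH'⟩ := hdvd G hG0 (hG1.trans (hP1.trans (le_max_left _ _)))
      (hG2.trans (hQ1.trans (le_max_right _ _)))
    rw [hH', bi_mul]
    exact un_bi ι _ (un_left' ι X n) (un_right' ι X n) H' hG3
  refine ⟨H, hH0, fun n => ?_⟩
  induction n with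
  | zero =>
    intro a ha
    rw [zero_add, pow_one] at ha ⊢
    exact hbase a ha
  | succ n ih =>
    intro a ha
    rw [pow_succ, bi_mul]
    exact ih _ (hstep n a ha)

end Pool.Agent.Work.MP_16d7ed_al.GK
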