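import Pool.Agent.Work.MP_16d7ed_al.GK.UnifNil
import Pool.Agent.Work.MP_16d7ed_al.GK.SepRing
import Pool.Agent.Work.MP_16d7ed_al.GK.Insep
import Pool.Agent.Work.MP_16d7ed_al.GK.SplitSep
import Pool.Agent.Work.MP_16d7ed_al.GK.FrobTwist
import Pool.Agent.Work.MP_16d7ed_al.GK.Kemb

/-!
# MODULE Uniform (M): one polynomial kills the whole subalgebra (finite `k`)

PROOF. Let `p` be the characteristic of `k` (`CharP.exists`, prime since `k` is finite). `X' = insert y X`; `y` itself is killed by `C X - X` (`y * y - y * y = 0`), nonzero. By `frobTwist` there is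
one `e` such that every `x ∈ X'` is killed with respect to `y' = y^(p^e)` by a squarefree `Q'_x`. `y'` is transcendental. Let `ι` be given by `kemb`, `ι X = y'`;
`letI : Module (RatFunc k) D := Module.compHom D (ι : RatFunc k →+* D)`, `yy k D = y'`, `BT X' = BI ι X'`. `V' = V^(p^e)` contains `1, y', X'`, is finitely generated, and is
subcubic: `V'^n = V^(p^e n)`; for `c` apply `hg` to `c * p^(3 e)`. Let `C` be as in `gapI`.
(1) Every `x ∈ X'` is `SepK`: otherwise `splitSep` gives `v = bi y' G x ≠ 0`, `P` irreducible, `derivative P = 0`, `bi y' P v = 0`. `v ∈ BI ι X'` (`bi_apply`: a sum of `ι c * (x * ι c')`), `v^(n+1) ∈ BI ι X' ^ (n+1)`,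
so by `linDeg` some `P_n ≠ 0` with `natDegree ≤ C (n+1)` kills `v^(n+1)`; by `biK` and `insep` (`A = P_n` mapped to `K[X]`, injective map) `p^(n+1) ≤ C (n+1)` for all `n`: false for large `n`.
(2) By `sepBT` every element of `BT X' ^ n` is `SepK`. Let `H` be as in `unifNil`. For `a ∈ BI ι X' ^ (n+1)`: a separable `P ∈ K[X]` kills `a` and `H_K^(n+1)` kills `a` (`H_K` = `H` mapped to `K[X]`);
`G = gcd P (H_K^(n+1))` kills `a` (Bezout), is separable, so squarefree, and divides `H_K^(n+1)`, so it divides `H_K` (`Squarefree.dvd_pow_iff_dvd`). Hence `H_K` kills `a`, `bi y' H a = 0`.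
(3) Every `a ∈ adjoin k (insert y X)` lies in some `BI ι X' ^ (n+1)` (`1 ∈ BI ι X'`, so the powers increase; `y ∈ X' ⊆ BI ι X'`; `Algebra.adjoin_induction`). `bi_pow` turns `H` into `H'` with
`bi y H' a = bi y' H a = 0`.
-/

set_option autoImplicit false

open Polynomial Module

namespace Pool.Agent.Work.MP_16d7ed_al.GK

private theorem uf_alg {k D : Type*} [Field k] [DivisionRing D] [Algebra k D]
    (ι : RatFunc k →ₐ[k] D) (f : k[X]) :
    aeval (ι RatFunc.X) f = ι (algebraMap k[X] (RatFunc k) f) := by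
  rw [Polynomial.aeval_algHom_apply]
  congr 1
  induction f using Polynomial.induction_on' with
  | add p q hp hq => rw [map_add, map_add, hp, hq]
  | monomial n a =>
    rw [← Polynomial.C_mul_X_pow_eq_monomial, map_mul, map_pow, aeval_X, aeval_C, map_mul, map_pow,
      RatFunc.algebraMap_X]
    congr 1

private theorem uf_dvd {F W : Type*} [Field F] [AddCommGroup W] [Module F W] (R : Module.End F W)
    {f g : F[X]} (h : f ∣ g) {u : W} (hu : aeval R f u = 0) : aeval R g u = 0 := by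
  obtain ⟨c, rfl⟩ := h
  rw [mul_comm, map_mul, Module.End.mul_apply, hu, map_zero]

private theorem uf_num (p C : ℕ) (hp : 2 ≤ p) (h : ∀ n : ℕ, p ^ (n + 1) ≤ C * (n + 1)) : False := by
  have h1 := h (4 * C + 1)
  have h2 : (2 * C + 1) < 2 ^ (2 * C + 1) := Nat.lt_two_pow_self
  have h3 : (2 : ℕ) ^ (4 * C + 1 + 1) ≤ p ^ (4 * C + 1 + 1) := Nat.pow_le_pow_left hp _
  have h4 : (2 : ℕ) ^ (4 * C + 1 + 1) = 2 ^ (2 * C + 1) * 2 ^ (2 * C + 1) := by
    rw [← pow_add]
    congr 1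
    ring
  have h5 : (2 * C + 1 + 1) * (2 * C + 1 + 1) ≤ 2 ^ (2 * C + 1) * 2 ^ (2 * C + 1) :=
    Nat.mul_le_mul h2 h2
  nlinarith

private theorem uf_core {k D : Type*} [Field k] [Finite k] [DivisionRing D] [Algebra k D]
    [Module (RatFunc k) D] [IsScalarTower (RatFunc k) D D] [IsScalarTower k (RatFunc k) D]
    (p : ℕ) [Fact p.Prime] [CharP k p] (ι : RatFunc k →ₐ[k] D)
    (hι : ∀ (c : RatFunc k) (d : D), c • d = ι c * d) (Y : Set D) (hY : Y.Finite)
    (hsq : ∀ x ∈ Y, ∃ Q : k[X][X], Squarefree Q ∧ bi k (ι RatFunc.X) Q x = 0)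
    (V : Submodule k D) (hV : V.FG) (h1 : (1 : D) ∈ V) (hy : ι RatFunc.X ∈ V)
    (hYV : Y ⊆ (V : Set D)) (hg : SubCubic k V) :
    ∃ H : k[X][X], H ≠ 0 ∧ ∀ n : ℕ, ∀ a ∈ BI ι Y ^ (n + 1), bi k (ι RatFunc.X) H a = 0 := by
  classical
  have hyy : yy k D = ι RatFunc.X := by
    show (RatFunc.X : RatFunc k) • (1 : D) = _
    rw [hι, mul_one]
  have hbt : BT (k := k) Y = BI ι Y := by
    unfold BT BI
    simp only [hι, mul_one]
  have hne : ∀ x ∈ Y, ∃ Q : k[X][X], Q ≠ 0 ∧ bi k (ι RatFunc.X) Q x = 0 := by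
    intro x hx
    obtain ⟨Q, hQ, hk⟩ := hsq x hx
    exact ⟨Q, hQ.ne_zero, hk⟩
  obtain ⟨C, hC⟩ := gapI ι Y hY hne V hV h1 hy hYV hg
  have hsep : ∀ x ∈ Y, SepK (k := k) x := by
    intro x hx
    obtain ⟨Q, hQ, hk⟩ := hsq x hx
    rcases splitSep x Q hQ (by rw [hyy]; exact hk) with h2 | ⟨G, P, hP, hd, hG, hPG⟩
    · exact h2
    · exfalso
      refine uf_num p C (Fact.out : p.Prime).two_le fun n => ?_
      have hv : bi k (yy k D) G x ∈ BI ι Y := by
        rw [bi_apply, Polynomial.sum_def]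
        refine Submodule.sum_mem _ fun j _ => Submodule.mem_sup_right (Submodule.subset_span ?_)
        refine ⟨x, hx, algebraMap k[X] (RatFunc k) (G.coeff j), RatFunc.X ^ j, ?_⟩
        rw [hyy, uf_alg, map_pow, mul_assoc]
      obtain ⟨Pn, hPn0, hPnd, hPnk⟩ := linDeg ι Y C hC n _ (Submodule.pow_mem_pow _ hv (n + 1))
      have h3 := insep p _ hG P hP hd hPG (n + 1) (Pn.map (algebraMap k[X] (RatFunc k)))
        ((Polynomial.map_ne_zero_iff (IsFractionRing.injective k[X] (RatFunc k))).2 hPn0)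
        (by rw [biK, hyy] ; rw [hyy] at hPnk; exact hPnk)
      exact h3.trans ((Polynomial.natDegree_map_le).trans hPnd)
  obtain ⟨H, hH0, hH⟩ := unifNil ι Y hY hne V hV h1 hy hYV hg
  refine ⟨H, hH0, fun n a ha => ?_⟩
  obtain ⟨P, hP, hPa⟩ := sepBT Y hsep (n + 1) a (by rw [hbt]; exact ha)
  have h4 : aeval (LinearMap.mulRight (RatFunc k) (yy k D))
      ((H.map (algebraMap k[X] (RatFunc k))) ^ (n + 1)) a = 0 := by
    rw [← Polynomial.map_pow, biK, hyy]
    exact hH n a ha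
  have h5 : aeval (LinearMap.mulRight (RatFunc k) (yy k D))
      (EuclideanDomain.gcd P ((H.map (algebraMap k[X] (RatFunc k))) ^ (n + 1))) a = 0 := by
    rw [EuclideanDomain.gcd_eq_gcd_ab, map_add, LinearMap.add_apply,
      uf_dvd _ (dvd_mul_right P _) hPa, uf_dvd _ (dvd_mul_right _ _) h4, add_zero]
  have h6 : (EuclideanDomain.gcd P
      ((H.map (algebraMap k[X] (RatFunc k))) ^ (n + 1))).Separable :=
    hP.of_dvd (EuclideanDomain.gcd_dvd_left _ _)
  have h7 := (h6.squarefree.dvd_pow_iff_dvd (Nat.succ_ne_zero n)).1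
    (EuclideanDomain.gcd_dvd_right P ((H.map (algebraMap k[X] (RatFunc k))) ^ (n + 1)))
  have h8 := uf_dvd _ h7 h5
  rw [biK, hyy] at h8
  exact h8

private theorem uf_one {k D : Type*} [Field k] [DivisionRing D] [Algebra k D]
    {M : Submodule k D} (h1 : (1 : D) ∈ M) {m n : ℕ} (hmn : m ≤ n) : M ^ m ≤ M ^ n := by
  induction hmn with
  | refl => exact le_rfl
  | step _ ih =>
    refine ih.trans fun x hx => ?_
    have h2 := Submodule.mul_mem_mul hx h1
    rw [mul_one, ← pow_succ] at h2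
    exact h2

theorem uniform {k D : Type*} [Field k] [Finite k] [DivisionRing D] [Algebra k D] (y : D)
    (hy : Transcendental k y) (X : Set D) (hX : X.Finite)
    (h : ∀ x ∈ X, ∃ P : k[X][X], P ≠ 0 ∧ bi k y P x = 0)
    (V : Submodule k D) (hV : V.FG) (h1 : (1 : D) ∈ V) (hyV : y ∈ V) (hXV : X ⊆ (V : Set D))
    (hg : SubCubic k V) :
    ∃ H : k[X][X], H ≠ 0 ∧ ∀ a ∈ Algebra.adjoin k (insert y X), bi k y H a = 0 := by
  classical
  obtain ⟨p, hp⟩ := CharP.exists k
  haveI := hp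
  haveI : Fact p.Prime := ⟨CharP.char_is_prime k p⟩
  have hp2 : 0 < p := (Fact.out : p.Prime).pos
  have hkill : ∀ x ∈ insert y X, ∃ e₀ : ℕ, ∀ e ≥ e₀, ∃ Q' : k[X][X],
      Squarefree Q' ∧ bi k (y ^ p ^ e) Q' x = 0 := by
    intro x hx
    have h2 : ∃ P : k[X][X], P ≠ 0 ∧ bi k y P x = 0 := by
      rcases Set.mem_insert_iff.1 hx with rfl | hx
      · refine ⟨C Polynomial.X - Polynomial.X, ?_, ?_⟩
        · intro h0
          have h3 := congrArg (fun f : k[X][X] => f.coeff 1) h0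
          simp only [coeff_sub, coeff_C_succ, coeff_X_one, coeff_zero, zero_sub] at h3
          exact one_ne_zero (neg_eq_zero.1 h3)
        · rw [map_sub, LinearMap.sub_apply, bi_C, bi_X, aeval_X, sub_self]
      · exact h x hx
    obtain ⟨Q, hQ, hk⟩ := h2
    exact frobTwist p y x Q hQ hk
  choose! f hf using hkill
  have hX' : (insert y X).Finite := hX.insert y
  obtain ⟨e, he⟩ := (hX'.image f).bddAbove
  have hsq : ∀ x ∈ insert y X, ∃ Q : k[X][X], Squarefree Q ∧ bi k (y ^ p ^ e) Q x = 0 :=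
    fun x hx => hf x hx e (he (Set.mem_image_of_mem f hx))
  have hq : 0 < p ^ e := pow_pos hp2 e
  obtain ⟨q, hqe⟩ : ∃ q, q = p ^ e := ⟨_, rfl⟩
  rw [← hqe] at hsq hq
  obtain ⟨ι, hι⟩ := kemb (y ^ q) (hy.pow hq)
  have hV1 : V ≤ V ^ q := by
    have h3 := uf_one h1 (Nat.succ_le_of_lt hq)
    rw [Nat.succ_eq_add_one, zero_add, pow_one] at h3
    exact h3
  have hcore : ∃ H : k[X][X], H ≠ 0 ∧ ∀ n : ℕ, ∀ a ∈ BI ι (insert y X) ^ (n + 1),
      bi k (ι RatFunc.X) H a = 0 := by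
    letI : Module (RatFunc k) D := Module.compHom D (ι : RatFunc k →+* D)
    haveI : IsScalarTower (RatFunc k) D D := ⟨fun c a b => mul_assoc (ι c) a b⟩
    haveI : IsScalarTower k (RatFunc k) D := ⟨fun a c d => by
      show ι (a • c) * d = a • (ι c * d)
      rw [map_smul, smul_mul_assoc]⟩
    refine uf_core p ι (fun c d => rfl) (insert y X) hX' (by rw [hι]; exact hsq) (V ^ q) (hV.pow q)
      (hV1 h1) ?_ ?_ ?_
    · rw [hι]
      exact Submodule.pow_mem_pow _ hyV q
    · rintro x hx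
      rcases Set.mem_insert_iff.1 hx with rfl | hx
      · exact hV1 hyV
      · exact hV1 (hXV hx)
    · intro c
      obtain ⟨N, hN⟩ := hg (c * q ^ 3)
      refine ⟨N, fun n hn => ?_⟩
      have h4 := hN (q * n) (hn.trans (Nat.le_mul_of_pos_left n hq))
      rw [pow_mul, mul_pow, mul_comm c, mul_assoc] at h4
      exact Nat.le_of_mul_le_mul_left h4 (pow_pos hq 3)
  obtain ⟨H, hH0, hH⟩ := hcore
  obtain ⟨H', hH'0, hH'⟩ := bi_pow y q hq H hH0
  refine ⟨H', hH'0, fun a ha => ?_⟩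
  have hM1 : (1 : D) ∈ BI ι (insert y X) :=
    Submodule.mem_sup_left (Submodule.subset_span ⟨1, map_one ι⟩)
  have hmem : ∃ n : ℕ, a ∈ BI ι (insert y X) ^ (n + 1) := by
    induction ha using Algebra.adjoin_induction with
    | mem x hx =>
      refine ⟨0, ?_⟩
      rw [zero_add, pow_one]
      refine Submodule.mem_sup_right (Submodule.subset_span ⟨x, hx, 1, 1, ?_⟩)
      rw [map_one, one_mul, mul_one]
    | algebraMap r =>
      refine ⟨0, ?_⟩
      rw [zero_add, pow_one, Algebra.algebraMap_eq_smul_one]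
      exact Submodule.smul_mem _ r hM1
    | add x z _ _ hx hz =>
      obtain ⟨n, hn⟩ := hx
      obtain ⟨m, hm⟩ := hz
      exact ⟨n + m, Submodule.add_mem _ (uf_one hM1 (by omega) hn) (uf_one hM1 (by omega) hm)⟩
    | mul x z _ _ hx hz =>
      obtain ⟨n, hn⟩ := hx
      obtain ⟨m, hm⟩ := hz
      refine ⟨n + 1 + m, ?_⟩
      rw [add_assoc, pow_add]
      exact Submodule.mul_mem_mul hn hm
  obtain ⟨n, hn⟩ := hmem
  rw [hH', ← hι]
  exact hH n a hn

end Pool.Agent.Work.MP_16d7ed_al.GK
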